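import Pool.Agent.X35.RP.Dig
import Pool.Agent.Helper923.PNT

/-!
# Primes with a given number of digits in a progression
-/

set_option autoImplicit false

open Finset Filter Topology

namespace Pool.Agent.X35.RQ

theorem sum_nonprime_le (x : ℝ) (hx : 1 ≤ x) :
    ∑ n ∈ (Icc 1 ⌊x⌋₊).filter (fun n => ¬ n.Prime), ArithmeticFunction.vonMangoldt n ≤
      2 * Real.sqrt x * Real.log x := by
  have h1 := Chebyshev.psi_sub_theta_le hx
  have h2 := Chebyshev.psi_sub_theta_eq_sum_not_prime x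
  rw [h2] at h1
  refine le_trans (le_of_eq ?_) h1
  apply Finset.sum_congr _ (fun _ _ => rfl)
  ext n
  simp [Finset.mem_filter, Finset.mem_Icc, Finset.mem_Ioc]
  omega

theorem primes_block (b q a : ℕ) (hb : 2 ≤ b) (hq : 0 < q) (ha : a.Coprime q) :
    ∃ L0 : ℕ, 2 ≤ L0 ∧ ∀ L : ℕ, L0 ≤ L →
      ((b : ℝ) ^ (L + 1)) / (8 * q.totient * Real.log ((b : ℝ) ^ (L + 1))) ≤
        (((Ico (b ^ L) (b ^ (L + 1))).filter (fun p => p.Prime ∧ p ≡ a [MOD q])).card : ℝ) := by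
  have : NeZero q := ⟨hq.ne'⟩
  have hb0 : (0 : ℝ) < b := by exact_mod_cast (by omega : 0 < b)
  have hb1 : (1 : ℝ) < b := by exact_mod_cast (by omega : 1 < b)
  have hb2 : (2 : ℝ) ≤ b := by exact_mod_cast hb
  have hu : IsUnit (a : ZMod q) := (ZMod.isUnit_iff_coprime a q).2 ha
  obtain ⟨F, hF⟩ : ∃ F : ℝ → ℝ, F = fun x => ∑ k ∈ Finset.Icc 1 ⌊x⌋₊,
      ArithmeticFunction.vonMangoldt.residueClass (a : ZMod q) k := ⟨_, rfl⟩
  have h1 : Tendsto (fun x : ℝ => F x / x) atTop (𝓝 ((q.totient : ℝ)⁻¹)) := by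
    rw [hF]
    exact Pool.Agent.Helper923.PNT.pnt_residueClass hu
  have hφ0 : (0 : ℝ) < q.totient := by exact_mod_cast Nat.totient_pos.2 hq
  have hφ : (0 : ℝ) < (q.totient : ℝ)⁻¹ := by positivity
  have hpow : Tendsto (fun L : ℕ => (b : ℝ) ^ L) atTop atTop := tendsto_pow_atTop_atTop_of_one_lt hb1
  have h2 := h1.comp hpow
  have h3 : ∀ᶠ L : ℕ in atTop, F ((b : ℝ) ^ L) / (b : ℝ) ^ L < (q.totient : ℝ)⁻¹ * (9 / 8) :=
    h2.eventually (gt_mem_nhds (by linarith))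
  have h4 : ∀ᶠ L : ℕ in atTop, (q.totient : ℝ)⁻¹ * (7 / 8) <
      F ((b : ℝ) ^ (L + 1)) / (b : ℝ) ^ (L + 1) :=
    (tendsto_add_atTop_nat 1).eventually (h2.eventually (lt_mem_nhds (by linarith)))
  have h6 : ∀ᶠ x : ℝ in atTop, 2 * Real.sqrt x * Real.log x ≤ (q.totient : ℝ)⁻¹ / 8 * x := by
    have e1 := (isLittleO_log_rpow_atTop (show (0 : ℝ) < 1 / 4 by norm_num)).def
      (show (0 : ℝ) < 1 by norm_num)
    have e4 : ∀ᶠ x : ℝ in atTop, 16 * (q.totient : ℝ) ≤ x ^ (1 / 4 : ℝ) :=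
      (tendsto_rpow_atTop (show (0 : ℝ) < 1 / 4 by norm_num)).eventually_ge_atTop _
    filter_upwards [e1, e4, eventually_ge_atTop (1 : ℝ)] with x h7 h8 h9
    rw [one_mul, Real.norm_of_nonneg (Real.log_nonneg h9),
      Real.norm_of_nonneg (Real.rpow_nonneg (by linarith) _)] at h7
    obtain ⟨w, hw⟩ : ∃ w : ℝ, w = x ^ (1 / 4 : ℝ) := ⟨_, rfl⟩
    rw [← hw] at h7 h8
    have hw0 : 0 ≤ w := by rw [hw]; exact Real.rpow_nonneg (by linarith) _
    have hw4 : w ^ 4 = x := by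
      rw [hw, ← Real.rpow_natCast, ← Real.rpow_mul (by linarith)]; norm_num
    have hsq : Real.sqrt x = w ^ 2 := by
      rw [← hw4, show w ^ 4 = (w ^ 2) ^ 2 by ring, Real.sqrt_sq (by positivity)]
    rw [hsq]
    have h11 : 2 * w ^ 2 * Real.log x ≤ 2 * w ^ 3 := by
      calc 2 * w ^ 2 * Real.log x ≤ 2 * w ^ 2 * w := mul_le_mul_of_nonneg_left h7 (by positivity)
        _ = _ := by ring
    refine h11.trans ?_
    have h12 : (q.totient : ℝ)⁻¹ / 8 * (16 * (q.totient : ℝ)) = 2 := by field_simp; norm_num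
    have h13 : (q.totient : ℝ)⁻¹ / 8 * (16 * (q.totient : ℝ)) ≤ (q.totient : ℝ)⁻¹ / 8 * w :=
      mul_le_mul_of_nonneg_left h8 (by positivity)
    rw [h12] at h13
    calc 2 * w ^ 3 ≤ ((q.totient : ℝ)⁻¹ / 8 * w) * w ^ 3 :=
          mul_le_mul_of_nonneg_right h13 (by positivity)
      _ = (q.totient : ℝ)⁻¹ / 8 * w ^ 4 := by ring
      _ = _ := by rw [hw4]
  have h7 : ∀ᶠ L : ℕ in atTop, 2 * Real.sqrt ((b : ℝ) ^ (L + 1)) * Real.log ((b : ℝ) ^ (L + 1)) ≤
      (q.totient : ℝ)⁻¹ / 8 * (b : ℝ) ^ (L + 1) :=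
    (tendsto_add_atTop_nat 1).eventually (hpow.eventually h6)
  obtain ⟨L0, hL0⟩ := (h3.and (h4.and h7)).exists_forall_of_atTop
  refine ⟨max L0 2, by omega, ?_⟩
  intro L hL
  obtain ⟨g1, g2, g3⟩ := hL0 L (le_trans (le_max_left _ _) hL)
  have hL2 : 2 ≤ L := le_trans (le_max_right _ _) hL
  obtain ⟨x, hx⟩ : ∃ x : ℝ, x = (b : ℝ) ^ (L + 1) := ⟨_, rfl⟩
  obtain ⟨y, hy⟩ : ∃ y : ℝ, y = (b : ℝ) ^ L := ⟨_, rfl⟩
  rw [← hx] at g2 g3 ⊢
  rw [← hy] at g1
  have hy0 : 0 < y := by rw [hy]; positivity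
  have hxy : x = b * y := by rw [hx, hy]; ring
  have hx0 : 0 < x := by rw [hx]; positivity
  have hyx : 2 * y ≤ x := by rw [hxy]; exact mul_le_mul_of_nonneg_right hb2 hy0.le
  rw [div_lt_iff₀ hy0] at g1
  rw [lt_div_iff₀ hx0] at g2
  have hfx : ⌊x⌋₊ = b ^ (L + 1) := by
    rw [hx]
    exact_mod_cast Nat.floor_natCast (R := ℝ) (b ^ (L + 1))
  have hfy : ⌊y⌋₊ = b ^ L := by
    rw [hy]
    exact_mod_cast Nat.floor_natCast (R := ℝ) (b ^ L)
  obtain ⟨A, hA⟩ : ∃ A : Finset ℕ, A =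
      (Ico (b ^ L) (b ^ (L + 1))).filter (fun p => p.Prime ∧ p ≡ a [MOD q]) := ⟨_, rfl⟩
  rw [← hA]
  have hx1 : 1 < x := by
    rw [hx]
    exact one_lt_pow₀ hb1 (by omega)
  have hlx : 0 < Real.log x := Real.log_pos hx1
  have hle : b ^ L ≤ b ^ (L + 1) := Nat.pow_le_pow_right (by omega) (by omega)
  have hsplit : F x = F y + ∑ k ∈ Ioc (b ^ L) (b ^ (L + 1)),
      ArithmeticFunction.vonMangoldt.residueClass (a : ZMod q) k := by
    rw [hF]
    simp only
    rw [hfx, hfy]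
    have e1 : ∀ n : ℕ, Icc 1 n = Ioc 0 n := by
      intro n; ext z; simp only [mem_Icc, mem_Ioc]; omega
    rw [e1, e1]
    exact (Finset.sum_Ioc_consecutive _ (Nat.zero_le _) hle).symm
  have hnp := sum_nonprime_le x hx1.le
  rw [hfx] at hnp
  have h8 : ∀ k ∈ Ioc (b ^ L) (b ^ (L + 1)),
      ArithmeticFunction.vonMangoldt.residueClass (a : ZMod q) k ≤
      (if (k.Prime ∧ k ≡ a [MOD q]) then Real.log x else 0) +
        (if ¬ k.Prime then ArithmeticFunction.vonMangoldt k else 0) := by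
    intro k hk
    rw [mem_Ioc] at hk
    have hkx : (k : ℝ) ≤ x := by rw [hx]; exact_mod_cast hk.2
    by_cases hp : k.Prime
    · rw [if_neg (not_not.2 hp), add_zero]
      by_cases hc : k ≡ a [MOD q]
      · rw [if_pos ⟨hp, hc⟩]
        refine (ArithmeticFunction.vonMangoldt.residueClass_le _ k).trans ?_
        rw [ArithmeticFunction.vonMangoldt_apply_prime hp]
        exact Real.log_le_log (by exact_mod_cast hp.pos) hkx
      · rw [if_neg (fun h => hc h.2)]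
        have h12 : ¬ ((k : ZMod q) = (a : ZMod q)) := fun h13 =>
          hc ((ZMod.natCast_eq_natCast_iff k a q).1 h13)
        have : ArithmeticFunction.vonMangoldt.residueClass (a : ZMod q) k = 0 := by
          unfold ArithmeticFunction.vonMangoldt.residueClass
          rw [Set.indicator_of_notMem]
          exact h12
        rw [this]
    · rw [if_neg (fun h => hp h.1), zero_add, if_pos hp]
      exact ArithmeticFunction.vonMangoldt.residueClass_le _ k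
  have h9 := Finset.sum_le_sum h8
  rw [Finset.sum_add_distrib, ← Finset.sum_filter, Finset.sum_const, nsmul_eq_mul,
    ← Finset.sum_filter] at h9
  have h10 : ((Ioc (b ^ L) (b ^ (L + 1))).filter (fun k => k.Prime ∧ k ≡ a [MOD q])).card ≤
      A.card := by
    apply Finset.card_le_card
    rw [hA]
    intro k hk
    rw [mem_filter, mem_Ioc] at hk
    rw [mem_filter, mem_Ico]
    refine ⟨⟨by omega, lt_of_le_of_ne hk.1.2 ?_⟩, hk.2⟩
    intro h
    have h11 := hk.2.1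
    rw [h] at h11
    exact Nat.Prime.not_prime_pow (show 2 ≤ L + 1 by omega) h11
  have h10' : (((Ioc (b ^ L) (b ^ (L + 1))).filter
      (fun k => k.Prime ∧ k ≡ a [MOD q])).card : ℝ) ≤ A.card := by exact_mod_cast h10
  have h11 : ∑ n ∈ (Ioc (b ^ L) (b ^ (L + 1))).filter (fun n => ¬ n.Prime),
      ArithmeticFunction.vonMangoldt n ≤ ∑ n ∈ (Icc 1 (b ^ (L + 1))).filter (fun n => ¬ n.Prime),
      ArithmeticFunction.vonMangoldt n := by
    apply Finset.sum_le_sum_of_subset_of_nonneg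
    · apply Finset.filter_subset_filter
      intro k hk
      rw [mem_Ioc] at hk
      rw [mem_Icc]
      omega
    · intro n _ _
      exact ArithmeticFunction.vonMangoldt_nonneg
  have h12 := mul_le_mul_of_nonneg_right h10' hlx.le
  have h13 : (q.totient : ℝ)⁻¹ / 8 * x ≤ A.card * Real.log x := by
    have e1 : (q.totient : ℝ)⁻¹ * (9 / 8) * y ≤ (q.totient : ℝ)⁻¹ * (9 / 16) * x := by
      have := mul_le_mul_of_nonneg_left hyx (show 0 ≤ (q.totient : ℝ)⁻¹ * (9 / 16) by positivity)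
      linarith
    have e2 : 0 ≤ (q.totient : ℝ)⁻¹ * x := by positivity
    linarith
  rw [div_le_iff₀ (by positivity)]
  have h14 : (q.totient : ℝ)⁻¹ / 8 * x * (8 * q.totient) = x := by field_simp
  have h15 := mul_le_mul_of_nonneg_right h13 (show (0 : ℝ) ≤ 8 * q.totient by positivity)
  rw [h14] at h15
  linarith

end Pool.Agent.X35.RQ
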