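import Pool.Agent.X35.RQ.SumSet
import Pool.Agent.X35.RP.Top

/-!
# The density of the sums of two reversed primes, uniformly in the base
-/

set_option autoImplicit false

open Finset Filter

namespace Pool.Agent.X35.RQ

open Pool.Agent.X35.RP (rv rv_lt rv_inj rev rev_eq IsSum small_sum)
open Pool.Agent.W851.Had (cnt SumH schn cnt_le)

/-- the quotients of the primes with last digit `e₀` -/
def Ad (b L e₀ : ℕ) : Finset ℕ := (Ico (b ^ (L - 1)) (b ^ L)).filter (fun n => (e₀ + b * n).Prime)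

/-- the sums of two quotients -/
def Td (b L e₁ e₂ : ℕ) : Finset ℕ :=
  (Ad b L e₁ ×ˢ Ad b L e₂).image (fun x => rv b L x.1 + rv b L x.2)

theorem Tc_sub (b L e₁ v₁ e₂ v₂ : ℕ) : Tc b L e₁ v₁ e₂ v₂ ⊆ Td b L e₁ e₂ := by
  unfold Tc Td
  apply Finset.image_subset_image
  apply Finset.product_subset_product
  · intro n hn
    unfold Ac at hn
    unfold Ad
    rw [mem_filter] at hn ⊢
    exact ⟨hn.1, hn.2.2⟩
  · intro n hn
    unfold Ac at hn
    unfold Ad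
    rw [mem_filter] at hn ⊢
    exact ⟨hn.1, hn.2.2⟩

theorem Tc_mod (b : ℕ) (hb : 2 ≤ b) (L e₁ v₁ e₂ v₂ s : ℕ) (hs : s ∈ Tc b L e₁ v₁ e₂ v₂) :
    b * s ≡ b ^ L * (v₁ + v₂) [MOD b ^ 2 - 1] := by
  unfold Tc at hs
  rw [mem_image] at hs
  obtain ⟨⟨x, y⟩, hxy, rfl⟩ := hs
  rw [mem_product] at hxy
  obtain ⟨hx, hy⟩ := hxy
  unfold Ac at hx hy
  simp only at hx hy ⊢
  rw [mem_filter, mem_Ico] at hx hy
  have h1 := rv_mod b hb L x hx.1.2
  have h2 := rv_mod b hb L y hy.1.2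
  have h3 : x ≡ v₁ [MOD b ^ 2 - 1] := by
    have := Nat.mod_modEq x (b ^ 2 - 1)
    rw [hx.2.1] at this
    exact this.symm
  have h4 : y ≡ v₂ [MOD b ^ 2 - 1] := by
    have := Nat.mod_modEq y (b ^ 2 - 1)
    rw [hy.2.1] at this
    exact this.symm
  rw [mul_add, mul_add]
  exact (h1.trans (h3.mul_left _)).add (h2.trans (h4.mul_left _))

theorem good_classes (b : ℕ) (hb : 3 ≤ b) (e₁ e₂ : ℕ) (ho₁ : Odd e₁) (ho₂ : Odd e₂)
    (t : ℕ) (ht : Even (b ^ 2 - 1) → Even t) :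
    ∃ v₁ v₂ : ℕ, v₁ < b ^ 2 - 1 ∧ v₂ < b ^ 2 - 1 ∧ Nat.Coprime (e₁ + b * v₁) (b ^ 2 - 1) ∧
      Nat.Coprime (e₂ + b * v₂) (b ^ 2 - 1) ∧ v₁ + v₂ ≡ t [MOD b ^ 2 - 1] := by
  have hb4 : 9 ≤ b ^ 2 := by nlinarith
  have hb2 : b ^ 2 ≡ 1 [MOD b ^ 2 - 1] := by
    have h : 1 ≡ b ^ 2 [MOD b ^ 2 - 1] := (Nat.modEq_iff_dvd' (by omega)).2 (dvd_refl _)
    exact h.symm
  obtain ⟨m, hm⟩ : ∃ m : ℕ, m = b ^ 2 - 1 := ⟨_, rfl⟩
  rw [← hm] at ht hb2 ⊢
  have hm0 : 0 < m := by omega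
  obtain ⟨u₁, u₂, hu₁, hu₂, hu⟩ := units_sum m (b * t + e₁ + e₂) hm0 (by
    intro h
    have h1 := ht h
    have h2 : Even (e₁ + e₂) := ho₁.add_odd ho₂
    rw [add_assoc]
    exact (h1.mul_left b).add h2)
  -- `v = b (u - e)`
  have key : ∀ u e₀ : ℕ, Nat.Coprime u m →
      Nat.Coprime (e₀ + b * ((b * (u + (m - 1) * e₀)) % m)) m ∧
      b * ((b * (u + (m - 1) * e₀)) % m) + e₀ ≡ u [MOD m] := by
    intro u e₀ hu
    have h1 : (b * (u + (m - 1) * e₀)) % m ≡ b * (u + (m - 1) * e₀) [MOD m] := Nat.mod_modEq _ _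
    have h2 : b * ((b * (u + (m - 1) * e₀)) % m) ≡ u + (m - 1) * e₀ [MOD m] := by
      have h3 := h1.mul_left b
      have h4 : b * (b * (u + (m - 1) * e₀)) = b ^ 2 * (u + (m - 1) * e₀) := by ring
      rw [h4] at h3
      have h5 := hb2.mul_right (u + (m - 1) * e₀)
      rw [one_mul] at h5
      exact h3.trans h5
    have h3 : b * ((b * (u + (m - 1) * e₀)) % m) + e₀ ≡ u [MOD m] := by
      have h4 := h2.add_right e₀
      have h5 : u + (m - 1) * e₀ + e₀ = u + m * e₀ := by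
        obtain ⟨c, rfl⟩ : ∃ c, m = c + 1 := ⟨m - 1, by omega⟩
        simp only [Nat.add_sub_cancel]
        ring
      rw [h5] at h4
      have h6 : m * e₀ ≡ 0 [MOD m] := (Nat.modEq_zero_iff_dvd).2 (Dvd.intro _ rfl)
      have h7 := h6.add_left u
      rw [add_zero] at h7
      exact h4.trans h7
    refine ⟨?_, h3⟩
    have h4 : Nat.gcd (e₀ + b * ((b * (u + (m - 1) * e₀)) % m)) m = Nat.gcd u m := by
      rw [add_comm e₀]
      exact h3.gcd_eq
    unfold Nat.Coprime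
    rw [h4]
    exact hu
  obtain ⟨k1, k2⟩ := key u₁ e₁ hu₁
  obtain ⟨k3, k4⟩ := key u₂ e₂ hu₂
  refine ⟨(b * (u₁ + (m - 1) * e₁)) % m, (b * (u₂ + (m - 1) * e₂)) % m, Nat.mod_lt _ hm0,
    Nat.mod_lt _ hm0, k1, k3, ?_⟩
  obtain ⟨x, hx⟩ : ∃ x, x = (b * (u₁ + (m - 1) * e₁)) % m := ⟨_, rfl⟩
  obtain ⟨y, hy⟩ : ∃ y, y = (b * (u₂ + (m - 1) * e₂)) % m := ⟨_, rfl⟩
  rw [← hx] at k2 ⊢
  rw [← hy] at k4 ⊢
  have h1 : (b * x + e₁) + (b * y + e₂) ≡ b * t + e₁ + e₂ [MOD m] := (k2.add k4).trans hu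
  have h2 : b * (x + y) + (e₁ + e₂) ≡ b * t + (e₁ + e₂) [MOD m] := by
    have e1 : (b * x + e₁) + (b * y + e₂) = b * (x + y) + (e₁ + e₂) := by ring
    have e2 : b * t + e₁ + e₂ = b * t + (e₁ + e₂) := by ring
    rw [e1, e2] at h1
    exact h1
  have h3 : b * (x + y) ≡ b * t [MOD m] := Nat.ModEq.add_right_cancel' _ h2
  have h4 := h3.mul_left b
  have h5 : ∀ z : ℕ, b * (b * z) ≡ z [MOD m] := by
    intro z
    have h6 : b * (b * z) = b ^ 2 * z := by ring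
    rw [h6]
    have h7 := hb2.mul_right z
    rw [one_mul] at h7
    exact h7
  exact ((h5 _).symm.trans h4).trans (h5 _)

theorem card_T (m : ℕ) (hm : 2 ≤ m) :
    (m : ℝ) / 3 ≤ ((range m).filter (fun t => Even m → Even t)).card := by
  have h1 : m / 2 ≤ ((range m).filter (fun t => Even m → Even t)).card := by
    rw [← Finset.card_range (m / 2)]
    apply Finset.card_le_card_of_injOn (fun k => 2 * k)
    · intro k hk
      rw [Finset.mem_coe, mem_range] at hk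
      rw [Finset.mem_coe, mem_filter, mem_range]
      exact ⟨by show 2 * k < m; omega, fun _ => even_two_mul k⟩
    · intro x _ y _ h
      simp only at h
      omega
  have h2 : ((m / 2 : ℕ) : ℝ) ≤ ((range m).filter (fun t => Even m → Even t)).card := by
    exact_mod_cast h1
  have h3 : m ≤ 3 * (m / 2) := by omega
  have h4 : (m : ℝ) ≤ 3 * ((m / 2 : ℕ) : ℝ) := by exact_mod_cast h3
  linarith

/-- sums of two reversed primes with leading digits `1` and `e₀` -/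
theorem digit : ∃ C5 : ℝ, 0 < C5 ∧ ∀ b : ℕ, 3 ≤ b → 2 * (4 + Real.log b) ^ 2 ≤ b →
    ∀ e₁ e₂ : ℕ, e₁ < b → Nat.Coprime e₁ b → Odd e₁ → e₂ < b → Nat.Coprime e₂ b → Odd e₂ →
    ∃ L0 : ℕ, 2 ≤ L0 ∧ ∀ L : ℕ, L0 ≤ L → (b : ℝ) ^ L / C5 ≤ (Td b L e₁ e₂).card := by
  classical
  obtain ⟨C4, hC4, hpair⟩ := pair
  refine ⟨3 * C4, by positivity, ?_⟩
  intro b hb hlog e₁ e₂ he₁ hc₁ ho₁ he₂ hc₂ ho₂
  have hb0 : (0 : ℝ) < b := by exact_mod_cast (by omega : 0 < b)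
  have hb4 : 9 ≤ b ^ 2 := by nlinarith
  have hm0 : (0 : ℝ) < ((b ^ 2 - 1 : ℕ) : ℝ) := by exact_mod_cast (by omega : 0 < b ^ 2 - 1)
  obtain ⟨T, hT⟩ : ∃ T : Finset ℕ, T = (range (b ^ 2 - 1)).filter
    (fun t => Even (b ^ 2 - 1) → Even t) := ⟨_, rfl⟩
  have hex : ∀ t : ℕ, t ∈ T → ∃ v₁ v₂ : ℕ, v₁ < b ^ 2 - 1 ∧ v₂ < b ^ 2 - 1 ∧
      Nat.Coprime (e₁ + b * v₁) (b ^ 2 - 1) ∧
      Nat.Coprime (e₂ + b * v₂) (b ^ 2 - 1) ∧ v₁ + v₂ ≡ t [MOD b ^ 2 - 1] := by
    intro t ht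
    rw [hT, mem_filter] at ht
    exact good_classes b hb e₁ e₂ ho₁ ho₂ t ht.2
  choose! f₁ f₂ hf using hex
  have hL : ∀ t : ℕ, t ∈ T → ∃ L0 : ℕ, 2 ≤ L0 ∧ ∀ L : ℕ, L0 ≤ L →
      (b : ℝ) ^ L / (C4 * ((b ^ 2 - 1 : ℕ) : ℝ)) ≤ (Tc b L e₁ (f₁ t) e₂ (f₂ t)).card := by
    intro t ht
    obtain ⟨g1, g2, g3, g4, g5⟩ := hf t ht
    exact hpair b hb hlog e₁ (f₁ t) e₂ (f₂ t) ho₁.pos he₁ hc₁ g1 g3 ho₂.pos he₂ hc₂ g2 g4
  choose! LL hLL using hL
  refine ⟨T.sup LL + 2, by omega, ?_⟩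
  intro L hL
  have h1 : ∀ t ∈ T, (b : ℝ) ^ L / (C4 * ((b ^ 2 - 1 : ℕ) : ℝ)) ≤
      ((Tc b L e₁ (f₁ t) e₂ (f₂ t)).card : ℝ) := by
    intro t ht
    apply (hLL t ht).2 L
    have := Finset.le_sup (f := LL) ht
    omega
  have h2 : (T.biUnion (fun t => Tc b L e₁ (f₁ t) e₂ (f₂ t))) ⊆ Td b L e₁ e₂ := by
    intro s hs
    rw [mem_biUnion] at hs
    obtain ⟨t, _, hs⟩ := hs
    exact Tc_sub _ _ _ _ _ _ hs
  have hcopb : Nat.Coprime (b ^ 2 - 1) (b ^ L) := by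
    apply Nat.Coprime.pow_right
    have h3 : Nat.Coprime (b ^ 2 - 1) (b ^ 2) := by
      have h4 : b ^ 2 = (b ^ 2 - 1) + 1 := by omega
      conv_rhs => rw [h4]
      exact (Nat.coprime_self_add_right).2 (Nat.coprime_one_right _)
    exact Nat.Coprime.coprime_dvd_right (Dvd.intro_left b (by ring)) h3
  have h3 : (T.biUnion (fun t => Tc b L e₁ (f₁ t) e₂ (f₂ t))).card =
      ∑ t ∈ T, (Tc b L e₁ (f₁ t) e₂ (f₂ t)).card := by
    apply Finset.card_biUnion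
    intro t ht t' ht' hne
    have ht : t ∈ T := ht
    have ht' : t' ∈ T := ht'
    rw [Function.onFun, Finset.disjoint_left]
    intro s hs hs'
    have g1 := Tc_mod b (by omega) L _ _ _ _ s hs
    have g2 := Tc_mod b (by omega) L _ _ _ _ s hs'
    have g3 := (hf t ht).2.2.2.2
    have g4 := (hf t' ht').2.2.2.2
    have g5 : b ^ L * t ≡ b ^ L * t' [MOD b ^ 2 - 1] :=
      ((g3.mul_left _).symm.trans (g1.symm.trans g2)).trans (g4.mul_left _)
    have g6 : t ≡ t' [MOD b ^ 2 - 1] := Nat.ModEq.cancel_left_of_coprime hcopb g5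
    have g7 : t % (b ^ 2 - 1) = t' % (b ^ 2 - 1) := g6
    rw [hT, mem_filter, mem_range] at ht ht'
    rw [Nat.mod_eq_of_lt ht.1, Nat.mod_eq_of_lt ht'.1] at g7
    exact hne g7
  have h4 := Finset.card_le_card h2
  rw [h3] at h4
  have h5 : ((∑ t ∈ T, (Tc b L e₁ (f₁ t) e₂ (f₂ t)).card : ℕ) : ℝ) ≤ (Td b L e₁ e₂).card := by
    exact_mod_cast h4
  refine le_trans ?_ h5
  push_cast
  refine le_trans ?_ (Finset.sum_le_sum h1)
  rw [Finset.sum_const, nsmul_eq_mul]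
  have h6 := card_T (b ^ 2 - 1) (by omega)
  rw [← hT] at h6
  calc (b : ℝ) ^ L / (3 * C4) =
        (((b ^ 2 - 1 : ℕ) : ℝ) / 3) * ((b : ℝ) ^ L / (C4 * ((b ^ 2 - 1 : ℕ) : ℝ))) := by
        field_simp
    _ ≤ _ := mul_le_mul_of_nonneg_right h6 (by positivity)

/-- the admissible leading digits -/
def EE (b Y : ℕ) : Finset ℕ := (range b).filter (fun x => Odd x ∧ Nat.Coprime x b ∧ x + 3 ≤ Y)

theorem EE_card : ∃ c6 : ℝ, 0 < c6 ∧ ∀ b : ℕ, 3 ≤ b → ∀ Y : ℕ, 4 ≤ Y → Y < 4 * b →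
    c6 * Y / Nat.log 2 b ≤ (EE b Y).card := by
  obtain ⟨X0, hX0⟩ := Pool.Agent.H96R2.EQP.Pr_lower
  refine ⟨1 / (96 + 16 * (X0 + 11)), by positivity, ?_⟩
  intro b hb Y hY4 hYb
  have hb0 : (0 : ℝ) < b := by exact_mod_cast (by omega : 0 < b)
  obtain ⟨β, hβ⟩ : ∃ β : ℕ, β = Nat.log 2 b := ⟨_, rfl⟩
  have hβ1 : 1 ≤ β := by
    rw [hβ]
    exact Nat.log_pos (by norm_num) (by omega)
  have hβr : (1 : ℝ) ≤ β := by exact_mod_cast hβ1
  rw [← hβ]
  have hlogb : Real.log b ≤ 1.4 * β := by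
    have h1 : b < 2 ^ (β + 1) := by rw [hβ]; exact Nat.lt_pow_succ_log_self (by norm_num) b
    have h3 : (b : ℝ) ≤ 2 ^ (β + 1) := by exact_mod_cast h1.le
    have h4 := Real.log_le_log hb0 h3
    rw [Real.log_pow] at h4
    push_cast at h4
    have hl2 : Real.log 2 < 0.6931471808 := Real.log_two_lt_d9
    nlinarith
  have hone : 1 ≤ (EE b Y).card := by
    rw [Nat.one_le_iff_ne_zero, ← Nat.pos_iff_ne_zero, Finset.card_pos]
    refine ⟨1, ?_⟩
    unfold EE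
    rw [mem_filter, mem_range]
    exact ⟨by omega, odd_one, Nat.coprime_one_left b, by omega⟩
  have honer : (1 : ℝ) ≤ (EE b Y).card := by exact_mod_cast hone
  have hYr : (0 : ℝ) < Y := by exact_mod_cast (by omega : 0 < Y)
  rw [div_le_iff₀ (by linarith), one_div_mul_eq_div, div_le_iff₀ (by positivity)]
  by_cases hbig : (Y : ℝ) ≤ 16 * (X0 + 11) * β
  · calc (Y : ℝ) ≤ 16 * (X0 + 11) * β := hbig
      _ ≤ 1 * β * (96 + 16 * (X0 + 11)) := by nlinarith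
      _ ≤ _ := by
          apply mul_le_mul_of_nonneg_right _ (by positivity)
          exact mul_le_mul_of_nonneg_right honer (by linarith)
  · push Not at hbig
    obtain ⟨X, hX⟩ : ∃ X, X = min ((Y - 3) / 2) (b / 2) := ⟨_, rfl⟩
    have hY176 : 176 ≤ Y := by
      have h1 : (176 : ℝ) ≤ 16 * (X0 + 11) * β := by
        have : (0 : ℝ) ≤ X0 := Nat.cast_nonneg _
        nlinarith
      have h2 : (176 : ℝ) < Y := by linarith
      exact_mod_cast h2.le
    have h16 : Y ≤ 16 * X := by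
      rw [hX]
      rcases min_choice ((Y - 3) / 2) (b / 2) with h | h
      · rw [h]; omega
      · rw [h]; omega
    have h16r : (Y : ℝ) ≤ 16 * X := by exact_mod_cast h16
    have hXbig : ((X0 : ℝ) + 11) * β < X := by nlinarith
    have hX0X : X0 ≤ X := by
      have h1 : (X0 : ℝ) ≤ X := by
        have : (0 : ℝ) ≤ X0 := Nat.cast_nonneg _
        nlinarith
      exact_mod_cast h1
    have hX11 : 11 ≤ X := by
      have h1 : (11 : ℝ) ≤ X := by
        have : (0 : ℝ) ≤ X0 := Nat.cast_nonneg _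
        nlinarith
      exact_mod_cast h1
    have hXY : 2 * X ≤ Y - 3 := by
      have : X ≤ (Y - 3) / 2 := by rw [hX]; exact min_le_left _ _
      omega
    have hXb : 2 * X ≤ b := by
      have : X ≤ b / 2 := by rw [hX]; exact min_le_right _ _
      omega
    have hXr : (1 : ℝ) < X := by exact_mod_cast (by omega : 1 < X)
    have hlX : 0 < Real.log X := Real.log_pos hXr
    have hp := hX0 X hX0X
    unfold Pool.Agent.H361R2.PP.Pr at hp
    obtain ⟨D, hD⟩ : ∃ D : Finset ℕ, D = ((Ico X (2 * X)).filter Nat.Prime).filter (fun p => p ∣ b) :=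
      ⟨_, rfl⟩
    have hDp : ∀ p ∈ D, p.Prime ∧ p ∣ b ∧ X ≤ p := by
      intro p hp
      rw [hD, mem_filter, mem_filter, mem_Ico] at hp
      exact ⟨hp.1.2, hp.2, hp.1.1.1⟩
    have hDX : X ^ D.card ≤ b := by
      have h1 : ∏ p ∈ D, p ∣ b := Finset.prod_primes_dvd b (fun p hp => (hDp p hp).1.prime)
        (fun p hp => (hDp p hp).2.1)
      have h2 : X ^ D.card ≤ ∏ p ∈ D, p := by
        rw [← Finset.prod_const]
        exact Finset.prod_le_prod' (fun p hp => (hDp p hp).2.2)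
      exact h2.trans (Nat.le_of_dvd (by omega) h1)
    have hDlog : (D.card : ℝ) * Real.log X ≤ Real.log b := by
      have h1 : (X : ℝ) ^ D.card ≤ b := by exact_mod_cast hDX
      have h2 := Real.log_le_log (by positivity) h1
      rw [Real.log_pow] at h2
      exact h2
    have hcard : ((Ico X (2 * X)).filter Nat.Prime).card ≤ (EE b Y).card + D.card := by
      rw [← Finset.card_filter_add_card_filter_not (s := (Ico X (2 * X)).filter Nat.Prime)
        (p := fun p => p ∣ b), ← hD, add_comm]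
      apply Nat.add_le_add_right
      apply Finset.card_le_card
      intro p hp
      rw [mem_filter, mem_filter, mem_Ico] at hp
      unfold EE
      rw [mem_filter, mem_range]
      refine ⟨by omega, hp.1.2.odd_of_ne_two (by omega), ?_, by omega⟩
      rw [hp.1.2.coprime_iff_not_dvd]
      exact hp.2
    have hcardr : (((Ico X (2 * X)).filter Nat.Prime).card : ℝ) ≤ (EE b Y).card + D.card := by
      exact_mod_cast hcard
    have h1 : (X : ℝ) / (2 * Real.log X) ≤ (EE b Y).card + D.card := hp.trans hcardr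
    have h2 : (D.card : ℝ) ≤ Real.log b / Real.log X := by
      rw [le_div_iff₀ hlX]; exact hDlog
    have h3 : Real.log b / Real.log X ≤ X / (4 * Real.log X) := by
      rw [div_le_div_iff₀ hlX (by positivity)]
      have h4 : 4 * Real.log b ≤ X := by
        have : (0 : ℝ) ≤ X0 := Nat.cast_nonneg _
        nlinarith
      nlinarith
    have h4 : (X : ℝ) / (2 * Real.log X) = X / (4 * Real.log X) + X / (4 * Real.log X) := by
      field_simp; norm_num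
    have h5 : (X : ℝ) / (4 * Real.log X) ≤ (EE b Y).card := by linarith
    have h6 : Real.log X ≤ 1.4 * β := by
      refine le_trans (Real.log_le_log (by linarith) ?_) hlogb
      exact_mod_cast (by omega : X ≤ b)
    have h7 : (X : ℝ) / (6 * β) ≤ X / (4 * Real.log X) := by
      apply div_le_div_of_nonneg_left (by linarith) (by positivity)
      linarith
    have h8 : (X : ℝ) ≤ (EE b Y).card * (6 * β) := by
      have := h7.trans h5
      rwa [div_le_iff₀ (by positivity)] at this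
    calc (Y : ℝ) ≤ 16 * X := h16r
      _ ≤ 16 * ((EE b Y).card * (6 * β)) := by linarith
      _ ≤ (EE b Y).card * β * (96 + 16 * (X0 + 11)) := by
          have : (0 : ℝ) ≤ (EE b Y).card * β * (16 * (X0 + 11)) := by positivity
          nlinarith

/-- a sum of two reversed primes -/
theorem Td_sum (b : ℕ) (hb : 2 ≤ b) (L e₁ e₂ : ℕ) (hL : 1 ≤ L) (h₁ : e₁ < b) (h₂ : e₂ < b)
    (s : ℕ) (hs : s ∈ Td b L e₁ e₂) :
    IsSum b 2 ((e₁ + e₂) * b ^ L + s) ∧ s < 2 * b ^ L := by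
  unfold Td at hs
  rw [mem_image] at hs
  obtain ⟨⟨x, y⟩, hxy, rfl⟩ := hs
  rw [mem_product] at hxy
  obtain ⟨hx, hy⟩ := hxy
  unfold Ad at hx hy
  simp only at hx hy ⊢
  rw [mem_filter, mem_Ico] at hx hy
  have key : ∀ e₀ n : ℕ, e₀ < b → b ^ (L - 1) ≤ n → n < b ^ L →
      rev b (e₀ + b * n) = e₀ * b ^ L + rv b L n := by
    intro e₀ n he hn1 hn2
    have h3 : b ^ L ≤ e₀ + b * n := by
      have h4 : b ^ L = b * b ^ (L - 1) := by rw [← pow_succ']; congr 1; omega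
      have h5 : b * b ^ (L - 1) ≤ b * n := Nat.mul_le_mul_left _ hn1
      omega
    have h4 : e₀ + b * n < b ^ (L + 1) := by
      calc e₀ + b * n < b + b * n := by omega
        _ = b * (n + 1) := by ring
        _ ≤ b * b ^ L := Nat.mul_le_mul_left _ hn2
        _ = b ^ (L + 1) := by ring
    rw [(rev_eq b hb L _ h3 h4).1, rv, Nat.add_mul_mod_self_left, Nat.mod_eq_of_lt he,
      Nat.add_mul_div_left _ _ (by omega), Nat.div_eq_of_lt he, zero_add]
  have hr1 := rv_lt b (by omega) L x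
  have hr2 := rv_lt b (by omega) L y
  refine ⟨?_, by omega⟩
  have h5 : (e₁ + e₂) * b ^ L + (rv b L x + rv b L y) =
      rev b (e₁ + b * x) + rev b (e₂ + b * y) := by
    rw [key e₁ x h₁ hx.1.1 hx.1.2, key e₂ y h₂ hy.1.1 hy.1.2]
    ring
  rw [h5]
  refine ⟨{e₁ + b * x, e₂ + b * y}, by simp, ?_, by simp⟩
  intro z hz
  simp only [Multiset.insert_eq_cons, Multiset.mem_cons, Multiset.mem_singleton] at hz
  rcases hz with rfl | rfl
  · exact hx.2
  · exact hy.2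

/-- the density -/
theorem dens : ∃ c7 : ℝ, 0 < c7 ∧ ∀ b : ℕ, 3 ≤ b → 2 * (4 + Real.log b) ^ 2 ≤ b →
    ∃ n0 : ℕ, ∀ n : ℕ, n0 ≤ n → c7 / Nat.log 2 b * n ≤ cnt (IsSum b 2) n := by
  classical
  obtain ⟨C5, hC5, hdig⟩ := digit
  obtain ⟨c6, hc6, hEE⟩ := EE_card
  refine ⟨c6 / (2 * C5), by positivity, ?_⟩
  intro b hb hlog
  have hb0 : (0 : ℝ) < b := by exact_mod_cast (by omega : 0 < b)
  obtain ⟨β, hβ⟩ : ∃ β : ℕ, β = Nat.log 2 b := ⟨_, rfl⟩
  have hβ1 : 1 ≤ β := by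
    rw [hβ]
    exact Nat.log_pos (by norm_num) (by omega)
  have hβr : (0 : ℝ) < β := by exact_mod_cast hβ1
  rw [← hβ]
  obtain ⟨F, hF⟩ : ∃ F : Finset ℕ, F = (range b).filter (fun x => Odd x ∧ Nat.Coprime x b) :=
    ⟨_, rfl⟩
  have hex : ∀ x : ℕ, x ∈ F → ∃ L0 : ℕ, 2 ≤ L0 ∧ ∀ L : ℕ, L0 ≤ L →
      (b : ℝ) ^ L / C5 ≤ (Td b L 1 x).card := by
    intro x hx
    rw [hF, mem_filter, mem_range] at hx
    exact hdig b hb hlog 1 x (by omega) (Nat.coprime_one_left b) odd_one hx.1 hx.2.2 hx.2.1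
  choose! LL hLL using hex
  refine ⟨4 * b ^ (F.sup LL + 2), ?_⟩
  intro n hn
  obtain ⟨L, hL⟩ : ∃ L, L = Nat.log b (n / 4) := ⟨_, rfl⟩
  have hn4 : b ^ (F.sup LL + 2) ≤ n / 4 := by
    rw [Nat.le_div_iff_mul_le (by norm_num)]
    linarith
  have hn0 : n / 4 ≠ 0 := by
    have : 0 < b ^ (F.sup LL + 2) := by positivity
    omega
  have hL1 : F.sup LL + 2 ≤ L := by
    rw [hL]
    exact (Nat.le_log_iff_pow_le (by omega) hn0).2 hn4
  have hL2 : b ^ L ≤ n / 4 := by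
    rw [hL]; exact Nat.pow_log_le_self _ hn0
  have hL3 : n / 4 < b ^ (L + 1) := by
    rw [hL]; exact Nat.lt_pow_succ_log_self (by omega) _
  have hM : 0 < b ^ L := by positivity
  obtain ⟨Y, hY⟩ : ∃ Y, Y = n / b ^ L := ⟨_, rfl⟩
  have hY4 : 4 ≤ Y := by
    rw [hY, Nat.le_div_iff_mul_le hM]
    omega
  have hYb : Y < 4 * b := by
    rw [hY, Nat.div_lt_iff_lt_mul hM]
    have : b ^ (L + 1) = b * b ^ L := by ring
    rw [this] at hL3
    have h2 : 4 * b * b ^ L = 4 * (b * b ^ L) := by ring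
    rw [h2]
    omega
  have hYn : Y * b ^ L ≤ n := by rw [hY]; exact Nat.div_mul_le_self _ _
  have hnY : n < (Y + 1) * b ^ L := by
    have := Nat.lt_mul_div_succ n hM
    rw [← hY] at this
    linarith
  have h1 := hEE b hb Y hY4 hYb
  rw [← hβ] at h1
  -- the sets
  obtain ⟨G, hG⟩ : ∃ G : ℕ → Finset ℕ, G = fun x => (Td b L 1 x).image (fun s => (1 + x) * b ^ L + s) :=
    ⟨_, rfl⟩
  have hEF : ∀ x ∈ EE b Y, x ∈ F ∧ x + 3 ≤ Y ∧ x < b ∧ Odd x := by
    intro x hx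
    unfold EE at hx
    rw [mem_filter] at hx
    rw [hF, mem_filter]
    exact ⟨⟨hx.1, hx.2.1, hx.2.2.1⟩, hx.2.2.2, mem_range.1 hx.1, hx.2.1⟩
  have hGcard : ∀ x ∈ EE b Y, (b : ℝ) ^ L / C5 ≤ ((G x).card : ℝ) := by
    intro x hx
    rw [hG]
    simp only
    rw [Finset.card_image_of_injective _ (fun y z h => by simpa using h)]
    apply (hLL x (hEF x hx).1).2 L
    have := Finset.le_sup (f := LL) (hEF x hx).1
    omega
  have hGmem : ∀ x ∈ EE b Y, ∀ y ∈ G x, IsSum b 2 y ∧ (1 + x) * b ^ L ≤ y ∧ y < (3 + x) * b ^ L := by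
    intro x hx y hy
    rw [hG] at hy
    simp only at hy
    rw [mem_image] at hy
    obtain ⟨s, hs, rfl⟩ := hy
    obtain ⟨t1, t2⟩ := Td_sum b (by omega) L 1 x (by omega) (by omega) (hEF x hx).2.2.1 s hs
    refine ⟨t1, by omega, ?_⟩
    have : (3 + x) * b ^ L = (1 + x) * b ^ L + 2 * b ^ L := by ring
    omega
  have hsub : (EE b Y).biUnion G ⊆ (Icc 1 n).filter (IsSum b 2) := by
    intro y hy
    rw [mem_biUnion] at hy
    obtain ⟨x, hx, hy⟩ := hy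
    obtain ⟨t1, t2, t3⟩ := hGmem x hx y hy
    rw [mem_filter, mem_Icc]
    refine ⟨⟨?_, ?_⟩, t1⟩
    · have : 0 < (1 + x) * b ^ L := by positivity
      omega
    · have h4 : (3 + x) * b ^ L ≤ Y * b ^ L := Nat.mul_le_mul_right _ (by
        have := (hEF x hx).2.1
        omega)
      omega
  have hdisj : ((EE b Y).biUnion G).card = ∑ x ∈ EE b Y, (G x).card := by
    apply Finset.card_biUnion
    intro x hx x' hx' hne
    have hx : x ∈ EE b Y := hx
    have hx' : x' ∈ EE b Y := hx'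
    rw [Function.onFun, Finset.disjoint_left]
    intro y hy hy'
    obtain ⟨_, t2, t3⟩ := hGmem x hx y hy
    obtain ⟨_, t2', t3'⟩ := hGmem x' hx' y hy'
    have ho := (hEF x hx).2.2.2
    have ho' := (hEF x' hx').2.2.2
    rw [Nat.odd_iff] at ho ho'
    rcases Nat.lt_or_gt_of_ne hne with h | h
    · have h5 : (3 + x) * b ^ L ≤ (1 + x') * b ^ L := Nat.mul_le_mul_right _ (by omega)
      omega
    · have h5 : (3 + x') * b ^ L ≤ (1 + x) * b ^ L := Nat.mul_le_mul_right _ (by omega)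
      omega
  have h4 := Finset.card_le_card hsub
  rw [hdisj] at h4
  have h5 : ((∑ x ∈ EE b Y, (G x).card : ℕ) : ℝ) ≤ cnt (IsSum b 2) n := by
    unfold cnt
    exact_mod_cast h4
  refine le_trans ?_ h5
  push_cast
  refine le_trans ?_ (Finset.sum_le_sum hGcard)
  rw [Finset.sum_const, nsmul_eq_mul]
  have h6 : (n : ℝ) ≤ 2 * Y * (b : ℝ) ^ L := by
    have h7 : (n : ℝ) < (Y + 1) * (b : ℝ) ^ L := by exact_mod_cast hnY
    have h8 : (Y : ℝ) + 1 ≤ 2 * Y := by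
      have : (4 : ℝ) ≤ Y := by exact_mod_cast hY4
      linarith
    have h9 : (0 : ℝ) < (b : ℝ) ^ L := by positivity
    nlinarith
  calc c6 / (2 * C5) / β * n ≤ c6 / (2 * C5) / β * (2 * Y * (b : ℝ) ^ L) :=
        mul_le_mul_of_nonneg_left h6 (by positivity)
    _ = (c6 * Y / β) * ((b : ℝ) ^ L / C5) := by field_simp
    _ ≤ _ := mul_le_mul_of_nonneg_right h1 (by positivity)

end Pool.Agent.X35.RQ
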