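import Pool.Agent.X35.RQ.Prod
import Pool.Agent.X35.RP.Err

/-!
# The error term, uniformly
-/

set_option autoImplicit false

open Finset Filter

namespace Pool.Agent.X35.RQ

open Pool.Agent.X35.RP (H G G_pos G_add_int G_le Red Red_perm sum_frac' harm_dvd norm_H e phi rv)

/-- the sum over the reduced fractions with denominator `q` -/
noncomputable def XS (b L : ℕ) (t α : ℝ) (q : ℕ) : ℝ := ∑ a ∈ Red q, ‖H b L ((a : ℝ) / q + t) α‖

theorem XS_nonneg (b L : ℕ) (t α : ℝ) (q : ℕ) : 0 ≤ XS b L t α q :=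
  Finset.sum_nonneg fun _ _ => norm_nonneg _

/-- coprimality to `b ^ 2` and to `b ^ 2 - 1` -/
def Cp (b q : ℕ) : Prop := Nat.Coprime q (b ^ 2) ∧ Nat.Coprime q (b ^ 2 - 1)

instance (b : ℕ) : DecidablePred (Cp b) := fun _ => inferInstanceAs (Decidable (_ ∧ _))

theorem blocksQ (b : ℕ) (hb : 3 ≤ b) (hlog : 2 * (4 + Real.log b) ^ 2 ≤ b) (L : ℕ) (t α : ℝ)
    (i0 n : ℕ) (h : i0 ≤ n) (hl : 2 * n ≤ L) :
    ∑ q ∈ (Ioc (b ^ i0) (b ^ n)).filter (Cp b), (1 / (q : ℝ)) * XS b L t α q ≤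
      b ^ L * (b * ((1 / 2 : ℝ) ^ i0 - (1 / 2 : ℝ) ^ n)) := by
  have hb0 : (0 : ℝ) < b := by exact_mod_cast (by omega : 0 < b)
  induction n, h using Nat.le_induction with
  | base => simp
  | succ n hn ih =>
    have ih' := ih (by omega)
    have h1 : ∀ f : ℕ → ℝ, ∑ q ∈ (Ioc (b ^ i0) (b ^ (n + 1))).filter (Cp b), f q =
        ∑ q ∈ (Ioc (b ^ i0) (b ^ n)).filter (Cp b), f q +
        ∑ q ∈ (Ioc (b ^ n) (b ^ (n + 1))).filter (Cp b), f q := by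
      intro f
      rw [sum_filter, sum_filter, sum_filter]
      symm
      exact Finset.sum_Ioc_consecutive _ (Nat.pow_le_pow_right (by omega) hn)
        (Nat.pow_le_pow_right (by omega) (by omega))
    rw [h1]
    have h2 : ∑ q ∈ (Ioc (b ^ n) (b ^ (n + 1))).filter (Cp b), (1 / (q : ℝ)) * XS b L t α q ≤
        1 / (b : ℝ) ^ n * (b ^ L * (4 + Real.log b) ^ (2 * (n + 1))) := by
      have h3 : ∀ q ∈ (Ioc (b ^ n) (b ^ (n + 1))).filter (Cp b), (1 / (q : ℝ)) * XS b L t α q ≤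
          1 / (b : ℝ) ^ n * XS b L t α q := by
        intro q hq
        rw [mem_filter, mem_Ioc] at hq
        apply mul_le_mul_of_nonneg_right _ (XS_nonneg _ _ _ _ _)
        apply one_div_le_one_div_of_le (by positivity)
        exact_mod_cast hq.1.1.le
      refine (Finset.sum_le_sum h3).trans ?_
      rw [← Finset.mul_sum]
      apply mul_le_mul_of_nonneg_left _ (by positivity)
      exact avgH b hb (n + 1) L hl α t _ (by
        intro q hq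
        rw [mem_filter, mem_Ioc] at hq
        exact ⟨lt_of_le_of_lt (Nat.zero_le _) hq.1.1, hq.1.2⟩)
    have h5 : (4 + Real.log b) ^ (2 * (n + 1)) ≤ ((b : ℝ) / 2) ^ (n + 1) := by
      rw [pow_mul]
      apply pow_le_pow_left₀ (by positivity)
      linarith
    have h6 : 1 / (b : ℝ) ^ n * (b ^ L * (4 + Real.log b) ^ (2 * (n + 1))) ≤
        b ^ L * (b * (1 / 2 : ℝ) ^ (n + 1)) := by
      calc 1 / (b : ℝ) ^ n * (b ^ L * (4 + Real.log b) ^ (2 * (n + 1))) ≤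
            1 / (b : ℝ) ^ n * (b ^ L * ((b : ℝ) / 2) ^ (n + 1)) := by
            apply mul_le_mul_of_nonneg_left _ (by positivity)
            exact mul_le_mul_of_nonneg_left h5 (by positivity)
        _ = b ^ L * (b * (1 / 2 : ℝ) ^ (n + 1)) := by
            rw [div_pow, one_div_pow, pow_succ (b : ℝ) n]
            field_simp
    have h7 : (1 / 2 : ℝ) ^ n = 2 * (1 / 2 : ℝ) ^ (n + 1) := by rw [pow_succ]; ring
    have h8 := h2.trans h6
    have h9 : (b : ℝ) ^ L * (b * ((1 / 2 : ℝ) ^ i0 - (1 / 2 : ℝ) ^ n)) +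
        b ^ L * (b * (1 / 2 : ℝ) ^ (n + 1)) =
        b ^ L * (b * ((1 / 2 : ℝ) ^ i0 - (1 / 2 : ℝ) ^ (n + 1))) := by
      rw [h7]; ring
    linarith

/-- the pointwise bound -/
theorem H_point (b : ℕ) (hb : 2 ≤ b) (L l : ℕ) (hl : 2 * l ≤ L) (k : ℤ) (α : ℝ) (q a w : ℕ)
    (hq0 : 0 < q) (hq : ¬ q ∣ a) (hcop : Cp b q) (hw : q ≤ (b ^ 2) ^ w) :
    ‖H b L ((a : ℝ) / q + k / ((b ^ 2 - 1 : ℕ) : ℝ)) α‖ ≤
      b ^ L * Real.exp (-(1 / b ^ 8 * (l / w : ℕ))) := by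
  have hb0 : (0 : ℝ) < b := by exact_mod_cast (by omega : 0 < b)
  have hb4 : 4 ≤ b ^ 2 := by nlinarith
  have hBm : (0 : ℝ) < ((b ^ 2 - 1 : ℕ) : ℝ) := by exact_mod_cast (by omega : 0 < b ^ 2 - 1)
  refine (H_sup b hb L l hl _ α).trans ?_
  apply mul_le_mul_of_nonneg_left _ (by positivity)
  have h1 : (((b ^ 2 : ℕ) : ℝ) - 1) * ((a : ℝ) / q + k / ((b ^ 2 - 1 : ℕ) : ℝ)) =
      (((b ^ 2 - 1) * a : ℕ) : ℝ) / q + k := by
    have h2 : ((b ^ 2 : ℕ) : ℝ) - 1 = ((b ^ 2 - 1 : ℕ) : ℝ) := by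
      rw [Nat.cast_sub (by omega)]; norm_num
    rw [h2, Nat.cast_mul]
    field_simp
  rw [h1, G_add_int]
  have h2 := G_le (1 / (b : ℝ) ^ 4) (by positivity) (b ^ 2) (by omega) q ((b ^ 2 - 1) * a) w l hq0
    (by
      intro h
      exact hq (hcop.2.dvd_of_dvd_mul_left h)) hcop.1 hw
  refine h2.trans (le_of_eq ?_)
  congr 3
  push_cast
  field_simp

theorem smallQ (b : ℕ) (hb : 2 ≤ b) (L l : ℕ) (hl : 2 * l ≤ L) (k : ℤ) (α : ℝ) (j0 : ℕ) :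
    ∑ q ∈ (Ioc 1 (b ^ (2 * j0))).filter (Cp b),
      (1 / (q : ℝ)) * XS b L (k / ((b ^ 2 - 1 : ℕ) : ℝ)) α q ≤
      b ^ L * ((b ^ 2) ^ j0 * Real.exp (-(1 / b ^ 8 * (l / j0 : ℕ)))) := by
  have hb0 : (0 : ℝ) < b := by exact_mod_cast (by omega : 0 < b)
  have h1 : ∀ q ∈ (Ioc 1 (b ^ (2 * j0))).filter (Cp b),
      (1 / (q : ℝ)) * XS b L (k / ((b ^ 2 - 1 : ℕ) : ℝ)) α q ≤
      b ^ L * Real.exp (-(1 / b ^ 8 * (l / j0 : ℕ))) := by
    intro q hq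
    rw [mem_filter, mem_Ioc] at hq
    have hq0 : 0 < q := by omega
    have hq0' : (0 : ℝ) < q := by exact_mod_cast hq0
    have h2 : XS b L (k / ((b ^ 2 - 1 : ℕ) : ℝ)) α q ≤
        q * (b ^ L * Real.exp (-(1 / b ^ 8 * (l / j0 : ℕ)))) := by
      unfold XS
      have h3 : ∀ a ∈ Red q, ‖H b L ((a : ℝ) / q + k / ((b ^ 2 - 1 : ℕ) : ℝ)) α‖ ≤
          b ^ L * Real.exp (-(1 / b ^ 8 * (l / j0 : ℕ))) := by
        intro a ha
        unfold Red at ha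
        rw [mem_filter, mem_range] at ha
        apply H_point b hb L l hl k α q a j0 hq0 _ hq.2
        · rw [← pow_mul]; exact hq.1.2
        · intro h4
          have h5 : q = 1 := Nat.eq_one_of_dvd_coprimes ha.2 h4 (dvd_refl q)
          omega
      refine (Finset.sum_le_sum h3).trans ?_
      rw [sum_const, nsmul_eq_mul]
      apply mul_le_mul_of_nonneg_right _ (by positivity)
      have : (Red q).card ≤ q := by
        unfold Red
        refine (Finset.card_filter_le _ _).trans ?_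
        rw [card_range]
      exact_mod_cast this
    calc (1 / (q : ℝ)) * XS b L (k / ((b ^ 2 - 1 : ℕ) : ℝ)) α q ≤
          (1 / (q : ℝ)) * (q * (b ^ L * Real.exp (-(1 / b ^ 8 * (l / j0 : ℕ))))) :=
          mul_le_mul_of_nonneg_left h2 (by positivity)
      _ = _ := by field_simp
  refine (Finset.sum_le_sum h1).trans ?_
  rw [sum_const, nsmul_eq_mul]
  have h2 : (((Ioc 1 (b ^ (2 * j0))).filter (Cp b)).card : ℝ) ≤ (b ^ 2) ^ j0 := by
    have : ((Ioc 1 (b ^ (2 * j0))).filter (Cp b)).card ≤ b ^ (2 * j0) := by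
      refine (Finset.card_filter_le _ _).trans ?_
      rw [Nat.card_Ioc]
      omega
    have h3 : (((Ioc 1 (b ^ (2 * j0))).filter (Cp b)).card : ℝ) ≤ ((b ^ (2 * j0) : ℕ) : ℝ) := by
      exact_mod_cast this
    refine h3.trans (le_of_eq ?_)
    push_cast
    rw [pow_mul]
  calc _ ≤ ((b : ℝ) ^ 2) ^ j0 * (b ^ L * Real.exp (-(1 / b ^ 8 * (l / j0 : ℕ)))) :=
        mul_le_mul_of_nonneg_right h2 (by positivity)
    _ = _ := by ring

theorem totalQ (b : ℕ) (hb : 3 ≤ b) (hlog : 2 * (4 + Real.log b) ^ 2 ≤ b) (L l : ℕ)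
    (hl : 2 * l ≤ L) (k : ℤ) (α : ℝ) (j0 I : ℕ) (hI : 2 * I ≤ L) :
    ∑ q ∈ (Ioc 1 (b ^ I)).filter (Cp b),
      (1 / (q : ℝ)) * XS b L (k / ((b ^ 2 - 1 : ℕ) : ℝ)) α q ≤
      b ^ L * (b * ((b ^ 2) ^ j0 * Real.exp (-(1 / b ^ 8 * (l / j0 : ℕ))) + (1 / 2 : ℝ) ^ j0)) := by
  have hb0 : (0 : ℝ) < b := by exact_mod_cast (by omega : 0 < b)
  have hb1 : (1 : ℝ) ≤ b := by exact_mod_cast (by omega : 1 ≤ b)
  have hs := smallQ b (by omega) L l hl k α j0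
  have hnn : ∀ q : ℕ, 0 ≤ (1 / (q : ℝ)) * XS b L (k / ((b ^ 2 - 1 : ℕ) : ℝ)) α q := fun q =>
    mul_nonneg (by positivity) (XS_nonneg _ _ _ _ _)
  have hbL : (0 : ℝ) < b ^ L := by positivity
  have hE : 0 < ((b : ℝ) ^ 2) ^ j0 * Real.exp (-(1 / b ^ 8 * (l / j0 : ℕ))) := by positivity
  have hs2 : (b : ℝ) ^ L * ((b ^ 2) ^ j0 * Real.exp (-(1 / b ^ 8 * (l / j0 : ℕ)))) ≤
      b ^ L * (b * ((b ^ 2) ^ j0 * Real.exp (-(1 / b ^ 8 * (l / j0 : ℕ))))) := by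
    apply mul_le_mul_of_nonneg_left _ hbL.le
    exact le_mul_of_one_le_left hE.le hb1
  have hp : 0 ≤ (b : ℝ) ^ L * (b * (1 / 2 : ℝ) ^ j0) := by positivity
  have hsplit : (b : ℝ) ^ L * (b * ((b ^ 2) ^ j0 * Real.exp (-(1 / b ^ 8 * (l / j0 : ℕ))) +
      (1 / 2 : ℝ) ^ j0)) = b ^ L * (b * ((b ^ 2) ^ j0 * Real.exp (-(1 / b ^ 8 * (l / j0 : ℕ))))) +
      b ^ L * (b * (1 / 2 : ℝ) ^ j0) := by ring
  rw [hsplit]
  rcases le_total I (2 * j0) with h | h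
  · have h1 : ∑ q ∈ (Ioc 1 (b ^ I)).filter (Cp b),
        (1 / (q : ℝ)) * XS b L (k / ((b ^ 2 - 1 : ℕ) : ℝ)) α q ≤
        ∑ q ∈ (Ioc 1 (b ^ (2 * j0))).filter (Cp b),
          (1 / (q : ℝ)) * XS b L (k / ((b ^ 2 - 1 : ℕ) : ℝ)) α q := by
      apply Finset.sum_le_sum_of_subset_of_nonneg
      · apply Finset.filter_subset_filter
        apply Finset.Ioc_subset_Ioc_right
        exact Nat.pow_le_pow_right (by omega) h
      · intro q _ _
        exact hnn q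
    linarith
  · have hbk := blocksQ b hb hlog L (k / ((b ^ 2 - 1 : ℕ) : ℝ)) α (2 * j0) I h hI
    have h1 : ∑ q ∈ (Ioc 1 (b ^ I)).filter (Cp b),
        (1 / (q : ℝ)) * XS b L (k / ((b ^ 2 - 1 : ℕ) : ℝ)) α q =
        ∑ q ∈ (Ioc 1 (b ^ (2 * j0))).filter (Cp b),
          (1 / (q : ℝ)) * XS b L (k / ((b ^ 2 - 1 : ℕ) : ℝ)) α q +
        ∑ q ∈ (Ioc (b ^ (2 * j0)) (b ^ I)).filter (Cp b),
          (1 / (q : ℝ)) * XS b L (k / ((b ^ 2 - 1 : ℕ) : ℝ)) α q := by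
      rw [sum_filter, sum_filter, sum_filter]
      symm
      exact Finset.sum_Ioc_consecutive _ (Nat.one_le_pow _ _ (by omega))
        (Nat.pow_le_pow_right (by omega) h)
    rw [h1]
    have h2 : (b : ℝ) ^ L * (b * ((1 / 2 : ℝ) ^ (2 * j0) - (1 / 2 : ℝ) ^ I)) ≤
        b ^ L * (b * (1 / 2 : ℝ) ^ j0) := by
      apply mul_le_mul_of_nonneg_left _ hbL.le
      apply mul_le_mul_of_nonneg_left _ hb0.le
      have h3 : (1 / 2 : ℝ) ^ (2 * j0) ≤ (1 / 2 : ℝ) ^ j0 :=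
        pow_le_pow_of_le_one (by norm_num) (by norm_num) (by omega)
      have h4 : (0 : ℝ) ≤ (1 / 2 : ℝ) ^ I := by positivity
      linarith
    linarith

/-- the choice of the parameter -/
theorem paramA (c : ℝ) (hc : 0 < c) (B : ℕ) (A : ℕ) : ∃ L0 : ℕ, 2 ≤ L0 ∧ ∀ l : ℕ, L0 ≤ l →
    ∃ j0 : ℕ, (B : ℝ) ^ j0 * Real.exp (-(c * (l / j0 : ℕ))) + (1 / 2 : ℝ) ^ j0 ≤ 1 / (l : ℝ) ^ A := by
  have hlog := Real.tendsto_log_atTop.comp (tendsto_natCast_atTop_atTop (R := ℝ))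
  have e2 : ∀ᶠ l : ℕ in atTop, (10 : ℝ) ≤ Real.log l := hlog.eventually_ge_atTop 10
  obtain ⟨E, hE⟩ : ∃ E : ℕ, E = 2 * B * (A + 1) + (A + 1) := ⟨_, rfl⟩
  obtain ⟨C1, hC1⟩ : ∃ C1 : ℝ, C1 = E / c + 1 := ⟨_, rfl⟩
  have hC1pos : 1 ≤ C1 := by
    rw [hC1]
    have : 0 ≤ (E : ℝ) / c := by positivity
    linarith
  obtain ⟨K, hK⟩ : ∃ K : ℝ, K = 2 * (A + 1) * (C1 + 1) := ⟨_, rfl⟩
  have hKpos : 0 < K := by rw [hK]; positivity
  have e3 : ∀ᶠ l : ℕ in atTop, K * Real.log l ^ 2 ≤ l := by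
    have h1 := (Real.isLittleO_pow_log_id_atTop (n := 2)).comp_tendsto
      (tendsto_natCast_atTop_atTop (R := ℝ))
    have h2 := h1.bound (show (0 : ℝ) < 1 / K by positivity)
    filter_upwards [h2] with l hl
    simp only [Function.comp, id] at hl
    rw [Real.norm_of_nonneg (by positivity), Real.norm_of_nonneg (by positivity)] at hl
    have h3 : K * Real.log l ^ 2 ≤ K * (1 / K * l) := mul_le_mul_of_nonneg_left hl hKpos.le
    have h4 : K * (1 / K * (l : ℝ)) = l := by field_simp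
    linarith
  obtain ⟨L0, hL0⟩ := (e2.and e3).exists_forall_of_atTop
  refine ⟨max L0 2, by omega, ?_⟩
  intro l hl
  obtain ⟨g2, g3⟩ := hL0 l (le_trans (le_max_left _ _) hl)
  have hl2 : 2 ≤ l := le_trans (le_max_right _ _) hl
  have hl0 : (0 : ℝ) < l := by exact_mod_cast (by omega : 0 < l)
  have hl1 : (1 : ℝ) ≤ l := by exact_mod_cast (by omega : 1 ≤ l)
  have hl2' : (2 : ℝ) ≤ l := by exact_mod_cast hl2
  obtain ⟨s, hs⟩ : ∃ s, s = Nat.log 2 l := ⟨_, rfl⟩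
  have hs1 : 2 ^ s ≤ l := by rw [hs]; exact Nat.pow_log_le_self 2 (by omega)
  have hs2 : l < 2 ^ (s + 1) := by rw [hs]; exact Nat.lt_pow_succ_log_self (by norm_num) l
  have hs1' : (2 : ℝ) ^ s ≤ l := by exact_mod_cast hs1
  have hs2' : (l : ℝ) < 2 ^ (s + 1) := by exact_mod_cast hs2
  have hs3 : (2 : ℝ) ^ (s + 1) ≤ l ^ 2 := by rw [pow_succ]; nlinarith
  obtain ⟨Λ, hΛ⟩ : ∃ Λ : ℝ, Λ = Real.log l := ⟨_, rfl⟩
  rw [← hΛ] at g2 g3
  have hlog2 : (0.6931471803 : ℝ) < Real.log 2 := Real.log_two_gt_d9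
  have hsl : (s : ℝ) * Real.log 2 ≤ Λ := by
    have := Real.log_le_log (by positivity) hs1'
    rw [Real.log_pow] at this
    rw [hΛ]; exact this
  have hs4 : (s : ℝ) + 1 ≤ 2 * Λ := by nlinarith
  refine ⟨(A + 1) * (s + 1), ?_⟩
  have hj0 : 0 < (A + 1) * (s + 1) := by positivity
  -- the floor
  have hfl : C1 * Λ ≤ ((l / ((A + 1) * (s + 1)) : ℕ) : ℝ) := by
    have h1 : (l : ℝ) / ((A + 1) * (s + 1)) < ((l / ((A + 1) * (s + 1)) : ℕ) : ℝ) + 1 := by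
      have h2 := Nat.lt_mul_div_succ l hj0
      rw [div_lt_iff₀ (by positivity)]
      have h3 : (l : ℝ) < (((A + 1) * (s + 1) * (l / ((A + 1) * (s + 1)) + 1) : ℕ) : ℝ) := by
        exact_mod_cast h2
      push_cast at h3
      linarith
    have h2 : (C1 + 1) * Λ ≤ (l : ℝ) / ((A + 1) * (s + 1)) := by
      rw [le_div_iff₀ (by positivity)]
      calc (C1 + 1) * Λ * (((A : ℝ) + 1) * (s + 1)) ≤ (C1 + 1) * Λ * (((A : ℝ) + 1) * (2 * Λ)) := by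
            apply mul_le_mul_of_nonneg_left _ (by positivity)
            exact mul_le_mul_of_nonneg_left hs4 (by positivity)
        _ = K * Λ ^ 2 := by rw [hK]; ring
        _ ≤ l := g3
    nlinarith
  have hexp : Real.exp (-(c * ((l / ((A + 1) * (s + 1)) : ℕ) : ℝ))) ≤ Real.exp (-(E * Λ)) := by
    apply Real.exp_le_exp.2
    have h1 := mul_le_mul_of_nonneg_left hfl hc.le
    have h2 : E * Λ ≤ c * (C1 * Λ) := by
      rw [hC1]
      have h3 : c * (((E : ℝ) / c + 1) * Λ) = E * Λ + c * Λ := by field_simp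
      rw [h3]
      have : 0 ≤ c * Λ := by positivity
      linarith
    linarith
  have hexp2 : Real.exp (-(E * Λ)) = ((l : ℝ) ^ E)⁻¹ := by
    rw [Real.exp_neg, hΛ, Real.exp_nat_mul, Real.exp_log hl0]
  have hBp : (B : ℝ) ^ ((A + 1) * (s + 1)) ≤ (l : ℝ) ^ (2 * B * (A + 1)) := by
    have h1 : B ≤ 2 ^ B := Nat.lt_two_pow_self.le
    have h2 : (B : ℝ) ≤ 2 ^ B := by exact_mod_cast h1
    calc (B : ℝ) ^ ((A + 1) * (s + 1)) ≤ (2 ^ B) ^ ((A + 1) * (s + 1)) :=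
          pow_le_pow_left₀ (Nat.cast_nonneg _) h2 _
      _ = (2 ^ (s + 1)) ^ (B * (A + 1)) := by rw [← pow_mul, ← pow_mul]; congr 1; ring
      _ ≤ (l ^ 2) ^ (B * (A + 1)) := pow_le_pow_left₀ (by positivity) hs3 _
      _ = l ^ (2 * B * (A + 1)) := by rw [← pow_mul]; congr 1; ring
  have hlA : (2 : ℝ) * (1 / (l : ℝ) ^ (A + 1)) ≤ 1 / (l : ℝ) ^ A := by
    rw [pow_succ, mul_one_div, div_le_div_iff₀ (by positivity) (by positivity), one_mul, mul_comm]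
    exact mul_le_mul_of_nonneg_left hl2' (by positivity)
  have hfirst : (B : ℝ) ^ ((A + 1) * (s + 1)) *
      Real.exp (-(c * ((l / ((A + 1) * (s + 1)) : ℕ) : ℝ))) ≤ 1 / (l : ℝ) ^ (A + 1) := by
    calc _ ≤ (l : ℝ) ^ (2 * B * (A + 1)) * ((l : ℝ) ^ E)⁻¹ := by
          apply mul_le_mul hBp (hexp.trans hexp2.le) (Real.exp_pos _).le (by positivity)
      _ = 1 / (l : ℝ) ^ (A + 1) := by
          rw [hE, pow_add]; field_simp
  have hsecond : (1 / 2 : ℝ) ^ ((A + 1) * (s + 1)) ≤ 1 / (l : ℝ) ^ (A + 1) := by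
    rw [one_div_pow]
    apply one_div_le_one_div_of_le (by positivity)
    calc (l : ℝ) ^ (A + 1) ≤ (2 ^ (s + 1)) ^ (A + 1) := pow_le_pow_left₀ hl0.le hs2'.le _
      _ = 2 ^ ((A + 1) * (s + 1)) := by rw [← pow_mul]; congr 1; ring
  linarith

/-- the sum over the moduli of the sieve -/
theorem moduliG (b D : ℕ) (Φ : ℝ → ℝ) (hΦ : ∀ (x : ℝ) (n : ℤ), Φ (x + n) = Φ x)
    (hΦ0 : ∀ x, 0 ≤ Φ x) (DD : Finset ℕ) (hDD : ∀ d ∈ DD, 1 ≤ d ∧ d ≤ D ∧ Cp b d) :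
    ∑ d ∈ DD, (1 / (d : ℝ)) * ∑ a ∈ Ico 1 d, Φ (b * ((a : ℝ) / d)) ≤
      (1 + Real.log D) *
        ∑ q ∈ (Ioc 1 D).filter (Cp b), (1 / (q : ℝ)) * ∑ a ∈ Red q, Φ ((a : ℝ) / q) := by
  have h1 : ∀ d ∈ DD, (1 / (d : ℝ)) * ∑ a ∈ Ico 1 d, Φ (b * ((a : ℝ) / d)) =
      ∑ q ∈ (Ioc 1 D).filter (Cp b),
        if q ∣ d then (1 / (d : ℝ)) * ∑ a ∈ Red q, Φ ((a : ℝ) / q) else 0 := by
    intro d hd
    obtain ⟨hd1, hd2, hd3, hd4⟩ := hDD d hd
    rw [sum_frac' d hd1 (fun x => Φ (b * x)), Finset.mul_sum, ← Finset.sum_filter]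
    have h2 : d.divisors.erase 1 = ((Ioc 1 D).filter (Cp b)).filter (fun q => q ∣ d) := by
      ext q
      rw [mem_erase, Nat.mem_divisors, mem_filter, mem_filter, mem_Ioc]
      constructor
      · rintro ⟨h3, h4, _⟩
        have h5 := Nat.le_of_dvd hd1 h4
        have h6 : 0 < q := Nat.pos_of_dvd_of_pos h4 hd1
        exact ⟨⟨⟨by omega, by omega⟩, Nat.Coprime.coprime_dvd_left h4 hd3,
          Nat.Coprime.coprime_dvd_left h4 hd4⟩, h4⟩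
      · rintro ⟨⟨⟨h3, _⟩, _⟩, h4⟩
        exact ⟨by omega, h4, by omega⟩
    rw [h2]
    apply Finset.sum_congr rfl
    intro q hq
    rw [mem_filter, mem_filter, mem_Ioc] at hq
    congr 1
    have h3 : Nat.Coprime b q := by
      have h4 := hq.1.2.1
      exact (Nat.Coprime.coprime_dvd_right (Dvd.intro_left b (by ring)) h4).symm
    exact Red_perm q b (by omega) h3 Φ hΦ
  rw [Finset.sum_congr rfl h1, Finset.sum_comm, Finset.mul_sum]
  apply Finset.sum_le_sum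
  intro q hq
  rw [mem_filter, mem_Ioc] at hq
  have hq0 : 0 < q := by omega
  have hX : 0 ≤ ∑ a ∈ Red q, Φ ((a : ℝ) / q) := Finset.sum_nonneg fun _ _ => hΦ0 _
  rw [← Finset.sum_filter, ← Finset.sum_mul]
  have h3 : ∑ d ∈ DD.filter (fun d => q ∣ d), (1 / (d : ℝ)) ≤ 1 / q * (1 + Real.log D) := by
    refine le_trans ?_ (harm_dvd D q hq0)
    apply Finset.sum_le_sum_of_subset_of_nonneg
    · apply Finset.filter_subset_filter
      intro d hd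
      obtain ⟨hd1, hd2, _⟩ := hDD d hd
      rw [mem_Icc]
      exact ⟨hd1, hd2⟩
    · intro d _ _
      positivity
  calc _ ≤ (1 / q * (1 + Real.log D)) * ∑ a ∈ Red q, Φ ((a : ℝ) / q) :=
        mul_le_mul_of_nonneg_right h3 hX
    _ = _ := by ring

theorem H_add_int (b L : ℕ) (r α : ℝ) (n : ℤ) : H b L (r + n) α = H b L r α := by
  unfold H
  apply Finset.sum_congr rfl
  intro x _
  have : (r + n) * (x : ℝ) + α * rv b L x = (r * x + α * rv b L x) + ((n * x : ℤ) : ℝ) := by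
    push_cast; ring
  rw [this, Pool.Agent.X35.RP.e_add, Pool.Agent.X35.RP.e_int, mul_one]

/-- the total supremum bound -/
theorem supErr (b : ℕ) (hb : 3 ≤ b) (hlog : 2 * (4 + Real.log b) ^ 2 ≤ b) (A : ℕ) :
    ∃ L0 : ℕ, 2 ≤ L0 ∧ ∀ L I : ℕ, L0 ≤ L → 2 * I ≤ L → ∀ (k : ℤ) (α : ℝ) (DD : Finset ℕ),
      (∀ d ∈ DD, 1 ≤ d ∧ d ≤ b ^ I ∧ Cp b d) →
      ∑ d ∈ DD, (1 / (d : ℝ)) *
        ∑ a ∈ Ico 1 d, ‖H b L (b * ((a : ℝ) / d) + k / ((b ^ 2 - 1 : ℕ) : ℝ)) α‖ ≤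
      b ^ L * (b * (1 + L * Real.log b) / ((L / 2 : ℕ) : ℝ) ^ A) := by
  have hb0 : (0 : ℝ) < b := by exact_mod_cast (by omega : 0 < b)
  have hlb : 0 ≤ Real.log b := Real.log_natCast_nonneg b
  obtain ⟨L0, hL02, hL0⟩ := paramA (1 / (b : ℝ) ^ 8) (by positivity) (b ^ 2) A
  refine ⟨2 * L0, by omega, ?_⟩
  intro L I hL hI k α DD hDD
  obtain ⟨j0, hj0⟩ := hL0 (L / 2) (by omega)
  have h1 := moduliG b (b ^ I)
    (fun x => ‖H b L (x + k / ((b ^ 2 - 1 : ℕ) : ℝ)) α‖) (by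
      intro x n
      have : x + n + k / ((b ^ 2 - 1 : ℕ) : ℝ) = (x + k / ((b ^ 2 - 1 : ℕ) : ℝ)) + n := by ring
      rw [this, H_add_int]) (fun _ => norm_nonneg _) DD hDD
  refine h1.trans ?_
  have h2 := totalQ b hb hlog L (L / 2) (by omega) k α j0 I hI
  unfold XS at h2
  have h3 : (b : ℝ) ^ L * (b * ((b ^ 2) ^ j0 * Real.exp (-(1 / b ^ 8 * (L / 2 / j0 : ℕ))) +
      (1 / 2 : ℝ) ^ j0)) ≤ b ^ L * (b * (1 / ((L / 2 : ℕ) : ℝ) ^ A)) := by
    apply mul_le_mul_of_nonneg_left _ (by positivity)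
    apply mul_le_mul_of_nonneg_left _ hb0.le
    push_cast at hj0 ⊢
    exact hj0
  have h4 : 1 + Real.log ((b ^ I : ℕ) : ℝ) ≤ 1 + L * Real.log b := by
    push_cast
    rw [Real.log_pow]
    have h6 : (I : ℝ) ≤ L := by exact_mod_cast (by omega : I ≤ L)
    have := mul_le_mul_of_nonneg_right h6 hlb
    linarith
  calc _ ≤ (1 + L * Real.log b) * (b ^ L * (b * (1 / ((L / 2 : ℕ) : ℝ) ^ A))) := by
        apply mul_le_mul h4 (h2.trans h3) _ (by positivity)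
        apply Finset.sum_nonneg
        intro q _
        exact mul_nonneg (by positivity) (Finset.sum_nonneg fun _ _ => norm_nonneg _)
    _ = _ := by ring

end Pool.Agent.X35.RQ
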