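import Pool.Agent.X35.RQ.Sv

/-!
# The fourth moment of the sieve weights in a progression, uniformly in the base
-/

set_option autoImplicit false

open Finset Filter

namespace Pool.Agent.X35.RQ

open Pool.Agent.X35.RP (H G Red e e_add e_zero e_int norm_e conj_e sum_e rv rv_lt rv_inj n4 n4_nonneg
  n4_pow n4_sum n4_smul Sw detect cop_prod VV_le)
open Pool.Agent.Y843.HS (Pr Sv VV Th qq Wt S_TH)

theorem Ps_Cp (b z R : ℕ) (U : Finset ℕ) (hU : U ⊆ Ps b z R) : Cp b (∏ p ∈ U, p) := by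
  have hco : ∀ m : ℕ, m ∣ (b * (b ^ 2 - 1)) ^ 2 → Nat.Coprime (∏ p ∈ U, p) m := by
    intro m hm
    apply Nat.Coprime.prod_left
    intro p hp
    have h := Ps_prime (hU hp)
    rw [h.1.coprime_iff_not_dvd]
    intro h2
    exact h.2.1 (h.1.dvd_of_dvd_pow (h2.trans hm))
  refine ⟨hco _ ?_, hco _ ?_⟩
  · rw [mul_pow]; exact Dvd.intro _ rfl
  · exact (Dvd.intro_left b rfl : b ^ 2 - 1 ∣ b * (b ^ 2 - 1)).trans (dvd_pow_self _ (by norm_num))

/-- the fourth moment of the error -/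
theorem err4 (b : ℕ) (hb : 3 ≤ b) (hlog : 2 * (4 + Real.log b) ^ 2 ≤ b) :
    ∃ L0 : ℕ, 2 ≤ L0 ∧ ∀ L : ℕ, L0 ≤ L → ∀ e₀ v z R : ℕ, 0 < e₀ → e₀ < b → v < b ^ 2 - 1 →
      ∀ θ : Finset ℕ → ℝ, (∀ U, |θ U| ≤ 1) →
      (∀ U ∈ (Ps b z R).powerset, θ U ≠ 0 → ∏ p ∈ U, p ≤ b ^ (L / 2)) →
      n4 (b ^ L) (Sw b L (fun n => if n % (b ^ 2 - 1) = v then
        Th (Zc b e₀) z R θ n - qq (Zc b e₀) z R θ else 0)) ≤ b ^ L / (L : ℝ) ^ 2 := by
  have hb0 : (0 : ℝ) < b := by exact_mod_cast (by omega : 0 < b)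
  have hb1 : (1 : ℝ) ≤ b := by exact_mod_cast (by omega : 1 ≤ b)
  have hlb : 0 ≤ Real.log b := Real.log_natCast_nonneg b
  obtain ⟨T, hT⟩ : ∃ T : ℝ, T = 1 + Real.log b := ⟨_, rfl⟩
  have hT1 : 1 ≤ T := by rw [hT]; linarith
  obtain ⟨L1, hL12, hL1⟩ := supErr b hb hlog 7
  obtain ⟨L2, hL2⟩ := exists_nat_ge (18 * 3 ^ 14 * (b : ℝ) ^ 3 * T ^ 5)
  refine ⟨max (max L1 L2) 2, by omega, ?_⟩
  intro L hL e₀ v z R he he2 hv θ hθ hlev
  have hLL1 : L1 ≤ L := by omega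
  have hLL2 : L2 ≤ L := by omega
  have hLL3 : 2 ≤ L := by omega
  have hLr : (0 : ℝ) < L := by exact_mod_cast (by omega : 0 < L)
  have hLr1 : (1 : ℝ) ≤ L := by exact_mod_cast (by omega : 1 ≤ L)
  obtain ⟨w, hw⟩ : ∃ w : ℕ → ℝ, w = fun n => if n % (b ^ 2 - 1) = v then
        Th (Zc b e₀) z R θ n - qq (Zc b e₀) z R θ else 0 := ⟨_, rfl⟩
  rw [← hw]
  obtain ⟨E0, hE0⟩ : ∃ E0 : ℝ, E0 = b ^ L * (b * (1 + L * Real.log b) / ((L / 2 : ℕ) : ℝ) ^ 7) :=
    ⟨_, rfl⟩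
  have hsup : ∀ k : ℕ, ‖Sw b L w k‖ ≤ E0 := by
    intro k
    rw [hw]
    apply sup_err b (by omega) L e₀ z R v hv θ hθ k E0
    intro c
    rw [hE0]
    apply hL1 L (L / 2) hLL1 (by omega) c (k / b ^ L)
    intro d hd
    rw [mem_image] at hd
    obtain ⟨U, hU, rfl⟩ := hd
    rw [mem_filter] at hU
    have hU2 := mem_powerset.1 hU.1
    exact ⟨Finset.prod_pos fun p hp => (Ps_prime (hU2 hp)).1.pos, hlev U hU.1 hU.2,
      Ps_Cp b z R U hU2⟩
  have hsq := Sw_sq b (by omega) L w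
  -- the coefficients
  have hD : 1 + Real.log ((b ^ (L / 2) : ℕ) : ℝ) ≤ L * T := by
    push_cast
    rw [Real.log_pow, hT]
    have h1 : ((L / 2 : ℕ) : ℝ) ≤ L := by exact_mod_cast Nat.div_le_self L 2
    have := mul_le_mul_of_nonneg_right h1 hlb
    nlinarith
  have hw2 : ∑ n ∈ range (b ^ L), w n ^ 2 ≤ 18 * b * b ^ L * (L : ℝ) ^ 3 * T ^ 3 := by
    have h1 : ∀ n ∈ range (b ^ L), w n ^ 2 ≤
        2 * ((e₀ + b * n).divisors.card : ℝ) ^ 2 + 2 * (L * T) ^ 2 := by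
      intro n _
      obtain ⟨t1, t2⟩ := Th_bound b e₀ z R (b ^ (L / 2)) he θ hθ hlev n
      have t3 := t2.trans hD
      rw [hw]
      simp only
      split_ifs
      · have t4 : (Th (Zc b e₀) z R θ n - qq (Zc b e₀) z R θ) ^ 2 ≤
            2 * |Th (Zc b e₀) z R θ n| ^ 2 + 2 * |qq (Zc b e₀) z R θ| ^ 2 := by
          rw [sq_abs, sq_abs]
          nlinarith [sq_nonneg (Th (Zc b e₀) z R θ n + qq (Zc b e₀) z R θ)]
        have t5 := pow_le_pow_left₀ (abs_nonneg _) t1 2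
        have t6 := pow_le_pow_left₀ (abs_nonneg _) t3 2
        linarith
      · rw [zero_pow (by norm_num)]
        positivity
    refine (Finset.sum_le_sum h1).trans ?_
    rw [Finset.sum_add_distrib, ← Finset.mul_sum, Finset.sum_const, card_range, nsmul_eq_mul]
    have h2 : ∑ n ∈ range (b ^ L), ((e₀ + b * n).divisors.card : ℝ) ^ 2 ≤
        ∑ N ∈ Icc 1 (b ^ (L + 1)), (N.divisors.card : ℝ) ^ 2 := by
      rw [← Finset.sum_image (f := fun N : ℕ => (N.divisors.card : ℝ) ^ 2)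
        (g := fun n => e₀ + b * n) (s := range (b ^ L))]
      · apply Finset.sum_le_sum_of_subset_of_nonneg
        · intro N hN
          rw [mem_image] at hN
          obtain ⟨n, hn, rfl⟩ := hN
          rw [mem_range] at hn
          rw [mem_Icc]
          refine ⟨by omega, ?_⟩
          calc e₀ + b * n ≤ b + b * n := by omega
            _ = b * (n + 1) := by ring
            _ ≤ b * b ^ L := Nat.mul_le_mul_left _ hn
            _ = b ^ (L + 1) := by ring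
        · intro N _ _
          positivity
      · intro x _ y _ h
        simp only at h
        have : b * x = b * y := by omega
        exact Nat.eq_of_mul_eq_mul_left (by omega) this
    have h3 := Tau.tau_sq (b ^ (L + 1))
    have h4 : 1 + Real.log ((b ^ (L + 1) : ℕ) : ℝ) ≤ 2 * L * T := by
      push_cast
      rw [Real.log_pow, hT]
      push_cast
      nlinarith
    have h5 : 0 ≤ 1 + Real.log ((b ^ (L + 1) : ℕ) : ℝ) := by
      have := Real.log_natCast_nonneg (b ^ (L + 1))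
      linarith
    have h6 : ((b ^ (L + 1) : ℕ) : ℝ) * (1 + Real.log ((b ^ (L + 1) : ℕ) : ℝ)) ^ 3 ≤
        ((b ^ (L + 1) : ℕ) : ℝ) * (2 * L * T) ^ 3 :=
      mul_le_mul_of_nonneg_left (pow_le_pow_left₀ h5 h4 3) (Nat.cast_nonneg _)
    have h7 := h2.trans (h3.trans h6)
    have h8 : ((b ^ (L + 1) : ℕ) : ℝ) * (2 * L * T) ^ 3 = 8 * b * b ^ L * (L : ℝ) ^ 3 * T ^ 3 := by
      push_cast; ring
    rw [h8] at h7
    have h9 : ((b ^ L : ℕ) : ℝ) * (2 * (L * T) ^ 2) ≤ 2 * b * b ^ L * (L : ℝ) ^ 3 * T ^ 3 := by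
      have g1 : (L * T) ^ 2 ≤ b * ((L : ℝ) ^ 3 * T ^ 3) := by
        have g2 : (L * T) ^ 2 * 1 ≤ (L * T) ^ 2 * (L * T) := by
          apply mul_le_mul_of_nonneg_left _ (by positivity)
          nlinarith
        have g3 : (L * T) ^ 2 * (L * T) ≤ b * ((L : ℝ) ^ 3 * T ^ 3) := by
          have : (L * T) ^ 2 * (L * T) = (L : ℝ) ^ 3 * T ^ 3 := by ring
          rw [this]
          exact le_mul_of_one_le_left (by positivity) hb1
        linarith
      push_cast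
      calc (b : ℝ) ^ L * (2 * (L * T) ^ 2) ≤ (b : ℝ) ^ L * (2 * (b * ((L : ℝ) ^ 3 * T ^ 3))) := by
            apply mul_le_mul_of_nonneg_left _ (by positivity)
            linarith
        _ = _ := by ring
    linarith
  have hE0' : E0 ^ 2 ≤ ((b : ℝ) ^ L) ^ 2 * (3 ^ 14 * b ^ 2 * T ^ 2 / (L : ℝ) ^ 12) := by
    rw [hE0, mul_pow, div_pow, mul_pow]
    apply mul_le_mul_of_nonneg_left _ (by positivity)
    have h1 : (L : ℝ) / 3 ≤ ((L / 2 : ℕ) : ℝ) := by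
      have : L ≤ 3 * (L / 2) := by omega
      have h2 : (L : ℝ) ≤ 3 * ((L / 2 : ℕ) : ℝ) := by exact_mod_cast this
      linarith
    have h2 : (1 + L * Real.log b) ^ 2 ≤ (L * T) ^ 2 := by
      apply pow_le_pow_left₀ (by positivity)
      rw [hT]; nlinarith
    have h3 : ((L : ℝ) / 3) ^ 14 ≤ (((L / 2 : ℕ) : ℝ) ^ 7) ^ 2 := by
      rw [← pow_mul]
      exact pow_le_pow_left₀ (by positivity) h1 14
    calc (b : ℝ) ^ 2 * (1 + L * Real.log b) ^ 2 / (((L / 2 : ℕ) : ℝ) ^ 7) ^ 2 ≤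
          b ^ 2 * (L * T) ^ 2 / ((L : ℝ) / 3) ^ 14 := by
          apply div_le_div₀ (by positivity) _ (by positivity) h3
          exact mul_le_mul_of_nonneg_left h2 (by positivity)
      _ = 3 ^ 14 * b ^ 2 * T ^ 2 / (L : ℝ) ^ 12 := by field_simp
  have hfour : n4 (b ^ L) (Sw b L w) ^ 4 ≤ (b ^ L / (L : ℝ) ^ 2) ^ 4 := by
    rw [n4_pow]
    have h1 : ∀ k ∈ range (b ^ L), ‖Sw b L w k‖ ^ 4 ≤ E0 ^ 2 * ‖Sw b L w k‖ ^ 2 := by
      intro k _
      have : ‖Sw b L w k‖ ^ 4 = ‖Sw b L w k‖ ^ 2 * ‖Sw b L w k‖ ^ 2 := by ring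
      rw [this]
      apply mul_le_mul_of_nonneg_right _ (by positivity)
      exact pow_le_pow_left₀ (norm_nonneg _) (hsup k) 2
    refine (Finset.sum_le_sum h1).trans ?_
    rw [← Finset.mul_sum, hsq]
    have h2 : (18 * 3 ^ 14 * (b : ℝ) ^ 3 * T ^ 5) ≤ L := by
      refine hL2.trans ?_
      exact_mod_cast hLL2
    calc E0 ^ 2 * ((b : ℝ) ^ L * ∑ n ∈ range (b ^ L), w n ^ 2) ≤
          (((b : ℝ) ^ L) ^ 2 * (3 ^ 14 * b ^ 2 * T ^ 2 / (L : ℝ) ^ 12)) *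
            ((b : ℝ) ^ L * (18 * b * b ^ L * (L : ℝ) ^ 3 * T ^ 3)) := by
          apply mul_le_mul hE0' _ _ (by positivity)
          · exact mul_le_mul_of_nonneg_left hw2 (by positivity)
          · apply mul_nonneg (by positivity)
            exact Finset.sum_nonneg fun _ _ => sq_nonneg _
      _ = ((b : ℝ) ^ L) ^ 4 * (18 * 3 ^ 14 * (b : ℝ) ^ 3 * T ^ 5) / (L : ℝ) ^ 9 := by
          field_simp
      _ ≤ ((b : ℝ) ^ L) ^ 4 * L / (L : ℝ) ^ 9 := by
          apply div_le_div_of_nonneg_right _ (by positivity)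
          exact mul_le_mul_of_nonneg_left h2 (by positivity)
      _ = (b ^ L / (L : ℝ) ^ 2) ^ 4 := by field_simp
  exact le_of_pow_le_pow_left₀ (by norm_num) (by positivity) hfour

theorem VV_Zc (b e₀ z R : ℕ) (hb : 2 ≤ b) :
    VV (Zc b e₀) z R ≤ VV (fun _ => {0}) z R *
      (((b * (b ^ 2 - 1) : ℕ) : ℝ) / Nat.totient (b * (b ^ 2 - 1))) := by
  have hb4 : 4 ≤ b ^ 2 := by nlinarith
  obtain ⟨Q, hQ⟩ : ∃ Q, Q = b * (b ^ 2 - 1) := ⟨_, rfl⟩
  have hQ0 : 0 < Q := by rw [hQ]; exact Nat.mul_pos (by omega) (by omega)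
  rw [← hQ]
  have hf01 : ∀ p : ℕ, p.Prime → 0 < (1 - (1 : ℝ) / p) ∧ (1 - (1 : ℝ) / p) ≤ 1 := by
    intro p hp
    have h2 : (2 : ℝ) ≤ p := by exact_mod_cast hp.two_le
    have h3 : (1 : ℝ) / p ≤ 1 / 2 := one_div_le_one_div_of_le (by norm_num) h2
    have h4 : (0 : ℝ) < 1 / p := by positivity
    constructor <;> linarith
  have h1 : VV (Zc b e₀) z R = ∏ p ∈ Ps b z R, (1 - (1 : ℝ) / p) := by
    unfold VV
    have h2 : ∀ p ∈ Pr z R, (1 - ((Zc b e₀ p).card : ℝ) / p) =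
        if ¬ p ∣ b * (b ^ 2 - 1) then (1 - (1 : ℝ) / p) else 1 := by
      intro p hp
      unfold Pr at hp
      rw [mem_filter] at hp
      by_cases h : p ∣ b * (b ^ 2 - 1)
      · rw [if_neg (not_not.2 h)]
        unfold Zc
        rw [if_pos h]
        simp
      · rw [if_pos h, Zc_card b e₀ p hp.2 h, Nat.cast_one]
    rw [Finset.prod_congr rfl h2, ← Finset.prod_filter]
    rfl
  have h2 : VV (fun _ => {0}) z R = (∏ p ∈ Ps b z R, (1 - (1 : ℝ) / p)) *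
      ∏ p ∈ (Pr z R).filter (fun p => ¬ ¬ p ∣ b * (b ^ 2 - 1)), (1 - (1 : ℝ) / p) := by
    unfold VV Ps
    rw [Finset.prod_filter_mul_prod_filter_not]
    apply Finset.prod_congr rfl
    intro p _
    rw [card_singleton, Nat.cast_one]
  have h3 : ((Nat.totient Q : ℝ)) / Q ≤
      ∏ p ∈ (Pr z R).filter (fun p => ¬ ¬ p ∣ b * (b ^ 2 - 1)), (1 - (1 : ℝ) / p) := by
    have h4 : (Nat.totient Q : ℝ) = Q * ∏ p ∈ Q.primeFactors, (1 - (p : ℝ)⁻¹) := by
      have := Nat.totient_eq_mul_prod_factors Q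
      have h5 : ((Nat.totient Q : ℚ) : ℝ) = ((Q * ∏ p ∈ Q.primeFactors, (1 - (p : ℚ)⁻¹) : ℚ) : ℝ) := by
        rw [this]
      push_cast at h5
      exact h5
    have hQr : (0 : ℝ) < Q := by exact_mod_cast hQ0
    have h5 : (Nat.totient Q : ℝ) / Q = ∏ p ∈ Q.primeFactors, (1 - (1 : ℝ) / p) := by
      rw [h4]
      rw [mul_div_cancel_left₀ _ hQr.ne']
      apply Finset.prod_congr rfl
      intro p _
      rw [one_div]
    rw [h5]
    have hsub : (Pr z R).filter (fun p => ¬ ¬ p ∣ b * (b ^ 2 - 1)) ⊆ Q.primeFactors := by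
      intro p hp
      unfold Pr at hp
      rw [mem_filter, mem_filter] at hp
      rw [Nat.mem_primeFactors]
      exact ⟨hp.1.2, by rw [hQ]; exact not_not.1 hp.2, hQ0.ne'⟩
    rw [← Finset.prod_sdiff hsub]
    apply mul_le_of_le_one_left
    · apply Finset.prod_nonneg
      intro p hp
      exact (hf01 p (Nat.prime_of_mem_primeFactors (hsub hp))).1.le
    · apply Finset.prod_le_one
      · intro p hp
        exact (hf01 p (Nat.prime_of_mem_primeFactors (Finset.mem_sdiff.1 hp).1)).1.le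
      · intro p hp
        exact (hf01 p (Nat.prime_of_mem_primeFactors (Finset.mem_sdiff.1 hp).1)).2
  have hV0 : 0 ≤ ∏ p ∈ Ps b z R, (1 - (1 : ℝ) / p) :=
    Finset.prod_nonneg fun p hp => (hf01 p (Ps_prime hp).1).1.le
  have hφ : (0 : ℝ) < Nat.totient Q := by exact_mod_cast Nat.totient_pos.2 hQ0
  have hQr : (0 : ℝ) < Q := by exact_mod_cast hQ0
  rw [h1, h2]
  calc ∏ p ∈ Ps b z R, (1 - (1 : ℝ) / p) =
        (∏ p ∈ Ps b z R, (1 - (1 : ℝ) / p)) * ((Nat.totient Q : ℝ) / Q) * ((Q : ℝ) / Nat.totient Q) := by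
        field_simp
    _ ≤ _ := by
        apply mul_le_mul_of_nonneg_right _ (by positivity)
        exact mul_le_mul_of_nonneg_left h3 hV0

/-- the sieve weights in a progression -/
theorem main4 : ∃ C3 : ℝ, 0 < C3 ∧ ∀ b : ℕ, 3 ≤ b → 2 * (4 + Real.log b) ^ 2 ≤ b →
    ∃ L0 : ℕ, 2 ≤ L0 ∧ ∀ L : ℕ, L0 ≤ L → ∀ e₀ v : ℕ, 0 < e₀ → e₀ < b → v < b ^ 2 - 1 →
      ∃ w : ℕ → ℝ, (∀ n, 0 ≤ w n) ∧
        (∀ n : ℕ, n % (b ^ 2 - 1) = v → (e₀ + b * n).Prime → b ^ (L - 1) ≤ n → w n = 1) ∧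
        ∑ k ∈ range (b ^ L), ‖Sw b L w k‖ ^ 4 ≤ C3 * ((b : ℝ) ^ L) ^ 4 /
          ((b ^ 2 - 1 : ℕ) : ℝ) ^ 3 * ((((b * (b ^ 2 - 1) : ℕ) : ℝ) /
            Nat.totient (b * (b ^ 2 - 1))) / (L * Nat.log 2 b)) ^ 4 := by
  obtain ⟨C, hC1, hC⟩ := Pool.Agent.Y257.HS.s_TH 1
  obtain ⟨CM, hCM⟩ := Pool.Agent.Helper256.KM.mertens_inv
  obtain ⟨K0, hK0⟩ : ∃ K0 : ℝ, K0 = Real.exp (2 * CM) * 2 ^ C := ⟨_, rfl⟩
  have hK0pos : 0 < K0 := by rw [hK0]; positivity
  refine ⟨128 * (12 * C ^ 2 * K0) ^ 4, by positivity, ?_⟩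
  intro b hb hlog
  have hb0 : (0 : ℝ) < b := by exact_mod_cast (by omega : 0 < b)
  have hb4 : 4 ≤ b ^ 2 := by nlinarith
  obtain ⟨m, hm⟩ : ∃ m : ℕ, m = b ^ 2 - 1 := ⟨_, rfl⟩
  have hm0 : 0 < m := by omega
  have hm0' : (0 : ℝ) < m := by exact_mod_cast hm0
  obtain ⟨Λ, hΛ⟩ : ∃ Λ : ℝ, Λ = ((b * (b ^ 2 - 1) : ℕ) : ℝ) / Nat.totient (b * (b ^ 2 - 1)) :=
    ⟨_, rfl⟩
  have hΛ0 : 0 < Λ := by
    rw [hΛ]
    have h1 : 0 < b * (b ^ 2 - 1) := Nat.mul_pos (by omega) (by omega)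
    have h2 : (0 : ℝ) < ((b * (b ^ 2 - 1) : ℕ) : ℝ) := by exact_mod_cast h1
    have h3 : (0 : ℝ) < Nat.totient (b * (b ^ 2 - 1)) := by exact_mod_cast Nat.totient_pos.2 h1
    positivity
  obtain ⟨β, hβ⟩ : ∃ β : ℕ, β = Nat.log 2 b := ⟨_, rfl⟩
  have hβ1 : 1 ≤ β := by
    rw [hβ]
    exact Nat.log_pos (by norm_num) (by omega)
  have hβb : 2 ^ β ≤ b := by rw [hβ]; exact Nat.pow_log_le_self 2 (by omega)
  have hβr : (0 : ℝ) < β := by exact_mod_cast hβ1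
  obtain ⟨L1, hL12, hL1⟩ := err4 b hb hlog
  obtain ⟨η, hη⟩ : ∃ η : ℝ, η = 12 * C ^ 2 * K0 * Λ / β * (8 / (m : ℝ) ^ 3) ^ (1 / 4 : ℝ) := ⟨_, rfl⟩
  have hη0 : 0 < η := by rw [hη]; positivity
  obtain ⟨L2, hL2⟩ := exists_nat_ge (1 / η)
  refine ⟨max (max L1 L2) (3 * C * 2 ^ C + 3), by omega, ?_⟩
  intro L hL e₀ v he he2 hv
  rw [← hm] at hv ⊢
  rw [← hβ]
  have hLL1 : L1 ≤ L := by omega
  have hLL2 : L2 ≤ L := by omega
  have hLL3 : 3 * C * 2 ^ C + 3 ≤ L := by omega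
  have hLr : (0 : ℝ) < L := by exact_mod_cast (by omega : 0 < L)
  obtain ⟨I, hI⟩ : ∃ I, I = L / 2 := ⟨_, rfl⟩
  obtain ⟨X, hX⟩ : ∃ X, X = β * I / C := ⟨_, rfl⟩
  obtain ⟨J, hJ⟩ : ∃ J, J = Nat.log 2 X := ⟨_, rfl⟩
  have hIL : L ≤ 3 * I := by omega
  have hX1 : C * X ≤ β * I := by rw [hX]; exact Nat.mul_div_le _ _
  have hX2 : β * I < C * (X + 1) := by
    have := Nat.lt_mul_div_succ (β * I) (show 0 < C by omega)
    rw [← hX] at this
    exact this
  have hX3 : 2 ^ C ≤ X := by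
    rw [hX, Nat.le_div_iff_mul_le (by omega)]
    have h1 : 2 ^ C * C ≤ I := by
      have h3 : 3 * C * 2 ^ C = 3 * (2 ^ C * C) := by ring
      omega
    calc 2 ^ C * C ≤ I := h1
      _ = 1 * I := by ring
      _ ≤ β * I := Nat.mul_le_mul_right _ hβ1
  have hX0 : 1 ≤ X := le_trans Nat.one_le_two_pow hX3
  have hJJ : C ≤ J := by
    rw [hJ]
    exact (Nat.le_log_iff_pow_le (by norm_num) (by omega)).2 hX3
  have hJX : 2 ^ J ≤ X := by rw [hJ]; exact Nat.pow_log_le_self 2 (by omega)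
  have hJX2 : X < 2 ^ (J + 1) := by rw [hJ]; exact Nat.lt_pow_succ_log_self (by norm_num) X
  obtain ⟨θ, hθ⟩ := hC C J le_rfl hJJ (Zc b e₀) (by
    intro p hp
    unfold Pr at hp
    rw [mem_filter] at hp
    refine ⟨Zc_card_le b e₀ p hp.2, ?_⟩
    intro c hc
    unfold Zc at hc
    split_ifs at hc
    · simp at hc
    · rw [mem_filter, mem_range] at hc
      exact hc.1)
  obtain ⟨z, hz⟩ : ∃ z : ℕ, z = 2 ^ 2 ^ C := ⟨_, rfl⟩
  obtain ⟨R, hR⟩ : ∃ R : ℕ, R = 2 ^ 2 ^ J := ⟨_, rfl⟩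
  rw [← hz, ← hR] at hθ
  have hRC : R ^ C ≤ b ^ I := by
    calc R ^ C = 2 ^ (2 ^ J * C) := by rw [hR, ← pow_mul]
      _ ≤ 2 ^ (β * I) := by
          apply Nat.pow_le_pow_right (by norm_num)
          calc 2 ^ J * C ≤ X * C := Nat.mul_le_mul_right _ hJX
            _ = C * X := by ring
            _ ≤ β * I := hX1
      _ = (2 ^ β) ^ I := by rw [pow_mul]
      _ ≤ b ^ I := Nat.pow_le_pow_left hβb _
  have hPsPr : Ps b z R ⊆ Pr z R := by unfold Ps; exact filter_subset _ _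
  have hlev : ∀ U ∈ (Ps b z R).powerset, θ U ≠ 0 → ∏ p ∈ U, p ≤ b ^ (L / 2) := by
    intro U hU h
    rw [← hI]
    exact (hθ.lev U ((mem_powerset.1 hU).trans hPsPr) h).trans hRC
  obtain ⟨wS, hwS⟩ : ∃ wS : ℕ → ℝ, wS = fun n => if n % m = v then Th (Zc b e₀) z R θ n else 0 :=
    ⟨_, rfl⟩
  refine ⟨wS, ?_, ?_, ?_⟩
  · intro n
    rw [hwS]
    simp only
    split_ifs
    · exact hθ.nonneg n
    · exact le_rfl
  · intro n hn hp hnL
    rw [hwS]
    simp only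
    rw [if_pos hn, Th_eq]
    have h1 : ∀ U ∈ (Ps b z R).powerset, U ≠ ∅ →
        θ U * (if (∏ p ∈ U, p) ∣ e₀ + b * n then 1 else 0) = 0 := by
      intro U hU hne
      obtain ⟨p, hpU⟩ := Finset.nonempty_iff_ne_empty.2 hne
      have h2 := Ps_prime (mem_powerset.1 hU hpU)
      rw [if_neg, mul_zero]
      intro h3
      have h4 : p ∣ e₀ + b * n := (Finset.dvd_prod_of_mem _ hpU).trans h3
      have h5 := (Nat.prime_dvd_prime_iff_eq h2.1 hp).1 h4
      have h6 : R ≤ R ^ C := Nat.le_self_pow (by omega) R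
      have h7 : b ^ I < b ^ L := Nat.pow_lt_pow_right (by omega) (by omega)
      have h8 : b ^ L = b * b ^ (L - 1) := by rw [← pow_succ']; congr 1; omega
      have h9 : b * b ^ (L - 1) ≤ b * n := Nat.mul_le_mul_left _ hnL
      omega
    rw [Finset.sum_eq_single ∅ h1 (fun h => absurd (Finset.empty_mem_powerset _) h)]
    simp [hθ.one]
  · -- the fourth moment
    obtain ⟨Xs, hXs⟩ : ∃ Xs : Finset ℕ, Xs = (range (b ^ L)).filter (fun n => n % m = v) := ⟨_, rfl⟩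
    obtain ⟨q0, hq0⟩ : ∃ q0 : ℝ, q0 = qq (Zc b e₀) z R θ := ⟨_, rfl⟩
    have hsplit : Sw b L wS = fun k => (q0 : ℂ) * Sw b L (fun n => if n ∈ Xs then 1 else 0) k +
        Sw b L (fun n => if n % m = v then
          Th (Zc b e₀) z R θ n - qq (Zc b e₀) z R θ else 0) k := by
      ext k
      unfold Sw
      rw [Finset.mul_sum, ← Finset.sum_add_distrib]
      apply Finset.sum_congr rfl
      intro n hn
      rw [← mul_assoc, ← add_mul]
      congr 1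
      rw [hwS, hXs, ← hq0]
      simp only
      by_cases h : n % m = v
      · rw [if_pos h, if_pos (by rw [mem_filter]; exact ⟨hn, h⟩), if_pos h]
        push_cast
        ring
      · rw [if_neg h, if_neg (by rw [mem_filter]; exact fun h2 => h h2.2), if_neg h]
        simp
    have hcard : (Xs.card : ℝ) ≤ 2 * (b : ℝ) ^ L / m := by
      have h1 : Xs.card ≤ b ^ L / m + 1 := by
        rw [← Finset.card_range (b ^ L / m + 1)]
        apply Finset.card_le_card_of_injOn (fun n => n / m)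
        · intro n hn
          rw [Finset.mem_coe, hXs, mem_filter, mem_range] at hn
          rw [Finset.mem_coe, mem_range]
          have := Nat.div_le_div_right (c := m) hn.1.le
          show n / m < b ^ L / m + 1
          omega
        · intro x hx y hy h
          rw [Finset.mem_coe, hXs, mem_filter] at hx hy
          simp only at h
          rw [← Nat.div_add_mod x m, ← Nat.div_add_mod y m, h, hx.2, hy.2]
      have h2 : (Xs.card : ℝ) ≤ ((b ^ L / m : ℕ) : ℝ) + 1 := by exact_mod_cast h1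
      have h3 : ((b ^ L / m : ℕ) : ℝ) ≤ ((b ^ L : ℕ) : ℝ) / m := Nat.cast_div_le
      have h4 : (1 : ℝ) ≤ ((b ^ L : ℕ) : ℝ) / m := by
        rw [le_div_iff₀ hm0', one_mul]
        have h5 : b ^ 2 ≤ b ^ L := Nat.pow_le_pow_right (by omega) (by omega)
        exact_mod_cast (by omega : m ≤ b ^ L)
      push_cast at h3 h4
      have h6 : 2 * (b : ℝ) ^ L / m = (b : ℝ) ^ L / m + (b : ℝ) ^ L / m := by ring
      linarith
    obtain ⟨μ, hμ⟩ : ∃ μ : ℝ, μ = (b : ℝ) ^ L * (8 / (m : ℝ) ^ 3) ^ (1 / 4 : ℝ) := ⟨_, rfl⟩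
    have hμ0 : 0 < μ := by rw [hμ]; positivity
    have hμ4 : μ ^ 4 = 8 * ((b : ℝ) ^ L) ^ 4 / (m : ℝ) ^ 3 := by
      rw [hμ, mul_pow]
      have h1 : ((8 / (m : ℝ) ^ 3) ^ (1 / 4 : ℝ)) ^ 4 = 8 / (m : ℝ) ^ 3 := by
        rw [← Real.rpow_natCast, ← Real.rpow_mul (by positivity)]
        norm_num
      rw [h1]
      ring
    have hF : n4 (b ^ L) (Sw b L (fun n => if n ∈ Xs then 1 else 0)) ≤ μ := by
      have h1 : n4 (b ^ L) (Sw b L (fun n => if n ∈ Xs then 1 else 0)) ^ 4 ≤ μ ^ 4 := by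
        rw [n4_pow, hμ4]
        refine (Sw_four b (by omega) L Xs (by rw [hXs]; exact filter_subset _ _)).trans ?_
        calc (b : ℝ) ^ L * (Xs.card : ℝ) ^ 3 ≤ (b : ℝ) ^ L * (2 * (b : ℝ) ^ L / m) ^ 3 := by
              apply mul_le_mul_of_nonneg_left _ (by positivity)
              exact pow_le_pow_left₀ (Nat.cast_nonneg _) hcard 3
          _ = 8 * ((b : ℝ) ^ L) ^ 4 / (m : ℝ) ^ 3 := by
              rw [div_pow]; ring
      exact le_of_pow_le_pow_left₀ (by norm_num) hμ0.le h1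
    have hEr := hL1 L hLL1 e₀ v z R he he2 (by rw [← hm]; exact hv) θ hθ.abs hlev
    rw [← hm] at hEr
    -- the mean value
    have h2J : 1 / (2 : ℝ) ^ J ≤ 12 * C / (L * β) := by
      rw [div_le_div_iff₀ (by positivity) (by positivity), one_mul]
      have e1 : β * I ≤ 4 * C * 2 ^ J := by
        have e3 : C * (X + 1) ≤ C * (2 * X) := Nat.mul_le_mul_left _ (by omega)
        have e4 : C * (2 * X) ≤ C * (2 * (2 * 2 ^ J)) := by
          apply Nat.mul_le_mul_left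
          rw [pow_succ] at hJX2
          omega
        calc β * I ≤ C * (X + 1) := hX2.le
          _ ≤ C * (2 * X) := e3
          _ ≤ C * (2 * (2 * 2 ^ J)) := e4
          _ = 4 * C * 2 ^ J := by ring
      have e2 : L * β ≤ 12 * C * 2 ^ J := by
        calc L * β ≤ (3 * I) * β := Nat.mul_le_mul_right _ hIL
          _ = 3 * (β * I) := by ring
          _ ≤ 3 * (4 * C * 2 ^ J) := Nat.mul_le_mul_left _ e1
          _ = 12 * C * 2 ^ J := by ring
      exact_mod_cast e2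
    have hVV := VV_le hCM C J hC1 hJJ
    rw [← hK0, ← hz, ← hR] at hVV
    have hVZ := VV_Zc b e₀ z R (by omega)
    rw [← hΛ] at hVZ
    obtain ⟨Q, hQ⟩ : ∃ Q : ℝ, Q = 12 * C ^ 2 * K0 * (Λ / (L * β)) := ⟨_, rfl⟩
    have hq1 : q0 ≤ Q := by
      rw [hq0]
      refine hθ.hi.trans ?_
      calc (C : ℝ) * VV (Zc b e₀) z R ≤ C * (K0 / 2 ^ J * Λ) := by
            apply mul_le_mul_of_nonneg_left _ (Nat.cast_nonneg _)
            exact hVZ.trans (mul_le_mul_of_nonneg_right hVV hΛ0.le)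
        _ = C * K0 * Λ * (1 / 2 ^ J) := by ring
        _ ≤ C * K0 * Λ * (12 * C / (L * β)) := mul_le_mul_of_nonneg_left h2J (by positivity)
        _ = Q := by rw [hQ]; ring
    have hVpos : 0 ≤ VV (Zc b e₀) z R := by
      unfold VV
      apply Finset.prod_nonneg
      intro p hp
      unfold Pr at hp
      rw [mem_filter] at hp
      rw [sub_nonneg, div_le_one (by exact_mod_cast hp.2.pos)]
      have h1 := Zc_card_le b e₀ p hp.2
      have h2 := hp.2.one_lt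
      exact_mod_cast (by omega : (Zc b e₀ p).card ≤ p)
    have hq00 : 0 ≤ q0 := by rw [hq0]; exact hVpos.trans hθ.lo
    have hQμ : (b : ℝ) ^ L / (L : ℝ) ^ 2 ≤ Q * μ := by
      have h1 : 1 / η ≤ L := hL2.trans (by exact_mod_cast hLL2)
      have h2 : 1 / (L : ℝ) ≤ η := by
        rw [div_le_iff₀ hη0] at h1
        rw [div_le_iff₀ hLr]
        linarith
      calc (b : ℝ) ^ L / (L : ℝ) ^ 2 = (b : ℝ) ^ L / L * (1 / L) := by rw [sq]; field_simp
        _ ≤ (b : ℝ) ^ L / L * η := mul_le_mul_of_nonneg_left h2 (by positivity)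
        _ = Q * μ := by rw [hη, hQ, hμ]; field_simp
    have hn4 : n4 (b ^ L) (Sw b L wS) ≤ 2 * (Q * μ) := by
      rw [hsplit]
      have hadd : ∀ f g : ℕ → ℂ, n4 (b ^ L) (fun k => f k + g k) ≤ n4 (b ^ L) f + n4 (b ^ L) g := by
        intro f g
        have := n4_sum (b ^ L) (univ : Finset (Fin 2)) (fun i => if i = 0 then f else g)
        simp only [Fin.sum_univ_two] at this
        simpa using this
      refine (hadd _ _).trans ?_
      rw [n4_smul, Complex.norm_real, Real.norm_eq_abs, abs_of_nonneg hq00]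
      have h1 : q0 * n4 (b ^ L) (Sw b L (fun n => if n ∈ Xs then 1 else 0)) ≤ Q * μ :=
        mul_le_mul hq1 hF (n4_nonneg _ _) (hq00.trans hq1)
      linarith
    rw [← n4_pow]
    have hΛ' : Λ = ((b * m : ℕ) : ℝ) / Nat.totient (b * m) := by rw [hΛ, hm]
    calc n4 (b ^ L) (Sw b L wS) ^ 4 ≤ (2 * (Q * μ)) ^ 4 := pow_le_pow_left₀ (n4_nonneg _ _) hn4 4
      _ = 16 * Q ^ 4 * μ ^ 4 := by ring
      _ = _ := by
          rw [hμ4, hQ, ← hΛ']
          ring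

end Pool.Agent.X35.RQ
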