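import Pool.Agent.X35.RQ.Sup

/-!
# The product bound over reduced fractions
-/

set_option autoImplicit false

open Finset

namespace Pool.Agent.X35.RQ

open Pool.Agent.X35.RP

theorem prod_digits (b : ℕ) (hb : 0 < b) (K : ℕ) : ∀ F : ℕ → ℕ → ℝ,
    ∑ u ∈ range (b ^ K), ∏ s ∈ range K, F s (u / b ^ s % b) =
      ∏ s ∈ range K, ∑ v ∈ range b, F s v := by
  induction K with
  | zero => intro F; simp
  | succ K ih =>
    intro F
    rw [pow_succ, mul_comm (b ^ K) b, sum_range_mul b _ hb, Finset.prod_range_succ',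
      ← ih (fun s v => F (s + 1) v), Finset.sum_mul]
    apply Finset.sum_congr rfl
    intro m _
    rw [Finset.mul_sum]
    apply Finset.sum_congr rfl
    intro x hx
    rw [mem_range] at hx
    rw [Finset.prod_range_succ']
    congr 1
    · apply Finset.prod_congr rfl
      intro s _
      have h1 : (x + b * m) / b ^ (s + 1) = m / b ^ s := by
        rw [pow_succ, mul_comm (b ^ s) b, ← Nat.div_div_eq_div_mul,
          Nat.add_mul_div_left _ _ hb, Nat.div_eq_of_lt hx, zero_add]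
      rw [h1]
    · rw [pow_zero, Nat.div_one, Nat.add_mul_mod_self_left, Nat.mod_eq_of_lt hx]

/-- shifted cells -/
noncomputable def gc (b : ℕ) (s : ℝ) (v : ℕ) : ℝ := hc b (((v : ℤ) + ⌊b * s⌋) % b).toNat

theorem gc_nonneg (b : ℕ) (s : ℝ) (v : ℕ) : 0 ≤ gc b s v := hc_nonneg _ _

theorem sum_gc (b : ℕ) (hb : 3 ≤ b) (s : ℝ) : ∑ v ∈ range b, gc b s v ≤ 4 + Real.log b := by
  refine le_trans (le_of_eq ?_) (sum_hc b hb)
  unfold gc
  obtain ⟨t, ht⟩ : ∃ t : ℤ, t = ⌊b * s⌋ := ⟨_, rfl⟩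
  rw [← ht]
  have hb0 : (0 : ℤ) < b := by exact_mod_cast (by omega : 0 < b)
  have hmaps : ∀ v ∈ range b, (((v : ℤ) + t) % b).toNat ∈ range b := by
    intro v _
    rw [mem_range]
    have h1 := Int.emod_lt_of_pos ((v : ℤ) + t) hb0
    have h2 := Int.emod_nonneg ((v : ℤ) + t) hb0.ne'
    omega
  have hinj : Set.InjOn (fun v : ℕ => (((v : ℤ) + t) % b).toNat) (range b : Set ℕ) := by
    intro v hv v' hv' h
    rw [Finset.mem_coe, mem_range] at hv hv'
    simp only at h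
    have h1 := Int.emod_nonneg ((v : ℤ) + t) hb0.ne'
    have h2 := Int.emod_nonneg ((v' : ℤ) + t) hb0.ne'
    have h3 : ((v : ℤ) + t) % b = ((v' : ℤ) + t) % b := by omega
    have h4 : ((v : ℤ) + t) ≡ ((v' : ℤ) + t) [ZMOD b] := h3
    have h5 : (v : ℤ) ≡ v' [ZMOD b] := Int.ModEq.add_right_cancel' t h4
    have h6 : v ≡ v' [MOD b] := (Int.natCast_modEq_iff).1 h5
    have h7 : v % b = v' % b := h6
    rw [Nat.mod_eq_of_lt hv, Nat.mod_eq_of_lt hv'] at h7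
    exact h7
  have himg : (range b).image (fun v : ℕ => (((v : ℤ) + t) % b).toNat) = range b := by
    apply Finset.eq_of_subset_of_card_le
    · intro x hx
      obtain ⟨a, ha, rfl⟩ := Finset.mem_image.1 hx
      exact hmaps a ha
    · rw [Finset.card_image_of_injOn hinj]
  conv_rhs => rw [← himg]
  rw [Finset.sum_image (fun a ha a' ha' h => hinj ha ha' h)]

theorem gc_bound (b : ℕ) (hb : 2 ≤ b) (q a j : ℕ) (hq : 0 < q) (s : ℝ) :
    ‖phi b (b ^ j * ((a : ℝ) / q) + s)‖ / b ≤ gc b s (a * b ^ (j + 1) / q % b) := by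
  have hb0 : (0 : ℝ) < b := by exact_mod_cast (by omega : 0 < b)
  have hbz : (0 : ℤ) < b := by exact_mod_cast (by omega : 0 < b)
  have hq0 : (0 : ℝ) < q := by exact_mod_cast hq
  obtain ⟨N, hN⟩ : ∃ N, N = a * b ^ (j + 1) / q := ⟨_, rfl⟩
  rw [← hN]
  obtain ⟨v, hv⟩ : ∃ v, v = N % b := ⟨_, rfl⟩
  obtain ⟨m, hm⟩ : ∃ m, m = N / b := ⟨_, rfl⟩
  rw [← hv]
  have hNe : N = v + b * m := by rw [hv, hm]; exact (Nat.mod_add_div N b).symm
  have h1 : (N : ℝ) ≤ b * (b ^ j * ((a : ℝ) / q)) := by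
    have e1 : (b : ℝ) * (b ^ j * ((a : ℝ) / q)) = a * b ^ (j + 1) / q := by
      rw [pow_succ]; field_simp
    rw [e1, le_div_iff₀ hq0]
    have : N * q ≤ a * b ^ (j + 1) := by rw [hN]; exact Nat.div_mul_le_self _ _
    exact_mod_cast this
  have h2 : (b : ℝ) * (b ^ j * ((a : ℝ) / q)) < N + 1 := by
    have e1 : (b : ℝ) * (b ^ j * ((a : ℝ) / q)) = a * b ^ (j + 1) / q := by
      rw [pow_succ]; field_simp
    rw [e1, div_lt_iff₀ hq0]
    have : a * b ^ (j + 1) < (N + 1) * q := by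
      rw [hN]
      have := Nat.lt_mul_div_succ (a * b ^ (j + 1)) hq
      linarith
    exact_mod_cast this
  obtain ⟨t, ht⟩ : ∃ t : ℤ, t = ⌊b * s⌋ := ⟨_, rfl⟩
  have ht1 : (t : ℝ) ≤ b * s := by rw [ht]; exact Int.floor_le _
  have ht2 : (b : ℝ) * s < t + 1 := by rw [ht]; exact Int.lt_floor_add_one _
  unfold gc
  rw [← ht]
  obtain ⟨w, hw⟩ : ∃ w : ℕ, w = (((v : ℤ) + t) % b).toNat := ⟨_, rfl⟩
  rw [← hw]
  have hw1 : (w : ℤ) = ((v : ℤ) + t) % b := by
    rw [hw]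
    exact Int.toNat_of_nonneg (Int.emod_nonneg _ hbz.ne')
  have hw2 : (v : ℤ) + t = w + b * (((v : ℤ) + t) / b) := by
    rw [hw1]
    exact (Int.emod_add_mul_ediv _ _).symm
  obtain ⟨n2, hn2⟩ : ∃ n2 : ℤ, n2 = ((v : ℤ) + t) / b := ⟨_, rfl⟩
  rw [← hn2] at hw2
  have hw3 : (v : ℝ) + t = w + b * n2 := by exact_mod_cast hw2
  have hNe' : (N : ℝ) = v + b * m := by exact_mod_cast hNe
  obtain ⟨X, hX⟩ : ∃ X : ℝ, X = b ^ j * ((a : ℝ) / q) := ⟨_, rfl⟩
  rw [← hX] at h1 h2 ⊢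
  apply hc_bound b hb w ((m : ℤ) + n2)
  · push_cast
    have : (m : ℝ) + n2 + w / b = (b * m + b * n2 + w) / b := by field_simp
    rw [this, div_le_iff₀ hb0]
    linarith
  · push_cast
    have : (m : ℝ) + n2 + (w + 2) / b = (b * m + b * n2 + w + 2) / b := by field_simp; ring
    rw [this, le_div_iff₀ hb0]
    linarith

/-- the average of the products over reduced fractions -/
theorem avgP (b : ℕ) (hb : 3 ≤ b) (i : ℕ) (s : ℕ → ℝ) (Q : Finset ℕ)
    (hQ : ∀ q ∈ Q, 0 < q ∧ q ≤ b ^ i) :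
    ∑ q ∈ Q, ∑ a ∈ Red q, ∏ j ∈ range (2 * i), (‖phi b (b ^ j * ((a : ℝ) / q) + s j)‖ / b) ≤
      (4 + Real.log b) ^ (2 * i) := by
  have hb0 : 0 < b := by omega
  obtain ⟨K, hK⟩ : ∃ K, K = 2 * i := ⟨_, rfl⟩
  rw [← hK]
  obtain ⟨W, hW⟩ : ∃ W : ℕ → ℝ, W = fun u => ∏ t ∈ range K, gc b (s (K - 1 - t)) (u / b ^ t % b) :=
    ⟨_, rfl⟩
  have hWn : ∀ u, 0 ≤ W u := by
    intro u
    rw [hW]
    exact Finset.prod_nonneg fun _ _ => gc_nonneg _ _ _
  have hXeq : b ^ K = b ^ i * b ^ i := by rw [hK, ← pow_add]; congr 1; ring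
  have h1 : ∑ q ∈ Q, ∑ a ∈ Red q, ∏ j ∈ range K, (‖phi b (b ^ j * ((a : ℝ) / q) + s j)‖ / b) ≤
      ∑ q ∈ Q, ∑ a ∈ Red q, W (a * b ^ K / q) := by
    apply Finset.sum_le_sum
    intro q hq
    apply Finset.sum_le_sum
    intro a _
    rw [hW]
    simp only
    rw [← Finset.prod_range_reflect]
    apply Finset.prod_le_prod
    · intro j _
      positivity
    · intro t ht
      rw [mem_range] at ht
      have h2 : a * b ^ K / q / b ^ t = a * b ^ (K - 1 - t + 1) / q := by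
        have h3 : b ^ K = b ^ (K - 1 - t + 1) * b ^ t := by
          rw [← pow_add]; congr 1; omega
        rw [Nat.div_div_eq_div_mul, h3, ← mul_assoc, Nat.mul_div_mul_right _ _ (by positivity)]
      rw [h2]
      exact gc_bound b (by omega) q a (K - 1 - t) (hQ q hq).1 _
  refine h1.trans ?_
  rw [Finset.sum_sigma' Q (fun q => Red q) (fun q a => W (a * b ^ K / q))]
  have hinj : Set.InjOn (fun x : (_ : ℕ) × ℕ => x.2 * b ^ K / x.1)
      (Q.sigma fun q => Red q : Set ((_ : ℕ) × ℕ)) := by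
    rintro ⟨q, a⟩ hx ⟨q', a'⟩ hx' h
    rw [Finset.mem_coe, Finset.mem_sigma] at hx hx'
    obtain ⟨hx1, hx2⟩ := hx
    obtain ⟨hx1', hx2'⟩ := hx'
    simp only at hx1 hx2 hx1' hx2' h
    unfold Red at hx2 hx2'
    rw [mem_filter] at hx2 hx2'
    obtain ⟨e1, e2⟩ := cell_inj (b ^ K) q a q' a' (b ^ i) hXeq (hQ q hx1).1 (hQ q' hx1').1
      (hQ q hx1).2 (hQ q' hx1').2 hx2.2 hx2'.2 h
    subst e1
    subst e2
    rfl
  have h2 : ∑ x ∈ Q.sigma fun q => Red q, W (x.2 * b ^ K / x.1) =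
      ∑ u ∈ (Q.sigma fun q => Red q).image (fun x : (_ : ℕ) × ℕ => x.2 * b ^ K / x.1), W u := by
    rw [Finset.sum_image (fun x hx y hy h => hinj hx hy h)]
  rw [h2]
  have h3 : ∑ u ∈ (Q.sigma fun q => Red q).image (fun x : (_ : ℕ) × ℕ => x.2 * b ^ K / x.1), W u ≤
      ∑ u ∈ range (b ^ K), W u := by
    apply Finset.sum_le_sum_of_subset_of_nonneg
    · intro u hu
      obtain ⟨⟨q, a⟩, hx, rfl⟩ := Finset.mem_image.1 hu
      rw [Finset.mem_sigma] at hx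
      obtain ⟨hx1, hx2⟩ := hx
      simp only at hx1 hx2 ⊢
      unfold Red at hx2
      rw [mem_filter, mem_range] at hx2
      rw [mem_range]
      apply Nat.div_lt_of_lt_mul
      have hB0 : 0 < b ^ K := by positivity
      exact Nat.mul_lt_mul_of_pos_right hx2.1 hB0
    · intro u _ _
      exact hWn u
  refine h3.trans ?_
  rw [hW, prod_digits b hb0 K (fun t v => gc b (s (K - 1 - t)) v)]
  calc ∏ t ∈ range K, ∑ v ∈ range b, gc b (s (K - 1 - t)) v ≤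
        ∏ t ∈ range K, (4 + Real.log b) :=
        Finset.prod_le_prod (fun _ _ => Finset.sum_nonneg fun _ _ => gc_nonneg _ _ _)
          (fun _ _ => sum_gc b hb _)
    _ = (4 + Real.log b) ^ K := by rw [Finset.prod_const, card_range]

/-- the same for `H` -/
theorem avgH (b : ℕ) (hb : 3 ≤ b) (i L : ℕ) (hL : 2 * i ≤ L) (α t : ℝ) (Q : Finset ℕ)
    (hQ : ∀ q ∈ Q, 0 < q ∧ q ≤ b ^ i) :
    ∑ q ∈ Q, ∑ a ∈ Red q, ‖H b L ((a : ℝ) / q + t) α‖ ≤ b ^ L * (4 + Real.log b) ^ (2 * i) := by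
  have hb0 : (0 : ℝ) < b := by exact_mod_cast (by omega : 0 < b)
  have h1 := avgP b hb i (fun j => b ^ j * t + α * b ^ (L - 1 - j)) Q hQ
  refine le_trans ?_ (mul_le_mul_of_nonneg_left h1 (show (0 : ℝ) ≤ b ^ L by positivity))
  rw [Finset.mul_sum]
  apply Finset.sum_le_sum
  intro q _
  rw [Finset.mul_sum]
  apply Finset.sum_le_sum
  intro a _
  rw [H_prod b (by omega), norm_prod]
  have h2 : ∀ j ∈ range L, ‖phi b (b ^ j * ((a : ℝ) / q + t) + α * b ^ (L - 1 - j))‖ =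
      b * (‖phi b (b ^ j * ((a : ℝ) / q) + (b ^ j * t + α * b ^ (L - 1 - j)))‖ / b) := by
    intro j _
    have : (b : ℝ) ^ j * ((a : ℝ) / q + t) + α * b ^ (L - 1 - j) =
        b ^ j * ((a : ℝ) / q) + (b ^ j * t + α * b ^ (L - 1 - j)) := by ring
    rw [this]
    field_simp
  rw [Finset.prod_congr rfl h2, Finset.prod_mul_distrib, Finset.prod_const, card_range]
  apply mul_le_mul_of_nonneg_left _ (by positivity)
  obtain ⟨f, hf⟩ : ∃ f : ℕ → ℝ, f = fun j =>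
    ‖phi b (b ^ j * ((a : ℝ) / q) + (b ^ j * t + α * b ^ (L - 1 - j)))‖ / b := ⟨_, rfl⟩
  have hf0 : ∀ j, 0 ≤ f j := by intro j; rw [hf]; positivity
  have hf1 : ∀ j, f j ≤ 1 := by
    intro j
    rw [hf]
    simp only
    rw [div_le_one hb0]
    exact norm_phi_le b _
  have h3 : ∏ j ∈ range L, f j ≤ ∏ j ∈ range (2 * i), f j := by
    rw [← Finset.prod_range_mul_prod_Ico f hL]
    exact mul_le_of_le_one_right (Finset.prod_nonneg fun j _ => hf0 j)
      (Finset.prod_le_one (fun j _ => hf0 j) (fun j _ => hf1 j))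
  rw [hf] at h3
  exact h3

end Pool.Agent.X35.RQ
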