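import Pool.Agent.X35.RQ.Four
import Pool.Agent.X35.RQ.AP

/-!
# Sums of two reversed primes with given leading digits
-/

set_option autoImplicit false

open Finset Filter

namespace Pool.Agent.X35.RQ

open Pool.Agent.X35.RP (e e_add rv rv_lt rv_inj Sw sq_sum card_energy)

/-- the quotients of the primes in a class -/
def Ac (b L e₀ v : ℕ) : Finset ℕ :=
  (Ico (b ^ (L - 1)) (b ^ L)).filter (fun n => n % (b ^ 2 - 1) = v ∧ (e₀ + b * n).Prime)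

theorem log_le (b : ℕ) (hb : 2 ≤ b) (L : ℕ) (hL : 1 ≤ L) :
    Real.log ((b : ℝ) ^ (L + 1)) ≤ 3 * (L * Nat.log 2 b) := by
  have hb0 : (0 : ℝ) < b := by exact_mod_cast (by omega : 0 < b)
  obtain ⟨β, hβ⟩ : ∃ β : ℕ, β = Nat.log 2 b := ⟨_, rfl⟩
  have hβ1 : 1 ≤ β := by
    rw [hβ]
    exact Nat.log_pos (by norm_num) (by omega)
  have h1 : b < 2 ^ (β + 1) := by rw [hβ]; exact Nat.lt_pow_succ_log_self (by norm_num) b
  have h2 : Real.log b ≤ (β + 1) * Real.log 2 := by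
    have h3 : (b : ℝ) ≤ 2 ^ (β + 1) := by exact_mod_cast h1.le
    have h4 := Real.log_le_log hb0 h3
    rw [Real.log_pow] at h4
    push_cast at h4
    exact h4
  have hl2 : Real.log 2 < 0.6931471808 := Real.log_two_lt_d9
  have hl20 : 0 < Real.log 2 := Real.log_pos (by norm_num)
  rw [← hβ, Real.log_pow]
  push_cast
  have hβr : (1 : ℝ) ≤ β := by exact_mod_cast hβ1
  have hLr : (1 : ℝ) ≤ L := by exact_mod_cast hL
  have h5 : Real.log b ≤ 1.4 * β := by nlinarith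
  have h6 : 0 ≤ Real.log b := Real.log_natCast_nonneg b
  calc ((L : ℝ) + 1) * Real.log b ≤ (2 * L) * (1.4 * β) := by
        apply mul_le_mul (by linarith) h5 h6 (by positivity)
    _ ≤ 3 * (L * β) := by nlinarith [mul_pos (by linarith : (0:ℝ) < L) (by linarith : (0:ℝ) < β)]

theorem Ac_card (b : ℕ) (hb : 2 ≤ b) (e₀ v : ℕ) (he : e₀ < b) (hc : Nat.Coprime e₀ b)
    (hv : v < b ^ 2 - 1) (hc2 : Nat.Coprime (e₀ + b * v) (b ^ 2 - 1)) :
    ∃ L0 : ℕ, 2 ≤ L0 ∧ ∀ L : ℕ, L0 ≤ L →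
      (b : ℝ) ^ (L + 1) / (24 * Nat.totient (b * (b ^ 2 - 1)) * (L * Nat.log 2 b)) ≤
        (Ac b L e₀ v).card := by
  have hb4 : 4 ≤ b ^ 2 := by nlinarith
  obtain ⟨m, hm⟩ : ∃ m : ℕ, m = b ^ 2 - 1 := ⟨_, rfl⟩
  have hm0 : 0 < m := by omega
  rw [← hm] at hv hc2 ⊢
  have hbm : 0 < b * m := Nat.mul_pos (by omega) hm0
  have hcop : Nat.Coprime (e₀ + b * v) (b * m) := by
    apply Nat.Coprime.mul_right _ hc2
    rw [Nat.coprime_add_mul_left_left]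
    exact hc
  obtain ⟨L0, hL02, hL0⟩ := primes_block b (b * m) (e₀ + b * v) hb hbm hcop
  refine ⟨L0, hL02, ?_⟩
  intro L hL
  have h1 := hL0 L hL
  have h2 : ((Ico (b ^ L) (b ^ (L + 1))).filter
      (fun p => p.Prime ∧ p ≡ e₀ + b * v [MOD b * m])).card ≤ (Ac b L e₀ v).card := by
    apply Finset.card_le_card_of_injOn (fun p => p / b)
    · intro p hp
      rw [Finset.mem_coe, mem_filter, mem_Ico] at hp
      obtain ⟨⟨hp1, hp2⟩, hp3, hp4⟩ := hp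
      have hpb : p % b = e₀ := by
        have h3 : p ≡ e₀ + b * v [MOD b] := Nat.ModEq.of_mul_right m hp4
        have h4 : p % b = (e₀ + b * v) % b := h3
        rw [Nat.add_mul_mod_self_left, Nat.mod_eq_of_lt he] at h4
        exact h4
      have hpe : e₀ + b * (p / b) = p := by rw [← hpb]; exact Nat.mod_add_div p b
      rw [Finset.mem_coe]
      show p / b ∈ Ac b L e₀ v
      unfold Ac
      rw [mem_filter, mem_Ico, ← hm, hpe]
      refine ⟨⟨?_, ?_⟩, ?_, hp3⟩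
      · rw [Nat.le_div_iff_mul_le (by omega), ← pow_succ]
        have : L - 1 + 1 = L := by omega
        rw [this]
        exact hp1
      · rw [Nat.div_lt_iff_lt_mul (by omega), ← pow_succ]
        exact hp2
      · have h5 : e₀ + b * (p / b) ≡ e₀ + b * v [MOD b * m] := by rw [hpe]; exact hp4
        have h6 : b * (p / b) ≡ b * v [MOD b * m] := Nat.ModEq.add_left_cancel' e₀ h5
        have h7 : p / b ≡ v [MOD m] := Nat.ModEq.mul_left_cancel' (by omega) h6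
        have h8 : (p / b) % m = v % m := h7
        rw [Nat.mod_eq_of_lt hv] at h8
        exact h8
    · intro p hp p' hp' h
      rw [Finset.mem_coe, mem_filter, mem_Ico] at hp hp'
      simp only at h
      have key : ∀ p : ℕ, p ≡ e₀ + b * v [MOD b * m] → p % b = e₀ := by
        intro p hp4
        have h3 : p ≡ e₀ + b * v [MOD b] := Nat.ModEq.of_mul_right m hp4
        have h4 : p % b = (e₀ + b * v) % b := h3
        rw [Nat.add_mul_mod_self_left, Nat.mod_eq_of_lt he] at h4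
        exact h4
      rw [← Nat.mod_add_div p b, ← Nat.mod_add_div p' b, h, key p hp.2.2, key p' hp'.2.2]
  have h3 : (((Ico (b ^ L) (b ^ (L + 1))).filter
      (fun p => p.Prime ∧ p ≡ e₀ + b * v [MOD b * m])).card : ℝ) ≤ (Ac b L e₀ v).card := by
    exact_mod_cast h2
  refine le_trans ?_ (h1.trans h3)
  have h4 := log_le b hb L (by omega)
  have hφ : (0 : ℝ) < Nat.totient (b * m) := by exact_mod_cast Nat.totient_pos.2 hbm
  have h5 : 0 < Real.log ((b : ℝ) ^ (L + 1)) := by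
    apply Real.log_pos
    apply one_lt_pow₀ _ (by omega)
    exact_mod_cast (by omega : 1 < b)
  apply div_le_div_of_nonneg_left (by positivity) (by positivity)
  calc 8 * (Nat.totient (b * m) : ℝ) * Real.log ((b : ℝ) ^ (L + 1)) ≤
        8 * (Nat.totient (b * m) : ℝ) * (3 * (L * Nat.log 2 b)) :=
        mul_le_mul_of_nonneg_left h4 (by positivity)
    _ = _ := by ring

/-- the sums of two quotients, by classes -/
def Tc (b L e₁ v₁ e₂ v₂ : ℕ) : Finset ℕ :=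
  (Ac b L e₁ v₁ ×ˢ Ac b L e₂ v₂).image (fun x => rv b L x.1 + rv b L x.2)

theorem pair : ∃ C4 : ℝ, 0 < C4 ∧ ∀ b : ℕ, 3 ≤ b → 2 * (4 + Real.log b) ^ 2 ≤ b →
    ∀ e₁ v₁ e₂ v₂ : ℕ, 0 < e₁ → e₁ < b → Nat.Coprime e₁ b → v₁ < b ^ 2 - 1 →
      Nat.Coprime (e₁ + b * v₁) (b ^ 2 - 1) → 0 < e₂ → e₂ < b → Nat.Coprime e₂ b →
      v₂ < b ^ 2 - 1 → Nat.Coprime (e₂ + b * v₂) (b ^ 2 - 1) →
    ∃ L0 : ℕ, 2 ≤ L0 ∧ ∀ L : ℕ, L0 ≤ L →
      (b : ℝ) ^ L / (C4 * ((b ^ 2 - 1 : ℕ) : ℝ)) ≤ (Tc b L e₁ v₁ e₂ v₂).card := by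
  obtain ⟨C3, hC3, hmain⟩ := main4
  refine ⟨24 ^ 4 * C3, by positivity, ?_⟩
  intro b hb hlog e₁ v₁ e₂ v₂ he1 he1b hc1 hv1 hcv1 he2 he2b hc2 hv2 hcv2
  have hb0 : (0 : ℝ) < b := by exact_mod_cast (by omega : 0 < b)
  have hb4 : 4 ≤ b ^ 2 := by nlinarith
  obtain ⟨L1, hL12, hL1⟩ := hmain b hb hlog
  obtain ⟨L2, hL22, hL2⟩ := Ac_card b (by omega) e₁ v₁ he1b hc1 hv1 hcv1
  obtain ⟨L3, hL32, hL3⟩ := Ac_card b (by omega) e₂ v₂ he2b hc2 hv2 hcv2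
  refine ⟨max L1 (max L2 L3), by omega, ?_⟩
  intro L hL
  obtain ⟨w₁, hw10, hw11, hw1⟩ := hL1 L (by omega) e₁ v₁ he1 he1b hv1
  obtain ⟨w₂, hw20, hw21, hw2⟩ := hL1 L (by omega) e₂ v₂ he2 he2b hv2
  have hA1 := hL2 L (by omega)
  have hA2 := hL3 L (by omega)
  obtain ⟨m, hm⟩ : ∃ m : ℕ, m = b ^ 2 - 1 := ⟨_, rfl⟩
  rw [← hm] at hw11 hw1 hw21 hw2 hA1 hA2 ⊢
  have hm0 : 0 < m := by omega
  have hmr : (0 : ℝ) < m := by exact_mod_cast hm0
  have hLr : (0 : ℝ) < L := by exact_mod_cast (by omega : 0 < L)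
  obtain ⟨φ, hφ⟩ : ∃ φ : ℝ, φ = Nat.totient (b * m) := ⟨_, rfl⟩
  have hφ0 : 0 < φ := by
    rw [hφ]
    exact_mod_cast Nat.totient_pos.2 (Nat.mul_pos (by omega) hm0)
  rw [← hφ] at hw1 hw2 hA1 hA2
  obtain ⟨β, hβ⟩ : ∃ β : ℕ, β = Nat.log 2 b := ⟨_, rfl⟩
  have hβ1 : 1 ≤ β := by
    rw [hβ]
    exact Nat.log_pos (by norm_num) (by omega)
  have hβr : (0 : ℝ) < β := by exact_mod_cast hβ1
  rw [← hβ] at hw1 hw2 hA1 hA2
  obtain ⟨Bd, hBd⟩ : ∃ Bd : ℝ, Bd = C3 * ((b : ℝ) ^ L) ^ 4 / (m : ℝ) ^ 3 *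
      ((((b * m : ℕ) : ℝ) / φ) / (L * β)) ^ 4 := ⟨_, rfl⟩
  rw [← hBd] at hw1 hw2
  obtain ⟨g, hg⟩ : ∃ g : ℕ × ℕ → ℕ, g = fun x => rv b L x.1 + rv b L x.2 := ⟨_, rfl⟩
  obtain ⟨I, hI⟩ : ∃ I : Finset ℕ, I = range (b ^ L) := ⟨_, rfl⟩
  obtain ⟨Q₁, hQ₁⟩ : ∃ Q₁ : Finset ℕ, Q₁ = Ac b L e₁ v₁ := ⟨_, rfl⟩
  obtain ⟨Q₂, hQ₂⟩ : ∃ Q₂ : Finset ℕ, Q₂ = Ac b L e₂ v₂ := ⟨_, rfl⟩
  have hAc : ∀ e₀ v n : ℕ, n ∈ Ac b L e₀ v →
      n ∈ I ∧ n % m = v ∧ (e₀ + b * n).Prime ∧ b ^ (L - 1) ≤ n := by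
    intro e₀ v n hn
    unfold Ac at hn
    rw [mem_filter, mem_Ico, ← hm] at hn
    exact ⟨by rw [hI, mem_range]; exact hn.1.2, hn.2.1, hn.2.2, hn.1.1⟩
  have hQI1 : Q₁ ⊆ I := fun n hn => (hAc e₁ v₁ n (by rw [← hQ₁]; exact hn)).1
  have hQI2 : Q₂ ⊆ I := fun n hn => (hAc e₂ v₂ n (by rw [← hQ₂]; exact hn)).1
  have hQw1 : ∀ n ∈ Q₁, w₁ n = 1 := by
    intro n hn
    have h := hAc e₁ v₁ n (by rw [← hQ₁]; exact hn)
    exact hw11 n h.2.1 h.2.2.1 h.2.2.2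
  have hQw2 : ∀ n ∈ Q₂, w₂ n = 1 := by
    intro n hn
    have h := hAc e₂ v₂ n (by rw [← hQ₂]; exact hn)
    exact hw21 n h.2.1 h.2.2.1 h.2.2.2
  have h1 := sq_sum (b ^ L) (by positivity) (I ×ˢ I) (fun x => w₁ x.1 * w₂ x.2)
    (fun x _ => mul_nonneg (hw10 _) (hw20 _)) g
  have h2 : ∑ k ∈ range (b ^ L), ‖∑ x ∈ I ×ˢ I, ((w₁ x.1 * w₂ x.2 : ℝ) : ℂ) *
      e (k * (((g x : ℤ) : ℝ) / ((b ^ L : ℕ) : ℝ)))‖ ^ 2 ≤ Bd := by
    have h3 : ∀ k ∈ range (b ^ L), ‖∑ x ∈ I ×ˢ I, ((w₁ x.1 * w₂ x.2 : ℝ) : ℂ) *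
        e (k * (((g x : ℤ) : ℝ) / ((b ^ L : ℕ) : ℝ)))‖ ^ 2 ≤
        1 / 2 * ‖Sw b L w₁ k‖ ^ 4 + 1 / 2 * ‖Sw b L w₂ k‖ ^ 4 := by
      intro k _
      have h4 : ∑ x ∈ I ×ˢ I, ((w₁ x.1 * w₂ x.2 : ℝ) : ℂ) *
          e (k * (((g x : ℤ) : ℝ) / ((b ^ L : ℕ) : ℝ))) = Sw b L w₁ k * Sw b L w₂ k := by
        unfold Sw
        rw [Finset.sum_mul_sum, Finset.sum_product, hI]
        apply Finset.sum_congr rfl
        intro x _
        apply Finset.sum_congr rfl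
        intro n _
        have h5 : e (k * (((g (x, n) : ℤ) : ℝ) / ((b ^ L : ℕ) : ℝ))) =
            e (k * (((rv b L x : ℤ) : ℝ) / ((b ^ L : ℕ) : ℝ))) *
            e (k * (((rv b L n : ℤ) : ℝ) / ((b ^ L : ℕ) : ℝ))) := by
          rw [← e_add, hg]
          congr 1
          push_cast
          ring
        rw [h5]
        push_cast
        ring
      rw [h4, norm_mul]
      nlinarith [sq_nonneg (‖Sw b L w₁ k‖ ^ 2 - ‖Sw b L w₂ k‖ ^ 2)]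
    refine (Finset.sum_le_sum h3).trans ?_
    rw [Finset.sum_add_distrib, ← Finset.mul_sum, ← Finset.mul_sum]
    linarith
  have h3 := h1.trans h2
  obtain ⟨E, hE⟩ : ∃ E : ℝ, E = ∑ x ∈ Q₁ ×ˢ Q₂, ∑ y ∈ Q₁ ×ˢ Q₂, (if g x = g y then (1 : ℝ) else 0) :=
    ⟨_, rfl⟩
  have h4 : E ≤ ∑ x ∈ I ×ˢ I, ∑ y ∈ I ×ˢ I,
      (if g x = g y then (w₁ x.1 * w₂ x.2) * (w₁ y.1 * w₂ y.2) else 0) := by
    rw [hE]
    have hsub : Q₁ ×ˢ Q₂ ⊆ I ×ˢ I := Finset.product_subset_product hQI1 hQI2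
    have hnn : ∀ x y : ℕ × ℕ,
        0 ≤ (if g x = g y then (w₁ x.1 * w₂ x.2) * (w₁ y.1 * w₂ y.2) else 0) := by
      intro x y
      split_ifs
      · exact mul_nonneg (mul_nonneg (hw10 _) (hw20 _)) (mul_nonneg (hw10 _) (hw20 _))
      · exact le_rfl
    calc _ = ∑ x ∈ Q₁ ×ˢ Q₂, ∑ y ∈ Q₁ ×ˢ Q₂,
          (if g x = g y then (w₁ x.1 * w₂ x.2) * (w₁ y.1 * w₂ y.2) else 0) := by
          apply Finset.sum_congr rfl
          intro x hx
          apply Finset.sum_congr rfl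
          intro y hy
          rw [mem_product] at hx hy
          rw [hQw1 _ hx.1, hQw2 _ hx.2, hQw1 _ hy.1, hQw2 _ hy.2]
          norm_num
      _ ≤ ∑ x ∈ Q₁ ×ˢ Q₂, ∑ y ∈ I ×ˢ I,
          (if g x = g y then (w₁ x.1 * w₂ x.2) * (w₁ y.1 * w₂ y.2) else 0) := by
          apply Finset.sum_le_sum
          intro x _
          exact Finset.sum_le_sum_of_subset_of_nonneg hsub (fun y _ _ => hnn x y)
      _ ≤ _ := Finset.sum_le_sum_of_subset_of_nonneg hsub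
          (fun x _ _ => Finset.sum_nonneg fun y _ => hnn x y)
  have h5 : (b : ℝ) ^ L * E ≤ Bd := by
    refine le_trans ?_ h3
    push_cast
    exact mul_le_mul_of_nonneg_left h4 (by positivity)
  have h6 := card_energy (Q₁ ×ˢ Q₂) g
  rw [← hE] at h6
  have h7 : ((Q₁ ×ˢ Q₂).image g).card = (Tc b L e₁ v₁ e₂ v₂).card := by
    unfold Tc
    rw [hQ₁, hQ₂, hg]
  rw [h7, Finset.card_product] at h6
  rw [← hQ₁] at hA1
  rw [← hQ₂] at hA2
  push_cast at h6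
  obtain ⟨t, ht⟩ : ∃ t : ℝ, t = (b : ℝ) ^ (L + 1) / (24 * φ * (L * β)) := ⟨_, rfl⟩
  rw [← ht] at hA1 hA2
  have ht0 : 0 < t := by rw [ht]; positivity
  obtain ⟨N, hN⟩ : ∃ N : ℝ, N = (Tc b L e₁ v₁ e₂ v₂).card := ⟨_, rfl⟩
  rw [← hN] at h6 ⊢
  have hN0 : 0 ≤ N := by rw [hN]; exact Nat.cast_nonneg _
  have h8 : t ^ 4 ≤ N * E := by
    refine le_trans ?_ h6
    calc t ^ 4 = (t * t) ^ 2 := by ring
      _ ≤ _ := by
          apply pow_le_pow_left₀ (by positivity)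
          exact mul_le_mul hA1 hA2 ht0.le (Nat.cast_nonneg _)
  have h9 : (b : ℝ) ^ L * t ^ 4 ≤ N * Bd := by
    calc (b : ℝ) ^ L * t ^ 4 ≤ (b : ℝ) ^ L * (N * E) := mul_le_mul_of_nonneg_left h8 (by positivity)
      _ = N * ((b : ℝ) ^ L * E) := by ring
      _ ≤ N * Bd := mul_le_mul_of_nonneg_left h5 hN0
  have hBd0 : 0 < Bd := by
    rw [hBd]
    have : (0 : ℝ) < ((b * m : ℕ) : ℝ) := by exact_mod_cast Nat.mul_pos (by omega : 0 < b) hm0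
    positivity
  have h10 : (b : ℝ) ^ L / (24 ^ 4 * C3 * m) = (b : ℝ) ^ L * t ^ 4 / Bd := by
    rw [hBd, ht]
    push_cast
    field_simp
    ring
  rw [h10, div_le_iff₀ hBd0]
  exact h9

/-- the reversal modulo `b² - 1` -/
theorem rv_mod (b : ℕ) (hb : 2 ≤ b) (L : ℕ) : ∀ n : ℕ, n < b ^ L →
    b * rv b L n ≡ b ^ L * n [MOD b ^ 2 - 1] := by
  have hb4 : 4 ≤ b ^ 2 := by nlinarith
  have hb2 : b ^ 2 ≡ 1 [MOD b ^ 2 - 1] := by
    have h : 1 ≡ b ^ 2 [MOD b ^ 2 - 1] := (Nat.modEq_iff_dvd' (by omega)).2 (dvd_refl _)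
    exact h.symm
  induction L with
  | zero => intro n hn; rw [pow_zero] at hn; have : n = 0 := by omega
            subst this; simp [rv]; rfl
  | succ L ih =>
    intro n hn
    have h1 := ih (n / b) (by
      rw [Nat.div_lt_iff_lt_mul (by omega), ← pow_succ]; exact hn)
    have h2 : b * rv b (L + 1) n = (n % b) * b ^ (L + 1) + b * rv b L (n / b) := by
      rw [rv]; ring
    have h3 : b ^ (L + 1) * n = (n % b) * b ^ (L + 1) + b ^ 2 * (b ^ L * (n / b)) := by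
      conv_lhs => rw [← Nat.mod_add_div n b]
      ring
    rw [h2, h3]
    apply Nat.ModEq.add_left
    refine h1.trans ?_
    have h4 := Nat.ModEq.mul_right (b ^ L * (n / b)) hb2
    rw [one_mul] at h4
    exact h4.symm

/-- sums of two units -/
theorem units_sum (m s : ℕ) (hm : 0 < m) (hs : Even m → Even s) :
    ∃ u₁ u₂ : ℕ, Nat.Coprime u₁ m ∧ Nat.Coprime u₂ m ∧ u₁ + u₂ ≡ s [MOD m] := by
  -- replace `s` by `s + m`
  obtain ⟨r, hr⟩ : ∃ r, r = s + m := ⟨_, rfl⟩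
  have hr1 : 1 ≤ r := by omega
  have hre : Even m → Even r := by
    intro h
    rw [hr]
    exact (hs h).add h
  obtain ⟨P₁, hP₁⟩ : ∃ P₁, P₁ = m.primeFactors.filter (fun p => ¬ p ∣ r - 1) := ⟨_, rfl⟩
  obtain ⟨P₂, hP₂⟩ : ∃ P₂, P₂ = m.primeFactors.filter (fun p => p ∣ r - 1) := ⟨_, rfl⟩
  have hcop : Nat.Coprime (∏ p ∈ P₁, p) (∏ p ∈ P₂, p) := by
    apply Nat.Coprime.prod_left
    intro p hp
    apply Nat.Coprime.prod_right
    intro q hq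
    rw [hP₁, mem_filter] at hp
    rw [hP₂, mem_filter] at hq
    rw [Nat.coprime_primes (Nat.prime_of_mem_primeFactors hp.1) (Nat.prime_of_mem_primeFactors hq.1)]
    intro h
    rw [h] at hp
    exact hp.2 hq.2
  have hA2 : 1 ≤ ∏ p ∈ P₂, p := by
    rw [Nat.one_le_iff_ne_zero, ← Nat.pos_iff_ne_zero]
    apply Finset.prod_pos
    intro p hp
    rw [hP₂, mem_filter] at hp
    exact (Nat.prime_of_mem_primeFactors hp.1).pos
  obtain ⟨k, hk1, hk2⟩ := Nat.chineseRemainder hcop 1 ((∏ p ∈ P₂, p) - 1)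
  have hkP1 : ∀ p ∈ P₁, k ≡ 1 [MOD p] := fun p hp => hk1.of_dvd (Finset.dvd_prod_of_mem _ hp)
  have hkP2 : ∀ p ∈ P₂, k + 1 ≡ 0 [MOD p] := by
    intro p hp
    have h1 : k ≡ (∏ p ∈ P₂, p) - 1 [MOD p] := hk2.of_dvd (Finset.dvd_prod_of_mem _ hp)
    have h2 := h1.add_right 1
    rw [Nat.sub_add_cancel hA2] at h2
    exact h2.trans ((Nat.modEq_zero_iff_dvd).2 (Finset.dvd_prod_of_mem _ hp))
  have hmem : ∀ p : ℕ, p.Prime → p ∣ m → p ∈ P₁ ∨ p ∈ P₂ := by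
    intro p hp hpm
    have h1 : p ∈ m.primeFactors := Nat.mem_primeFactors.2 ⟨hp, hpm, by omega⟩
    by_cases h : p ∣ r - 1
    · right; rw [hP₂, mem_filter]; exact ⟨h1, h⟩
    · left; rw [hP₁, mem_filter]; exact ⟨h1, h⟩
  refine ⟨k, r + (m - 1) * k, ?_, ?_, ?_⟩
  · apply Nat.coprime_of_dvd
    intro p hp hpk hpm
    rcases hmem p hp hpm with h | h
    · have h1 : 0 ≡ 1 [MOD p] := ((Nat.modEq_zero_iff_dvd).2 hpk).symm.trans (hkP1 p h)
      have h2 := (Nat.modEq_iff_dvd' (by norm_num : 0 ≤ 1)).1 h1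
      have := Nat.le_of_dvd one_pos h2
      have := hp.two_le
      omega
    · have h1 : k + 1 ≡ 0 + 1 [MOD p] := ((Nat.modEq_zero_iff_dvd).2 hpk).add_right 1
      have h2 : 0 ≡ 1 [MOD p] := (hkP2 p h).symm.trans h1
      have h3 := (Nat.modEq_iff_dvd' (by norm_num : 0 ≤ 1)).1 h2
      have := Nat.le_of_dvd one_pos h3
      have := hp.two_le
      omega
  · apply Nat.coprime_of_dvd
    intro p hp hpu hpm
    -- `r + (m - 1) k + k ≡ r`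
    have h0 : r + (m - 1) * k + k ≡ r [MOD p] := by
      have h1 : r + (m - 1) * k + k = r + m * k := by
        obtain ⟨c, rfl⟩ : ∃ c, m = c + 1 := ⟨m - 1, by omega⟩
        simp only [Nat.add_sub_cancel]
        ring
      rw [h1]
      have h2 : m * k ≡ 0 [MOD p] := (Nat.modEq_zero_iff_dvd).2 (Dvd.dvd.mul_right hpm k)
      have h3 := h2.add_left r
      rw [add_zero] at h3
      exact h3
    have h1 : r + (m - 1) * k + k ≡ k [MOD p] := by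
      have h2 := ((Nat.modEq_zero_iff_dvd).2 hpu).add_right k
      rw [zero_add] at h2
      exact h2
    have h2 : r ≡ k [MOD p] := h0.symm.trans h1
    rcases hmem p hp hpm with h | h
    · have h3 : 1 ≡ r [MOD p] := (h2.trans (hkP1 p h)).symm
      have h4 := (Nat.modEq_iff_dvd' hr1).1 h3
      rw [hP₁, mem_filter] at h
      exact h.2 h4
    · have h3 : r + 1 ≡ 0 [MOD p] := (h2.add_right 1).trans (hkP2 p h)
      have h4 : p ∣ r + 1 := (Nat.modEq_zero_iff_dvd).1 h3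
      rw [hP₂, mem_filter] at h
      have h5 : p ∣ (r + 1) - (r - 1) := Nat.dvd_sub h4 h.2
      have h6 : (r + 1) - (r - 1) = 2 := by omega
      rw [h6] at h5
      have h7 : p = 2 := (Nat.prime_dvd_prime_iff_eq hp Nat.prime_two).1 h5
      subst h7
      have h8 := hre ((even_iff_two_dvd).2 hpm)
      have h9 : Even (r - 1) := (even_iff_two_dvd).2 h.2
      rw [Nat.even_iff] at h8 h9
      omega
  · have h1 : k + (r + (m - 1) * k) = s + m * (1 + k) := by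
      rw [hr]
      obtain ⟨c, rfl⟩ : ∃ c, m = c + 1 := ⟨m - 1, by omega⟩
      simp only [Nat.add_sub_cancel]
      ring
    rw [h1]
    have h2 : m * (1 + k) ≡ 0 [MOD m] := (Nat.modEq_zero_iff_dvd).2 (Dvd.intro _ rfl)
    have h3 := h2.add_left s
    rw [add_zero] at h3
    exact h3

end Pool.Agent.X35.RQ
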