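import Pool.Agent.X35.RP.Far

/-!
# Uniform bounds for the exponential sum over digit reversals
-/

set_option autoImplicit false

open Finset

namespace Pool.Agent.X35.RQ

open Pool.Agent.X35.RP

theorem norm_phi_le_exp (b : ℕ) (hb : 2 ≤ b) (x : ℝ) :
    ‖phi b x‖ ≤ b * Real.exp (-(2 / b ^ 2 * sg x)) := by
  have h1 := phi_le_exp b hb x
  have h2 : (b : ℝ) ^ 2 * Real.exp (-(4 / b ^ 2 * sg x)) =
      (b * Real.exp (-(2 / b ^ 2 * sg x))) ^ 2 := by
    rw [mul_pow, ← Real.exp_nat_mul]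
    congr 2
    push_cast
    ring
  rw [h2] at h1
  exact le_of_pow_le_pow_left₀ (by norm_num) (by positivity) h1

theorem norm_phi_le (b : ℕ) (x : ℝ) : ‖phi b x‖ ≤ b := by
  unfold phi
  refine (norm_sum_le _ _).trans ?_
  simp [norm_e]

theorem sum_pairs (f : ℕ → ℝ) (l : ℕ) :
    ∑ i ∈ range l, (f (2 * i) + f (2 * i + 1)) = ∑ j ∈ range (2 * l), f j := by
  induction l with
  | zero => simp
  | succ l ih =>
    have : 2 * (l + 1) = 2 * l + 1 + 1 := by ring
    rw [Finset.sum_range_succ, ih, this, Finset.sum_range_succ, Finset.sum_range_succ]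
    ring

/-- the supremum bound -/
theorem H_sup (b : ℕ) (hb : 2 ≤ b) (L l : ℕ) (hl : 2 * l ≤ L) (r α : ℝ) :
    ‖H b L r α‖ ≤ b ^ L * G (1 / b ^ 4) (b ^ 2) l ((((b ^ 2 : ℕ) : ℝ) - 1) * r) := by
  have hb0 : (0 : ℝ) < b := by exact_mod_cast (by omega : 0 < b)
  rw [H_prod b (by omega), norm_prod]
  have h1 : ∏ j ∈ range L, ‖phi b (b ^ j * r + α * b ^ (L - 1 - j))‖ ≤
      ∏ j ∈ range L, (b * Real.exp (-(2 / b ^ 2 * sg (b ^ j * r + α * b ^ (L - 1 - j))))) :=
    Finset.prod_le_prod (fun _ _ => norm_nonneg _) (fun _ _ => norm_phi_le_exp b hb _)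
  refine h1.trans ?_
  rw [Finset.prod_mul_distrib, Finset.prod_const, card_range, ← Real.exp_sum,
    Finset.sum_neg_distrib, ← Finset.mul_sum]
  apply mul_le_mul_of_nonneg_left _ (by positivity)
  unfold G
  apply Real.exp_le_exp.2
  have h2 : ∑ j ∈ range (2 * l), sg (b ^ j * r + α * b ^ (L - 1 - j)) ≤
      ∑ j ∈ range L, sg (b ^ j * r + α * b ^ (L - 1 - j)) := by
    apply Finset.sum_le_sum_of_subset_of_nonneg
    · intro x hx
      rw [mem_range] at hx ⊢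
      omega
    · intro i _ _
      exact sg_nonneg _
  rw [← sum_pairs] at h2
  have h3 : ∀ i ∈ range l, 1 / (2 * (b : ℝ) ^ 2) *
      sg (((b ^ 2 : ℕ) : ℝ) ^ i * ((((b ^ 2 : ℕ) : ℝ) - 1) * r)) ≤
      sg (b ^ (2 * i) * r + α * b ^ (L - 1 - (2 * i))) +
        sg (b ^ (2 * i + 1) * r + α * b ^ (L - 1 - (2 * i + 1))) := by
    intro i hi
    rw [mem_range] at hi
    obtain ⟨x, hx⟩ : ∃ x : ℝ, x = b ^ (2 * i) * r + α * b ^ (L - 1 - (2 * i)) := ⟨_, rfl⟩
    obtain ⟨y, hy⟩ : ∃ y : ℝ, y = b ^ (2 * i + 1) * r + α * b ^ (L - 1 - (2 * i + 1)) := ⟨_, rfl⟩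
    rw [← hx, ← hy]
    have h4 : ((b ^ 2 : ℕ) : ℝ) ^ i * ((((b ^ 2 : ℕ) : ℝ) - 1) * r) = b * y + -x := by
      have h5 : L - 1 - 2 * i = (L - 1 - (2 * i + 1)) + 1 := by omega
      rw [hx, hy, h5]
      push_cast
      rw [← pow_mul]
      ring
    rw [h4]
    have h5 := sg_add_le (b * y) (-x)
    rw [sg_neg] at h5
    have h6 := sg_nat_mul_le b y
    have h7 := sg_nonneg x
    have h8 : (1 : ℝ) ≤ b ^ 2 := by
      have : (1 : ℝ) ≤ b := by exact_mod_cast (by omega : 1 ≤ b)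
      nlinarith
    have h9 : sg (b * y + -x) ≤ 2 * b ^ 2 * (sg x + sg y) := by nlinarith
    calc 1 / (2 * (b : ℝ) ^ 2) * sg (b * y + -x) ≤
          1 / (2 * (b : ℝ) ^ 2) * (2 * b ^ 2 * (sg x + sg y)) :=
          mul_le_mul_of_nonneg_left h9 (by positivity)
      _ = sg x + sg y := by field_simp
  have h4 := (Finset.sum_le_sum h3).trans h2
  rw [← Finset.mul_sum] at h4
  have h5 := mul_le_mul_of_nonneg_left h4 (show (0 : ℝ) ≤ 2 / b ^ 2 by positivity)
  have h6 : 2 / (b : ℝ) ^ 2 * (1 / (2 * (b : ℝ) ^ 2) *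
      ∑ i ∈ range l, sg (((b ^ 2 : ℕ) : ℝ) ^ i * ((((b ^ 2 : ℕ) : ℝ) - 1) * r))) =
      1 / b ^ 4 * ∑ i ∈ range l, sg (((b ^ 2 : ℕ) : ℝ) ^ i * ((((b ^ 2 : ℕ) : ℝ) - 1) * r)) := by
    generalize (∑ i ∈ range l, sg (((b ^ 2 : ℕ) : ℝ) ^ i * ((((b ^ 2 : ℕ) : ℝ) - 1) * r))) = S
    field_simp
  rw [h6] at h5
  linarith

/-- the geometric sum -/
theorem phi_geom (b : ℕ) (y : ℝ) : ‖phi b y‖ ^ 2 * sg y ≤ 1 := by
  have h1 : (e y - 1) * phi b y = e (b * y) - 1 := by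
    unfold phi
    have h2 : ∀ x ∈ range b, e (x * y) = e y ^ x := fun x _ => e_mul_nat y x
    rw [Finset.sum_congr rfl h2, mul_comm, geom_sum_mul, e_mul_nat]
  have h2 : ‖e y - 1‖ = 2 * |Real.sin (Real.pi * y)| := by
    have h3 : e y - 1 = e (y / 2) * (((2 * Real.sin (Real.pi * y) : ℝ) : ℂ) * Complex.I) := by
      have h4 : ((2 * Real.sin (Real.pi * y) : ℝ) : ℂ) * Complex.I = e (y / 2) - e (-(y / 2)) := by
        unfold e
        have h5 := Complex.two_sin ((Real.pi * y : ℝ) : ℂ)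
        push_cast at h5 ⊢
        rw [h5]
        have h6 : (Complex.exp (-(Real.pi * y : ℂ) * Complex.I) -
            Complex.exp ((Real.pi * y : ℂ) * Complex.I)) * Complex.I * Complex.I =
            Complex.exp ((Real.pi * y : ℂ) * Complex.I) -
            Complex.exp (-(Real.pi * y : ℂ) * Complex.I) := by
          rw [mul_assoc, Complex.I_mul_I]
          ring
        rw [h6]
        congr 2 <;> · ring
      rw [h4, mul_sub, ← e_add, ← e_add]
      have h5 : y / 2 + y / 2 = y := by ring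
      have h6 : y / 2 + -(y / 2) = 0 := by ring
      rw [h5, h6, e_zero]
    rw [h3, norm_mul, norm_e, one_mul, norm_mul, Complex.norm_I, mul_one, Complex.norm_real,
      Real.norm_eq_abs, abs_mul]
    norm_num
  have h3 : ‖e (b * y) - 1‖ ≤ 2 := by
    refine (norm_sub_le _ _).trans ?_
    rw [norm_e, norm_one]
    norm_num
  have h4 : ‖(e y - 1) * phi b y‖ ≤ 2 := by rw [h1]; exact h3
  rw [norm_mul, h2] at h4
  unfold sg
  rw [← sq_abs (Real.sin (Real.pi * y)), ← mul_pow]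
  have h5 : ‖phi b y‖ * |Real.sin (Real.pi * y)| ≤ 1 := by nlinarith
  have h6 : 0 ≤ ‖phi b y‖ * |Real.sin (Real.pi * y)| := by positivity
  exact pow_le_one₀ h6 h5

/-- bound for the local factor in a cell -/
noncomputable def hc (b w : ℕ) : ℝ :=
  if w = 0 ∨ b ≤ w + 2 then 1 else 1 / (2 * (w : ℝ)) + 1 / (2 * ((b - 2 - w : ℕ) : ℝ))

theorem hc_nonneg (b w : ℕ) : 0 ≤ hc b w := by
  unfold hc
  split_ifs <;> positivity

theorem hc_bound (b : ℕ) (hb : 2 ≤ b) (w : ℕ) (n : ℤ) (y : ℝ) (h1 : n + (w : ℝ) / b ≤ y)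
    (h2 : y ≤ n + ((w : ℝ) + 2) / b) : ‖phi b y‖ / b ≤ hc b w := by
  have hb0 : (0 : ℝ) < b := by exact_mod_cast (by omega : 0 < b)
  unfold hc
  split_ifs with h
  · rw [div_le_one hb0]
    exact norm_phi_le b y
  · push Not at h
    obtain ⟨u, hu⟩ : ∃ u, b = w + 2 + u := ⟨b - (w + 2), by omega⟩
    have hu1 : 1 ≤ u := by omega
    have hw1 : 1 ≤ w := by omega
    have hbu : b - 2 - w = u := by omega
    rw [hbu]
    have hw0 : (0 : ℝ) < w := by exact_mod_cast hw1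
    have hu0 : (0 : ℝ) < u := by exact_mod_cast hu1
    have hbr : (b : ℝ) = w + 2 + u := by rw [hu]; push_cast; ring
    obtain ⟨δ, hδ⟩ : ∃ δ : ℝ, δ = min (w : ℝ) u := ⟨_, rfl⟩
    have hδ0 : 0 < δ := by rw [hδ]; exact lt_min hw0 hu0
    have hδw : δ ≤ w := by rw [hδ]; exact min_le_left _ _
    have hδu : δ ≤ u := by rw [hδ]; exact min_le_right _ _
    have h3 := sg_ge y n (δ / b) (by positivity) (by
      have : δ / b ≤ w / b := div_le_div_of_nonneg_right hδw hb0.le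
      linarith) (by
      have h4 : δ / b ≤ u / b := div_le_div_of_nonneg_right hδu hb0.le
      have h5 : ((w : ℝ) + 2) / b + u / b = 1 := by rw [← add_div, ← hbr]; field_simp
      linarith)
    have h4 := phi_geom b y
    have h5 : (‖phi b y‖ * (2 * (δ / b))) ^ 2 ≤ 1 ^ 2 := by
      calc (‖phi b y‖ * (2 * (δ / b))) ^ 2 = ‖phi b y‖ ^ 2 * (4 * (δ / b) ^ 2) := by ring
        _ ≤ ‖phi b y‖ ^ 2 * sg y := mul_le_mul_of_nonneg_left h3 (by positivity)
        _ ≤ 1 ^ 2 := by rw [one_pow]; exact h4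
    have h6 := le_of_pow_le_pow_left₀ (by norm_num) (by norm_num) h5
    have h7 : ‖phi b y‖ / b ≤ 1 / (2 * δ) := by
      rw [le_div_iff₀ (by positivity)]
      calc ‖phi b y‖ / b * (2 * δ) = ‖phi b y‖ * (2 * (δ / b)) := by ring
        _ ≤ 1 := h6
    refine h7.trans ?_
    rcases min_choice (w : ℝ) u with h8 | h8
    · rw [hδ, h8]
      have : 0 ≤ 1 / (2 * (u : ℝ)) := by positivity
      linarith
    · rw [hδ, h8]
      have : 0 ≤ 1 / (2 * (w : ℝ)) := by positivity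
      linarith

theorem harm (D : ℕ) : ∑ m ∈ Icc 1 D, (1 : ℝ) / m ≤ 1 + Real.log D := by
  have h1 := harmonic_le_one_add_log D
  have h2 : ((harmonic D : ℚ) : ℝ) = ∑ m ∈ Icc 1 D, (1 : ℝ) / m := by
    rw [harmonic_eq_sum_Icc]
    push_cast
    simp
  linarith

theorem sum_hc (b : ℕ) (hb : 3 ≤ b) : ∑ w ∈ range b, hc b w ≤ 4 + Real.log b := by
  obtain ⟨c, rfl⟩ : ∃ c, b = c + 3 := ⟨b - 3, by omega⟩
  rw [Finset.sum_range_succ, Finset.sum_range_succ, Finset.sum_range_succ']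
  have h0 : hc (c + 3) 0 = 1 := by unfold hc; simp
  have h1 : hc (c + 3) (c + 1) = 1 := by
    unfold hc; rw [if_pos (Or.inr (by omega))]
  have h2 : hc (c + 3) (c + 2) = 1 := by
    unfold hc; rw [if_pos (Or.inr (by omega))]
  rw [h0, h1, h2]
  have h3 : ∑ k ∈ range c, hc (c + 3) (k + 1) = ∑ m ∈ Icc 1 c, (1 : ℝ) / m := by
    have h4 : ∀ k ∈ range c, hc (c + 3) (k + 1) =
        (1 / 2) * (1 / ((k + 1 : ℕ) : ℝ)) + (1 / 2) * (1 / ((c - k : ℕ) : ℝ)) := by
      intro k hk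
      rw [mem_range] at hk
      unfold hc
      rw [if_neg (by omega)]
      have : c + 3 - 2 - (k + 1) = c - k := by omega
      rw [this]
      have hk0 : ((k + 1 : ℕ) : ℝ) ≠ 0 := by positivity
      have hck : ((c - k : ℕ) : ℝ) ≠ 0 := by
        have : c - k ≠ 0 := by omega
        exact_mod_cast this
      field_simp
    rw [Finset.sum_congr rfl h4, Finset.sum_add_distrib, ← Finset.mul_sum, ← Finset.mul_sum]
    have h5 : ∑ k ∈ range c, 1 / ((k + 1 : ℕ) : ℝ) = ∑ m ∈ Icc 1 c, (1 : ℝ) / m := by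
      rw [Finset.range_eq_Ico, Finset.sum_Ico_add' (fun m : ℕ => (1 : ℝ) / (m : ℝ)) 0 c 1]
      apply Finset.sum_congr _ (fun _ _ => rfl)
      ext x
      simp only [mem_Ico, mem_Icc]
      omega
    have h6 : ∑ k ∈ range c, 1 / ((c - k : ℕ) : ℝ) = ∑ k ∈ range c, 1 / ((k + 1 : ℕ) : ℝ) := by
      rw [← Finset.sum_range_reflect]
      apply Finset.sum_congr rfl
      intro k hk
      rw [mem_range] at hk
      congr 2
      omega
    rw [h6, h5]
    ring
  rw [h3]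
  have h4 := harm c
  have h5 : Real.log c ≤ Real.log ((c + 3 : ℕ) : ℝ) := by
    rcases Nat.eq_zero_or_pos c with h | h
    · subst h
      simp
      positivity
    · apply Real.log_le_log (by exact_mod_cast h)
      push_cast
      linarith
  linarith

end Pool.Agent.X35.RQ
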