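import Pool.Agent.X35.RQ.ErrQ
import Pool.Agent.X35.RQ.Tau
import Pool.Agent.X35.RP.Mom

/-!
# The sieve in a progression
-/

set_option autoImplicit false

open Finset Filter

namespace Pool.Agent.X35.RQ

open Pool.Agent.X35.RP (H G Red e e_add e_zero e_int norm_e conj_e sum_e rv rv_lt rv_inj n4 n4_nonneg
  n4_pow n4_sum n4_smul Sw detect cop_prod VV_le)
open Pool.Agent.Y843.HS (Pr Sv VV Th qq Wt S_TH)

/-- the class of `-e₀ / b` modulo the primes not dividing `b (b² - 1)` -/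
def Zc (b e₀ p : ℕ) : Finset ℕ :=
  if p ∣ b * (b ^ 2 - 1) then ∅ else (range p).filter (fun c => p ∣ e₀ + b * c)

/-- the sifting primes -/
def Ps (b z R : ℕ) : Finset ℕ := (Pr z R).filter (fun p => ¬ p ∣ b * (b ^ 2 - 1))

theorem Ps_prime {b z R p : ℕ} (hp : p ∈ Ps b z R) : p.Prime ∧ ¬ p ∣ b * (b ^ 2 - 1) ∧ z < p ∧ p ≤ R := by
  unfold Ps Pr at hp
  rw [mem_filter, mem_filter, mem_Ioc] at hp
  exact ⟨hp.1.2, hp.2, hp.1.1.1, hp.1.1.2⟩

theorem Zc_mem (b e₀ p n : ℕ) (hp : 0 < p) (hpb : ¬ p ∣ b * (b ^ 2 - 1)) :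
    n % p ∈ Zc b e₀ p ↔ p ∣ e₀ + b * n := by
  unfold Zc
  rw [if_neg hpb, mem_filter, mem_range]
  have h1 : e₀ + b * (n % p) ≡ e₀ + b * n [MOD p] :=
    Nat.ModEq.add_left _ (Nat.ModEq.mul_left _ (Nat.mod_modEq n p))
  constructor
  · rintro ⟨_, h⟩
    exact (Nat.ModEq.dvd_iff h1 (dvd_refl p)).1 h
  · intro h
    exact ⟨Nat.mod_lt _ hp, (Nat.ModEq.dvd_iff h1 (dvd_refl p)).2 h⟩

theorem Zc_card_le (b e₀ p : ℕ) (hp : p.Prime) : (Zc b e₀ p).card ≤ 1 := by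
  unfold Zc
  split_ifs with h
  · simp
  · rw [Finset.card_le_one]
    intro c hc c' hc'
    rw [mem_filter, mem_range] at hc hc'
    have hpb : Nat.Coprime p b := by
      rw [hp.coprime_iff_not_dvd]
      intro h2
      exact h (Dvd.dvd.mul_right h2 _)
    have h1 : e₀ + b * c ≡ e₀ + b * c' [MOD p] := by
      have e1 : e₀ + b * c ≡ 0 [MOD p] := (Nat.modEq_zero_iff_dvd).2 hc.2
      have e2 : e₀ + b * c' ≡ 0 [MOD p] := (Nat.modEq_zero_iff_dvd).2 hc'.2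
      exact e1.trans e2.symm
    have h2 : b * c ≡ b * c' [MOD p] := Nat.ModEq.add_left_cancel' e₀ h1
    have h3 : c ≡ c' [MOD p] := Nat.ModEq.cancel_left_of_coprime hpb h2
    have h4 : c % p = c' % p := h3
    rw [Nat.mod_eq_of_lt hc.1, Nat.mod_eq_of_lt hc'.1] at h4
    exact h4

theorem Zc_card (b e₀ p : ℕ) (hp : p.Prime) (hpb : ¬ p ∣ b * (b ^ 2 - 1)) :
    (Zc b e₀ p).card = 1 := by
  apply le_antisymm (Zc_card_le b e₀ p hp)
  rw [Nat.one_le_iff_ne_zero, ← Nat.pos_iff_ne_zero, Finset.card_pos]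
  have hcop : Nat.Coprime b p := by
    rw [Nat.coprime_comm, hp.coprime_iff_not_dvd]
    intro h2
    exact hpb (Dvd.dvd.mul_right h2 _)
  have : Fact p.Prime := ⟨hp⟩
  have hb : (b : ZMod p) ≠ 0 := by
    intro h
    rw [ZMod.natCast_eq_zero_iff] at h
    exact hpb (Dvd.dvd.mul_right h _)
  obtain ⟨n, hn⟩ : ∃ n : ℕ, (n : ZMod p) = -(e₀ : ZMod p) * (b : ZMod p)⁻¹ :=
    ⟨(-(e₀ : ZMod p) * (b : ZMod p)⁻¹).val, ZMod.natCast_zmod_val _⟩
  refine ⟨n % p, (Zc_mem b e₀ p n hp.pos hpb).2 ?_⟩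
  rw [← ZMod.natCast_eq_zero_iff]
  push_cast
  rw [hn]
  field_simp
  ring

theorem Th_eq (b e₀ z R : ℕ) (θ : Finset ℕ → ℝ) (n : ℕ) :
    Th (Zc b e₀) z R θ n =
      ∑ U ∈ (Ps b z R).powerset, θ U * (if (∏ p ∈ U, p) ∣ e₀ + b * n then 1 else 0) := by
  have h1 : Th (Zc b e₀) z R θ n =
      ∑ U ∈ (Ps b z R).powerset.filter (fun U => (∏ p ∈ U, p) ∣ e₀ + b * n), θ U := by
    unfold Th
    apply Finset.sum_congr _ (fun _ _ => rfl)
    ext U
    rw [mem_filter, mem_filter, mem_powerset, mem_powerset]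
    constructor
    · rintro ⟨h1, h2⟩
      have hU : U ⊆ Ps b z R := by
        intro p hp
        unfold Ps
        rw [mem_filter]
        refine ⟨h1 hp, ?_⟩
        intro h3
        have h4 := h2 p hp
        unfold Zc at h4
        rw [if_pos h3] at h4
        simp at h4
      refine ⟨hU, ?_⟩
      apply Finset.prod_primes_dvd
      · intro p hp
        exact (Ps_prime (hU hp)).1.prime
      · intro p hp
        have h5 := Ps_prime (hU hp)
        exact (Zc_mem b e₀ p n h5.1.pos h5.2.1).1 (h2 p hp)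
    · rintro ⟨h1, h2⟩
      refine ⟨h1.trans (by unfold Ps; exact filter_subset _ _), ?_⟩
      intro p hp
      have h5 := Ps_prime (h1 hp)
      exact (Zc_mem b e₀ p n h5.1.pos h5.2.1).2 ((Finset.dvd_prod_of_mem _ hp).trans h2)
  rw [h1, Finset.sum_filter]
  apply Finset.sum_congr rfl
  intro U _
  split_ifs <;> ring

theorem qq_eq (b e₀ z R : ℕ) (θ : Finset ℕ → ℝ) :
    qq (Zc b e₀) z R θ = ∑ U ∈ (Ps b z R).powerset, θ U * (1 / ((∏ p ∈ U, p : ℕ) : ℝ)) := by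
  unfold qq
  have hsub : (Ps b z R).powerset ⊆ (Pr z R).powerset := by
    apply Finset.powerset_mono.2
    unfold Ps
    exact filter_subset _ _
  rw [← Finset.sum_subset hsub]
  · apply Finset.sum_congr rfl
    intro U hU
    rw [mem_powerset] at hU
    congr 1
    have h1 : ∀ p ∈ U, (((Zc b e₀ p).card : ℝ) / p) = (p : ℝ)⁻¹ := by
      intro p hp
      have h5 := Ps_prime (hU hp)
      rw [Zc_card b e₀ p h5.1 h5.2.1, Nat.cast_one, one_div]
    rw [Finset.prod_congr rfl h1, Finset.prod_inv_distrib]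
    push_cast
    rw [one_div]
  · intro U hU hU2
    rw [mem_powerset] at hU hU2
    have h1 : ∃ p ∈ U, p ∣ b * (b ^ 2 - 1) := by
      by_contra hcon
      push Not at hcon
      apply hU2
      intro p hp
      unfold Ps
      rw [mem_filter]
      exact ⟨hU hp, hcon p hp⟩
    obtain ⟨p, hp, hpb⟩ := h1
    have h2 : ∏ p ∈ U, ((Zc b e₀ p).card : ℝ) / p = 0 := by
      apply Finset.prod_eq_zero hp
      unfold Zc
      rw [if_pos hpb]
      simp
    rw [h2, mul_zero]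

/-- Parseval, exactly -/
theorem parsevalZ {ι : Type*} (M : ℕ) (hM : 0 < M) (P : Finset ι) (W : ι → ℝ) (g : ι → ℕ) :
    ∑ k ∈ range M, ‖∑ x ∈ P, (W x : ℂ) * e (k * (((g x : ℤ) : ℝ) / M))‖ ^ 2 =
      ∑ x ∈ P, ∑ y ∈ P, (W x * W y) *
        (if ((M : ℤ) ∣ ((g x : ℤ) - g y)) then (M : ℝ) else 0) := by
  have h1 : ∀ k ∈ range M,
      ((‖∑ x ∈ P, (W x : ℂ) * e (k * (((g x : ℤ) : ℝ) / M))‖ ^ 2 : ℝ) : ℂ) =
      ∑ x ∈ P, ∑ y ∈ P, ((W x * W y : ℝ) : ℂ) * e (k * (((((g x : ℤ) - g y : ℤ)) : ℝ) / M)) := by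
    intro k _
    rw [← Complex.normSq_eq_norm_sq, Complex.normSq_eq_conj_mul_self, mul_comm, map_sum,
      Finset.sum_mul_sum]
    apply Finset.sum_congr rfl
    intro x _
    apply Finset.sum_congr rfl
    intro y _
    rw [map_mul, Complex.conj_ofReal, conj_e]
    have h2 : e (k * (((((g x : ℤ) - g y : ℤ)) : ℝ) / M)) =
        e (k * (((g x : ℤ) : ℝ) / M)) * e (-(k * (((g y : ℤ) : ℝ) / M))) := by
      rw [← e_add]
      congr 1
      push_cast
      ring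
    rw [h2]
    push_cast
    ring
  have h2 : ((∑ k ∈ range M, ‖∑ x ∈ P, (W x : ℂ) * e (k * (((g x : ℤ) : ℝ) / M))‖ ^ 2 : ℝ) : ℂ) =
      ((∑ x ∈ P, ∑ y ∈ P, (W x * W y) *
        (if ((M : ℤ) ∣ ((g x : ℤ) - g y)) then (M : ℝ) else 0) : ℝ) : ℂ) := by
    rw [Complex.ofReal_sum, Finset.sum_congr rfl h1, Finset.sum_comm, Complex.ofReal_sum]
    apply Finset.sum_congr rfl
    intro x _
    rw [Finset.sum_comm, Complex.ofReal_sum]
    apply Finset.sum_congr rfl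
    intro y _
    rw [← Finset.mul_sum, sum_e M hM, Complex.ofReal_mul]
    congr 1
    split_ifs <;> simp
  exact_mod_cast h2

theorem dvd_iff_eq {M x y : ℕ} (hx : x < M) (hy : y < M) : (M : ℤ) ∣ ((x : ℤ) - y) ↔ x = y := by
  constructor
  · intro h
    have h1 : |(x : ℤ) - y| < M := by rw [abs_lt]; constructor <;> omega
    have h2 := Int.eq_zero_of_abs_lt_dvd h h1
    omega
  · rintro rfl
    simp

/-- the second moment of a weighted sum -/
theorem Sw_sq (b : ℕ) (hb : 0 < b) (L : ℕ) (w : ℕ → ℝ) :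
    ∑ k ∈ range (b ^ L), ‖Sw b L w k‖ ^ 2 = (b : ℝ) ^ L * ∑ n ∈ range (b ^ L), w n ^ 2 := by
  have hM : 0 < b ^ L := by positivity
  have h1 := parsevalZ (b ^ L) hM (range (b ^ L)) w (fun n => rv b L n)
  have h2 : ∑ k ∈ range (b ^ L), ‖Sw b L w k‖ ^ 2 = ∑ k ∈ range (b ^ L),
      ‖∑ x ∈ range (b ^ L), (w x : ℂ) * e (k * (((rv b L x : ℤ) : ℝ) / ((b ^ L : ℕ) : ℝ)))‖ ^ 2 := rfl
  rw [h2, h1, Finset.mul_sum]
  apply Finset.sum_congr rfl
  intro x hx
  have h3 : ∀ y ∈ range (b ^ L), (w x * w y) *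
      (if (((b ^ L : ℕ) : ℤ) ∣ ((rv b L x : ℤ) - rv b L y)) then ((b ^ L : ℕ) : ℝ) else 0) =
      if x = y then (b : ℝ) ^ L * w x ^ 2 else 0 := by
    intro y hy
    have h4 := dvd_iff_eq (rv_lt b hb L x) (rv_lt b hb L y)
    rw [mem_range] at hx hy
    by_cases h : x = y
    · subst h
      rw [if_pos rfl, if_pos (by simp)]
      push_cast
      ring
    · rw [if_neg h, if_neg, mul_zero]
      intro h5
      exact h (rv_inj b hb L x y hx hy (h4.1 h5))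
  rw [Finset.sum_congr rfl h3, Finset.sum_ite_eq, if_pos hx]

/-- the fourth moment of the unweighted sum over a set -/
theorem Sw_four (b : ℕ) (hb : 0 < b) (L : ℕ) (X : Finset ℕ) (hX : X ⊆ range (b ^ L)) :
    ∑ k ∈ range (b ^ L), ‖Sw b L (fun n => if n ∈ X then 1 else 0) k‖ ^ 4 ≤
      (b : ℝ) ^ L * (X.card : ℝ) ^ 3 := by
  have hM : 0 < b ^ L := by positivity
  obtain ⟨g, hg⟩ : ∃ g : ℕ × ℕ → ℕ, g = fun x => rv b L x.1 + rv b L x.2 := ⟨_, rfl⟩
  have h1 := parsevalZ (b ^ L) hM (X ×ˢ X) (fun _ => 1) g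
  have h2 : ∀ k : ℕ, ‖Sw b L (fun n => if n ∈ X then 1 else 0) k‖ ^ 4 =
      ‖∑ x ∈ X ×ˢ X, ((1 : ℝ) : ℂ) * e (k * (((g x : ℤ) : ℝ) / ((b ^ L : ℕ) : ℝ)))‖ ^ 2 := by
    intro k
    have h3 : Sw b L (fun n => if n ∈ X then 1 else 0) k =
        ∑ n ∈ X, e (k * (((rv b L n : ℤ) : ℝ) / ((b ^ L : ℕ) : ℝ))) := by
      unfold Sw
      have h4 : ∀ n ∈ range (b ^ L), (((if n ∈ X then 1 else 0 : ℝ)) : ℂ) *
          e (k * (((rv b L n : ℤ) : ℝ) / ((b ^ L : ℕ) : ℝ))) =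
          if n ∈ X then e (k * (((rv b L n : ℤ) : ℝ) / ((b ^ L : ℕ) : ℝ))) else 0 := by
        intro n _
        split_ifs <;> simp
      rw [Finset.sum_congr rfl h4, ← Finset.sum_filter]
      apply Finset.sum_congr _ (fun _ _ => rfl)
      ext n
      rw [mem_filter]
      exact ⟨fun h => h.2, fun h => ⟨hX h, h⟩⟩
    have h5 : ∑ x ∈ X ×ˢ X, ((1 : ℝ) : ℂ) * e (k * (((g x : ℤ) : ℝ) / ((b ^ L : ℕ) : ℝ))) =
        Sw b L (fun n => if n ∈ X then 1 else 0) k ^ 2 := by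
      rw [h3, sq, Finset.sum_mul_sum, Finset.sum_product]
      apply Finset.sum_congr rfl
      intro m _
      apply Finset.sum_congr rfl
      intro n _
      rw [← e_add, hg, Complex.ofReal_one, one_mul]
      congr 1
      push_cast
      ring
    rw [h5, norm_pow, ← pow_mul]
  simp only [h2]
  rw [h1, Finset.sum_product]
  have h3 : ∀ x₁ ∈ X, ∀ x₂ ∈ X, ∑ y ∈ X ×ˢ X, ((1 : ℝ) * 1) *
      (if (((b ^ L : ℕ) : ℤ) ∣ ((g (x₁, x₂) : ℤ) - g y)) then ((b ^ L : ℕ) : ℝ) else 0) ≤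
      X.card * (b : ℝ) ^ L := by
    intro x₁ _ x₂ _
    rw [Finset.sum_product]
    have h4 : ∀ y₁ ∈ X, ∑ y₂ ∈ X, ((1 : ℝ) * 1) *
        (if (((b ^ L : ℕ) : ℤ) ∣ ((g (x₁, x₂) : ℤ) - g (y₁, y₂))) then ((b ^ L : ℕ) : ℝ) else 0) ≤
        (b : ℝ) ^ L := by
      intro y₁ _
      simp only [mul_one, one_mul]
      rw [← Finset.sum_filter, Finset.sum_const, nsmul_eq_mul]
      have h5 : (X.filter (fun y₂ => (((b ^ L : ℕ) : ℤ) ∣ ((g (x₁, x₂) : ℤ) - g (y₁, y₂))))).card ≤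
          1 := by
        rw [Finset.card_le_one]
        intro y hy y' hy'
        rw [mem_filter] at hy hy'
        have h6 := dvd_sub hy.2 hy'.2
        have h7 : ((g (x₁, x₂) : ℤ) - g (y₁, y)) - ((g (x₁, x₂) : ℤ) - g (y₁, y')) =
            (rv b L y' : ℤ) - rv b L y := by
          rw [hg]; push_cast; ring
        rw [h7] at h6
        have h8 := (dvd_iff_eq (rv_lt b hb L y') (rv_lt b hb L y)).1 h6
        exact (rv_inj b hb L y' y (mem_range.1 (hX hy'.1)) (mem_range.1 (hX hy.1)) h8).symm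
      calc _ ≤ (1 : ℝ) * ((b ^ L : ℕ) : ℝ) := by
            apply mul_le_mul_of_nonneg_right _ (Nat.cast_nonneg _)
            exact_mod_cast h5
        _ = (b : ℝ) ^ L := by push_cast; ring
    refine (Finset.sum_le_sum h4).trans ?_
    rw [Finset.sum_const, nsmul_eq_mul]
  refine (Finset.sum_le_sum fun x₁ hx₁ => Finset.sum_le_sum fun x₂ hx₂ => h3 x₁ hx₁ x₂ hx₂).trans ?_
  simp only [Finset.sum_const, nsmul_eq_mul]
  apply le_of_eq
  ring

theorem classDetect (m v n : ℕ) (hv : v < m) : (if n % m = v then (1 : ℂ) else 0) =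
    (1 / (m : ℂ)) * ∑ c ∈ range m, e (c * (((n : ℝ) - v) / m)) := by
  have hm0 : 0 < m := by omega
  have e6 := sum_e m hm0 ((n : ℤ) - v)
  have e7 : ∑ c ∈ range m, e (c * (((n : ℝ) - v) / m)) =
      ∑ c ∈ range m, e (c * ((((n : ℤ) - v : ℤ) : ℝ) / m)) := by
    apply Finset.sum_congr rfl
    intro c _
    push_cast
    rfl
  rw [e7, e6]
  have e8 : ((m : ℤ) ∣ ((n : ℤ) - v)) ↔ n % m = v := by
    constructor
    · intro h
      have h2 : (v : ℤ) ≡ n [ZMOD m] := (Int.modEq_iff_dvd).2 h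
      have h3 : v ≡ n [MOD m] := (Int.natCast_modEq_iff).1 h2
      have h4 : v % m = n % m := h3
      rw [Nat.mod_eq_of_lt hv] at h4
      exact h4.symm
    · intro h
      have h4 : v % m = n % m := by rw [Nat.mod_eq_of_lt hv, h]
      have h3 : v ≡ n [MOD m] := h4
      exact (Int.modEq_iff_dvd).1 ((Int.natCast_modEq_iff).2 h3)
  have hm1 : (m : ℂ) ≠ 0 := by exact_mod_cast hm0.ne'
  by_cases h : n % m = v
  · rw [if_pos h, if_pos (e8.2 h)]
    field_simp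
  · rw [if_neg h, if_neg (fun h2 => h (e8.1 h2)), mul_zero]

theorem ThSub (b e₀ z R : ℕ) (θ : Finset ℕ → ℝ) (n : ℕ) :
    ((Th (Zc b e₀) z R θ n - qq (Zc b e₀) z R θ : ℝ) : ℂ) =
      ∑ U ∈ (Ps b z R).powerset.filter (fun U => θ U ≠ 0),
        (θ U : ℂ) * (1 / ((∏ p ∈ U, p : ℕ) : ℂ)) *
          ∑ a ∈ Ico 1 (∏ p ∈ U, p), e (((a : ℝ) / (∏ p ∈ U, p : ℕ)) * ((e₀ + b * n : ℕ) : ℝ)) := by
  rw [Th_eq, qq_eq, ← Finset.sum_sub_distrib, Finset.sum_filter, Complex.ofReal_sum]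
  apply Finset.sum_congr rfl
  intro U hU
  by_cases h : θ U = 0
  · rw [h]
    simp
  · rw [if_pos h]
    have hd : 0 < ∏ p ∈ U, p := Finset.prod_pos fun p hp => (Ps_prime ((mem_powerset.1 hU) hp)).1.pos
    obtain ⟨d, hdd⟩ : ∃ d, d = ∏ p ∈ U, p := ⟨_, rfl⟩
    rw [← hdd] at hd ⊢
    have hd0 : (d : ℂ) ≠ 0 := by exact_mod_cast hd.ne'
    have e2 := detect d (e₀ + b * n) hd
    rw [Finset.range_eq_Ico, Finset.sum_eq_sum_Ico_succ_bot hd] at e2
    have e3 : (((if d ∣ e₀ + b * n then (1 : ℝ) else 0) : ℝ) : ℂ) =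
        (if d ∣ e₀ + b * n then (1 : ℂ) else 0) := by
      split_ifs <;> simp
    have e5 : e (((0 : ℕ) : ℝ) / (d : ℝ) * ((e₀ + b * n : ℕ) : ℝ)) = 1 := by simp [e_zero]
    rw [e5, zero_add] at e2
    rw [Complex.ofReal_sub, Complex.ofReal_mul, Complex.ofReal_mul, e3, e2,
      Complex.ofReal_div, Complex.ofReal_one, Complex.ofReal_natCast]
    ring

/-- the supremum of the error -/
theorem sup_err (b : ℕ) (hb : 2 ≤ b) (L e₀ z R v : ℕ) (hv : v < b ^ 2 - 1) (θ : Finset ℕ → ℝ)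
    (hθ : ∀ U, |θ U| ≤ 1) (k : ℕ) (E : ℝ)
    (hE : ∀ (c : ℤ), ∑ d ∈ ((Ps b z R).powerset.filter (fun U => θ U ≠ 0)).image
        (fun U => ∏ p ∈ U, p), (1 / (d : ℝ)) *
        ∑ a ∈ Ico 1 d, ‖H b L (b * ((a : ℝ) / d) + c / ((b ^ 2 - 1 : ℕ) : ℝ)) (k / b ^ L)‖ ≤ E) :
    ‖Sw b L (fun n => if n % (b ^ 2 - 1) = v then
      Th (Zc b e₀) z R θ n - qq (Zc b e₀) z R θ else 0) k‖ ≤ E := by
  obtain ⟨m, hm⟩ : ∃ m : ℕ, m = b ^ 2 - 1 := ⟨_, rfl⟩
  rw [← hm] at hE hv ⊢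
  have hm0 : 0 < m := by omega
  have hm0' : (0 : ℝ) < m := by exact_mod_cast hm0
  obtain ⟨UU, hUU⟩ : ∃ UU, UU = (Ps b z R).powerset.filter (fun U => θ U ≠ 0) := ⟨_, rfl⟩
  rw [← hUU] at hE
  have hpr : ∀ U ∈ UU, ∀ p ∈ U, p.Prime := by
    intro U hU p hp
    rw [hUU, mem_filter, mem_powerset] at hU
    exact (Ps_prime (hU.1 hp)).1
  obtain ⟨dd, hdd⟩ : ∃ dd : Finset ℕ → ℕ, dd = fun U => ∏ p ∈ U, p := ⟨_, rfl⟩
  have hdd' : ∀ U, ∏ p ∈ U, p = dd U := fun U => by rw [hdd]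
  -- the weighted sum
  have h1 : Sw b L (fun n => if n % m = v then
      Th (Zc b e₀) z R θ n - qq (Zc b e₀) z R θ else 0) k =
      ∑ U ∈ UU, ∑ a ∈ Ico 1 (dd U), ∑ c ∈ range m,
        ((θ U : ℂ) * (1 / (dd U : ℂ)) * (1 / (m : ℂ)) *
        e (((a : ℝ) / dd U) * e₀ - c * ((v : ℝ) / m))) *
        H b L (b * ((a : ℝ) / dd U) + c / m) (k / b ^ L) := by
    have h2 : ∀ n ∈ range (b ^ L), (((if n % m = v then
        Th (Zc b e₀) z R θ n - qq (Zc b e₀) z R θ else 0 : ℝ)) : ℂ) *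
        e (k * (((rv b L n : ℤ) : ℝ) / ((b ^ L : ℕ) : ℝ))) =
        ∑ U ∈ UU, ∑ a ∈ Ico 1 (dd U), ∑ c ∈ range m,
        ((θ U : ℂ) * (1 / (dd U : ℂ)) * (1 / (m : ℂ)) *
        e (((a : ℝ) / dd U) * e₀ - c * ((v : ℝ) / m))) *
        e ((b * ((a : ℝ) / dd U) + c / m) * n + (k / b ^ L) * rv b L n) := by
      intro n _
      have e9 : (((if n % m = v then
          Th (Zc b e₀) z R θ n - qq (Zc b e₀) z R θ else 0 : ℝ)) : ℂ) =
          (if n % m = v then (1 : ℂ) else 0) *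
          ((Th (Zc b e₀) z R θ n - qq (Zc b e₀) z R θ : ℝ) : ℂ) := by
        split_ifs <;> simp
      obtain ⟨X, hX⟩ : ∃ X : ℂ, X = (1 / (m : ℂ)) * ∑ c ∈ range m, e (c * (((n : ℝ) - v) / m)) :=
        ⟨_, rfl⟩
      rw [e9, classDetect m v n hv, ThSub, ← hUU, ← hX, Finset.mul_sum, Finset.sum_mul]
      apply Finset.sum_congr rfl
      intro U _
      rw [hdd' U, Finset.mul_sum, Finset.mul_sum, Finset.sum_mul]
      apply Finset.sum_congr rfl
      intro a _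
      rw [hX, Finset.mul_sum, Finset.sum_mul, Finset.sum_mul]
      apply Finset.sum_congr rfl
      intro c _
      have e10 : e (c * (((n : ℝ) - v) / m)) *
          e (((a : ℝ) / (dd U : ℝ)) * ((e₀ + b * n : ℕ) : ℝ)) *
          e (k * (((rv b L n : ℤ) : ℝ) / ((b ^ L : ℕ) : ℝ))) =
          e (((a : ℝ) / dd U) * e₀ - c * ((v : ℝ) / m)) *
          e ((b * ((a : ℝ) / dd U) + c / m) * n + (k / b ^ L) * rv b L n) := by
        rw [← e_add, ← e_add, ← e_add]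
        congr 1
        push_cast
        ring
      calc _ = ((θ U : ℂ) * (1 / (dd U : ℂ)) * (1 / (m : ℂ))) *
            (e (c * (((n : ℝ) - v) / m)) *
            e (((a : ℝ) / (dd U : ℝ)) * ((e₀ + b * n : ℕ) : ℝ)) *
            e (k * (((rv b L n : ℤ) : ℝ) / ((b ^ L : ℕ) : ℝ)))) := by ring
        _ = _ := by rw [e10]; ring
    unfold Sw
    rw [Finset.sum_congr rfl h2, Finset.sum_comm]
    apply Finset.sum_congr rfl
    intro U _
    rw [Finset.sum_comm]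
    apply Finset.sum_congr rfl
    intro a _
    rw [Finset.sum_comm]
    apply Finset.sum_congr rfl
    intro c _
    unfold H
    rw [Finset.mul_sum]
  rw [h1]
  have h2 : ‖∑ U ∈ UU, ∑ a ∈ Ico 1 (dd U), ∑ c ∈ range m,
        ((θ U : ℂ) * (1 / (dd U : ℂ)) * (1 / (m : ℂ)) *
        e (((a : ℝ) / dd U) * e₀ - c * ((v : ℝ) / m))) *
        H b L (b * ((a : ℝ) / dd U) + c / m) (k / b ^ L)‖ ≤
      ∑ U ∈ UU, ∑ a ∈ Ico 1 (dd U), ∑ c ∈ range m, (1 / (dd U : ℝ)) * (1 / (m : ℝ)) *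
        ‖H b L (b * ((a : ℝ) / dd U) + ((c : ℤ) : ℝ) / m) (k / b ^ L)‖ := by
    refine (norm_sum_le _ _).trans (Finset.sum_le_sum fun U _ => ?_)
    refine (norm_sum_le _ _).trans (Finset.sum_le_sum fun a _ => ?_)
    refine (norm_sum_le _ _).trans (Finset.sum_le_sum fun c _ => ?_)
    rw [norm_mul, norm_mul, norm_mul, norm_mul, norm_e, mul_one, Complex.norm_real,
      Real.norm_eq_abs, norm_div, norm_one, Complex.norm_natCast, norm_div, norm_one,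
      Complex.norm_natCast, Int.cast_natCast]
    apply mul_le_mul_of_nonneg_right _ (norm_nonneg _)
    apply mul_le_mul_of_nonneg_right _ (by positivity)
    exact mul_le_of_le_one_left (by positivity) (hθ U)
  refine h2.trans ?_
  have hinj : Set.InjOn dd (UU : Set (Finset ℕ)) := by
    intro U hU V hV h
    rw [Finset.mem_coe] at hU hV
    rw [← Nat.primeFactors_prod (hpr U hU), ← Nat.primeFactors_prod (hpr V hV), hdd', hdd', h]
  have h3 : ∑ U ∈ UU, ∑ a ∈ Ico 1 (dd U), ∑ c ∈ range m, (1 / (dd U : ℝ)) * (1 / (m : ℝ)) *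
        ‖H b L (b * ((a : ℝ) / dd U) + ((c : ℤ) : ℝ) / m) (k / b ^ L)‖ =
      ∑ c ∈ range m, (1 / (m : ℝ)) * ∑ d ∈ UU.image dd, (1 / (d : ℝ)) *
        ∑ a ∈ Ico 1 d, ‖H b L (b * ((a : ℝ) / d) + ((c : ℤ) : ℝ) / m) (k / b ^ L)‖ := by
    have h4 : ∀ c ∈ range m, (1 / (m : ℝ)) * ∑ d ∈ UU.image dd, (1 / (d : ℝ)) *
        ∑ a ∈ Ico 1 d, ‖H b L (b * ((a : ℝ) / d) + ((c : ℤ) : ℝ) / m) (k / b ^ L)‖ =
        ∑ U ∈ UU, ∑ a ∈ Ico 1 (dd U), (1 / (dd U : ℝ)) * (1 / (m : ℝ)) *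
        ‖H b L (b * ((a : ℝ) / dd U) + ((c : ℤ) : ℝ) / m) (k / b ^ L)‖ := by
      intro c _
      rw [Finset.sum_image (fun x hx y hy h => hinj hx hy h), Finset.mul_sum]
      apply Finset.sum_congr rfl
      intro U _
      rw [Finset.mul_sum, Finset.mul_sum]
      apply Finset.sum_congr rfl
      intro a _
      ring
    rw [Finset.sum_congr rfl h4, Finset.sum_comm]
    apply Finset.sum_congr rfl
    intro U _
    rw [Finset.sum_comm]
  rw [h3]
  have h5 : ∀ c ∈ range m, (1 / (m : ℝ)) * ∑ d ∈ UU.image dd, (1 / (d : ℝ)) *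
        ∑ a ∈ Ico 1 d, ‖H b L (b * ((a : ℝ) / d) + ((c : ℤ) : ℝ) / m) (k / b ^ L)‖ ≤
      (1 / (m : ℝ)) * E := by
    intro c _
    apply mul_le_mul_of_nonneg_left _ (by positivity)
    have := hE (c : ℤ)
    rw [hdd]
    exact this
  refine (Finset.sum_le_sum h5).trans (le_of_eq ?_)
  rw [Finset.sum_const, card_range, nsmul_eq_mul]
  field_simp

/-- the size of the coefficients of the error -/
theorem Th_bound (b e₀ z R D : ℕ) (he : 0 < e₀) (θ : Finset ℕ → ℝ) (hθ : ∀ U, |θ U| ≤ 1)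
    (hD : ∀ U ∈ (Ps b z R).powerset, θ U ≠ 0 → ∏ p ∈ U, p ≤ D) (n : ℕ) :
    |Th (Zc b e₀) z R θ n| ≤ ((e₀ + b * n).divisors.card : ℝ) ∧
    |qq (Zc b e₀) z R θ| ≤ 1 + Real.log D := by
  obtain ⟨UU, hUU⟩ : ∃ UU, UU = (Ps b z R).powerset.filter (fun U => θ U ≠ 0) := ⟨_, rfl⟩
  have hpr : ∀ U ∈ (Ps b z R).powerset, ∀ p ∈ U, p.Prime := by
    intro U hU p hp
    rw [mem_powerset] at hU
    exact (Ps_prime (hU hp)).1
  have hinj : Set.InjOn (fun U : Finset ℕ => ∏ p ∈ U, p) ((Ps b z R).powerset : Set (Finset ℕ)) := by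
    intro U hU V hV h
    rw [Finset.mem_coe] at hU hV
    simp only at h
    rw [← Nat.primeFactors_prod (hpr U hU), ← Nat.primeFactors_prod (hpr V hV), h]
  constructor
  · rw [Th_eq]
    refine (Finset.abs_sum_le_sum_abs _ _).trans ?_
    have h1 : ∀ U ∈ (Ps b z R).powerset, |θ U * (if (∏ p ∈ U, p) ∣ e₀ + b * n then 1 else 0)| ≤
        if (∏ p ∈ U, p) ∣ e₀ + b * n then 1 else 0 := by
      intro U _
      split_ifs
      · rw [mul_one]; exact hθ U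
      · simp
    refine (Finset.sum_le_sum h1).trans ?_
    rw [← Finset.sum_filter, Finset.sum_const, nsmul_eq_mul, mul_one]
    have h2 : ((Ps b z R).powerset.filter (fun U => (∏ p ∈ U, p) ∣ e₀ + b * n)).card ≤
        (e₀ + b * n).divisors.card := by
      apply Finset.card_le_card_of_injOn (fun U => ∏ p ∈ U, p)
      · intro U hU
        rw [Finset.mem_coe, mem_filter] at hU
        rw [Finset.mem_coe, Nat.mem_divisors]
        exact ⟨hU.2, by omega⟩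
      · intro U hU V hV h
        rw [Finset.mem_coe, mem_filter] at hU hV
        exact hinj hU.1 hV.1 h
    exact_mod_cast h2
  · rw [qq_eq]
    refine (Finset.abs_sum_le_sum_abs _ _).trans ?_
    have h1 : ∀ U ∈ (Ps b z R).powerset, |θ U * (1 / ((∏ p ∈ U, p : ℕ) : ℝ))| ≤
        if θ U ≠ 0 then (1 / ((∏ p ∈ U, p : ℕ) : ℝ)) else 0 := by
      intro U _
      split_ifs with h
      · rw [abs_mul, abs_of_nonneg (show (0 : ℝ) ≤ 1 / ((∏ p ∈ U, p : ℕ) : ℝ) by positivity)]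
        exact mul_le_of_le_one_left (by positivity) (hθ U)
      · push Not at h
        rw [h]; simp
    refine (Finset.sum_le_sum h1).trans ?_
    rw [← Finset.sum_filter]
    have h2 : ∑ U ∈ (Ps b z R).powerset.filter (fun U => θ U ≠ 0),
        (1 / ((∏ p ∈ U, p : ℕ) : ℝ)) =
        ∑ d ∈ ((Ps b z R).powerset.filter (fun U => θ U ≠ 0)).image (fun U => ∏ p ∈ U, p),
          (1 / (d : ℝ)) := by
      rw [Finset.sum_image]
      intro x hx y hy h
      rw [mem_coe, mem_filter] at hx hy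
      exact hinj hx.1 hy.1 h
    rw [h2]
    refine le_trans ?_ (harm D)
    apply Finset.sum_le_sum_of_subset_of_nonneg
    · intro d hd
      rw [mem_image] at hd
      obtain ⟨U, hU, rfl⟩ := hd
      rw [mem_filter] at hU
      rw [mem_Icc]
      exact ⟨Finset.prod_pos fun p hp => (hpr U hU.1 p hp).pos, hD U hU.1 hU.2⟩
    · intro d _ _
      positivity

end Pool.Agent.X35.RQ
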