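import Pool.Agent.X35.RQ.Dens

/-!
# The order of the reversed primes is at most a constant times the logarithm of the base
-/

set_option autoImplicit false

open Finset Filter

namespace Pool.Agent.X35.RQ

open Pool.Agent.X35.RP (rev IsSum small_sum)
open Pool.Agent.W851.Had (cnt SumH schn cnt_le)

open Classical in
theorem cnt_add (A : ℕ → Prop) (x n : ℕ) :
    cnt A (x + n) = cnt A x + ((Ioc x (x + n)).filter A).card := by
  unfold cnt
  have h1 : ∀ n : ℕ, Icc 1 n = Ioc 0 n := by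
    intro n; ext z; simp only [mem_Icc, mem_Ioc]; omega
  rw [h1, h1, ← Finset.card_union_of_disjoint]
  · congr 1
    rw [← Finset.filter_union, Finset.Ioc_union_Ioc_eq_Ioc (Nat.zero_le _) (by omega)]
  · rw [Finset.disjoint_left]
    intro z hz hz'
    rw [mem_filter, mem_Ioc] at hz hz'
    omega

/-- a point after which the set is never too thin -/
theorem good_point (A : ℕ → Prop) (δ : ℝ) (hδ : 0 < δ) (x0 : ℕ)
    (h : ∀ x : ℕ, x0 ≤ x → δ * x ≤ cnt A x) :
    ∃ a : ℕ, 1 ≤ a ∧ A a ∧ ∀ n : ℕ, δ * n ≤ (cnt A (a - 1 + n) : ℝ) - cnt A (a - 1) := by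
  classical
  by_contra hcon
  push Not at hcon
  have key : ∀ X : ℕ, ∃ x : ℕ, X ≤ x ∧ (cnt A x : ℝ) ≤ δ * x ∧ (1 ≤ x → (cnt A x : ℝ) < δ * x) := by
    intro X
    induction X with
    | zero =>
      refine ⟨0, le_rfl, ?_, by omega⟩
      rw [Pool.Agent.W851.Had.cnt_zero]; simp
    | succ X ih =>
      obtain ⟨x, hx1, hx2, hx3⟩ := ih
      -- the next element of `A`
      have hex : ∃ a : ℕ, x < a ∧ A a := by
        by_contra hno
        push Not at hno
        obtain ⟨N, hN⟩ := exists_nat_gt (((cnt A x : ℝ) + 1) / δ)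
        have h1 := h (max x0 (x + N)) (le_max_left _ _)
        have h2 : cnt A (max x0 (x + N)) = cnt A x := by
          apply Pool.Agent.W851.Had.cnt_same A (a := x) (le_trans (by omega) (le_max_right _ _))
          intro i hi _
          exact hno i hi
        rw [h2] at h1
        have h3 : ((N : ℕ) : ℝ) ≤ ((max x0 (x + N) : ℕ) : ℝ) := by
          exact_mod_cast le_trans (by omega : N ≤ x + N) (le_max_right _ _)
        rw [div_lt_iff₀ hδ] at hN
        have h4 := mul_le_mul_of_nonneg_left h3 hδ.le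
        linarith
      obtain ⟨ha1, ha2⟩ := Nat.find_spec hex
      obtain ⟨a, ha⟩ : ∃ a, a = Nat.find hex := ⟨_, rfl⟩
      rw [← ha] at ha1 ha2
      have ha3 : ∀ i, x < i → i ≤ a - 1 → ¬ A i := by
        intro i hi1 hi2 hA
        have := Nat.find_min' hex ⟨hi1, hA⟩
        omega
      have h5 : cnt A (a - 1) = cnt A x :=
        Pool.Agent.W851.Had.cnt_same A (a := x) (by omega) ha3
      obtain ⟨n, hn⟩ := hcon a (by omega) ha2
      have hn0 : n ≠ 0 := by
        rintro rfl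
        simp at hn
      refine ⟨a - 1 + n, by omega, ?_, ?_⟩
      · have h6 : (x : ℝ) ≤ ((a - 1 : ℕ) : ℝ) := by exact_mod_cast (by omega : x ≤ a - 1)
        have h7 := mul_le_mul_of_nonneg_left h6 hδ.le
        rw [h5] at hn
        push_cast
        linarith
      · intro _
        have h6 : (x : ℝ) ≤ ((a - 1 : ℕ) : ℝ) := by exact_mod_cast (by omega : x ≤ a - 1)
        have h7 := mul_le_mul_of_nonneg_left h6 hδ.le
        rw [h5] at hn
        push_cast
        linarith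
  obtain ⟨x, hx1, _, hx3⟩ := key (x0 + 1)
  have h1 := h x (by omega)
  have h2 := hx3 (by omega)
  linarith

theorem list_sum2 (b a : ℕ) (A : ℕ → Prop) (hA : ∀ n, A n → IsSum b 2 n) (L : List ℕ)
    (hL : ∀ y ∈ L, A (a + y) ∨ (1 ≤ y ∧ A (a + y - 1))) :
    ∃ j m : ℕ, j ≤ L.length ∧ IsSum b (2 * L.length) m ∧ m + j = L.sum + L.length * a := by
  induction L with
  | nil => exact ⟨0, 0, le_rfl, IsSum.zero b _, by simp⟩
  | cons y L ih =>
    obtain ⟨j, m, h1, h2, h3⟩ := ih (fun z hz => hL z (List.mem_cons_of_mem _ hz))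
    rw [List.length_cons, List.sum_cons]
    have h4 : (L.length + 1) * a = L.length * a + a := by ring
    rcases hL y List.mem_cons_self with h | ⟨h, h'⟩
    · exact ⟨j, m + (a + y), by omega, (h2.add (hA _ h)).mono (by omega), by omega⟩
    · exact ⟨j + 1, m + (a + y - 1), by omega, (h2.add (hA _ h')).mono (by omega), by omega⟩

/-- an asymptotic basis of order `O (1 / δ)` -/
theorem order_le (b : ℕ) (hb : 2 ≤ b) (δ : ℝ) (hδ : 0 < δ) (x0 : ℕ)
    (h : ∀ x : ℕ, x0 ≤ x → δ * x ≤ cnt (IsSum b 2) x) (t : ℕ) (ht : 1 ≤ δ * t) :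
    ∃ N₀ : ℕ, ∀ N : ℕ, N₀ ≤ N → IsSum b (6 * t + 2 + 6 * t) N := by
  classical
  obtain ⟨a, ha1, ha2, ha3⟩ := good_point (IsSum b 2) δ hδ x0 h
  have hδ1 : δ ≤ 1 := by
    have h1 := h (x0 + 1) (by omega)
    have h2 : (cnt (IsSum b 2) (x0 + 1) : ℝ) ≤ ((x0 + 1 : ℕ) : ℝ) := by exact_mod_cast cnt_le _ _
    have h3 : (0 : ℝ) < ((x0 + 1 : ℕ) : ℝ) := by exact_mod_cast Nat.succ_pos x0
    nlinarith
  obtain ⟨S, hS⟩ : ∃ S : ℕ → Prop, S = fun n => IsSum b 2 (a + n) ∨ (1 ≤ n ∧ IsSum b 2 (a + n - 1)) :=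
    ⟨_, rfl⟩
  have hcnt : ∀ n : ℕ, δ * n ≤ cnt S n := by
    intro n
    refine (ha3 n).trans ?_
    rw [cnt_add (IsSum b 2) (a - 1) n]
    push_cast
    have h1 : ((Ioc (a - 1) (a - 1 + n)).filter (IsSum b 2)).card ≤ cnt S n := by
      unfold cnt
      apply Finset.card_le_card_of_injOn (fun z => z + 1 - a)
      · intro z hz
        rw [Finset.mem_coe, mem_filter, mem_Ioc] at hz
        rw [Finset.mem_coe, mem_filter, mem_Icc]
        refine ⟨by show 1 ≤ z + 1 - a ∧ z + 1 - a ≤ n; omega, ?_⟩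
        rw [hS]
        right
        show 1 ≤ z + 1 - a ∧ IsSum b 2 (a + (z + 1 - a) - 1)
        refine ⟨by omega, ?_⟩
        have : a + (z + 1 - a) - 1 = z := by omega
        rw [this]
        exact hz.2
      · intro z hz z' hz' he
        rw [Finset.mem_coe, mem_filter, mem_Ioc] at hz hz'
        simp only at he
        omega
    have h2 : (((Ioc (a - 1) (a - 1 + n)).filter (IsSum b 2)).card : ℝ) ≤ cnt S n := by
      exact_mod_cast h1
    linarith
  refine ⟨(t + t) * a + 2, ?_⟩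
  intro N hN
  obtain ⟨L, hL1, hL2, hL3⟩ := schn S (N - 2 - (t + t) * a) t δ hδ1 ht (by
    rw [hS]; left; exact ha2) (fun n _ => hcnt n) (N - 2 - (t + t) * a) le_rfl
  obtain ⟨j, m, h1, h2, h3⟩ := list_sum2 b a (IsSum b 2) (fun _ h => h) L (by
    intro y hy
    have := hL2 y hy
    rw [hS] at this
    exact this)
  have h4 := small_sum b hb (j + 2) (by omega)
  have h5 := h2.add h4
  rw [hL1] at h1 h3 h5
  have h6 : m + (j + 2) = N := by omega
  rw [h6] at h5
  exact h5.mono (by omega)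

/-- the bound for all bases -/
theorem main : ∃ C : ℝ, 0 < C ∧ ∀ b : ℕ, 2 ≤ b → ∃ K : ℕ, 2 ≤ K ∧ (K : ℝ) ≤ C * Real.log b ∧
    ∃ N₀ : ℕ, ∀ N : ℕ, N₀ ≤ N → IsSum b K N := by
  classical
  obtain ⟨c7, hc7, hdens⟩ := dens
  -- large bases
  obtain ⟨b0, hb0⟩ : ∃ b0 : ℕ, ∀ b : ℕ, b0 ≤ b → 2 * (4 + Real.log b) ^ 2 ≤ b := by
    have h1 := (Real.isLittleO_pow_log_id_atTop (n := 2)).comp_tendsto
      (tendsto_natCast_atTop_atTop (R := ℝ))
    have h2 := h1.bound (show (0 : ℝ) < 1 / 8 by norm_num)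
    have h3 : ∀ᶠ b : ℕ in atTop, (128 : ℝ) ≤ b := tendsto_natCast_atTop_atTop.eventually_ge_atTop _
    obtain ⟨b0, hb0⟩ := (h2.and h3).exists_forall_of_atTop
    refine ⟨b0, ?_⟩
    intro b hb
    obtain ⟨g1, g2⟩ := hb0 b hb
    simp only [Function.comp, id] at g1
    rw [Real.norm_of_nonneg (by positivity), Real.norm_of_nonneg (by positivity)] at g1
    nlinarith [sq_nonneg (Real.log b - 4)]
  have hex : ∀ b : ℕ, 2 ≤ b → ∃ K : ℕ, ∃ N₀ : ℕ, ∀ N : ℕ, N₀ ≤ N → IsSum b K N := by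
    intro b hb
    exact Pool.Agent.X35.RP.main b hb
  choose! KK hKK using hex
  obtain ⟨K1, hK1⟩ : ∃ K1, K1 = (range (b0 + 3)).sup KK := ⟨_, rfl⟩
  have hl2 : (0 : ℝ) < Real.log 2 := Real.log_pos (by norm_num)
  have hl2' : (1 / 2 : ℝ) < Real.log 2 := by have := Real.log_two_gt_d9; linarith
  refine ⟨2 * (K1 + 2) + 2 * (12 / c7 + 14), by positivity, ?_⟩
  intro b hb
  have hbr : (2 : ℝ) ≤ b := by exact_mod_cast hb
  have hlogb : (1 / 2 : ℝ) < Real.log b := hl2'.trans_le (Real.log_le_log (by norm_num) hbr)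
  rcases Nat.lt_or_ge b (b0 + 3) with hlt | hge
  · refine ⟨KK b + 2, by omega, ?_, ?_⟩
    · have h1 : KK b ≤ K1 := by
        rw [hK1]
        exact Finset.le_sup (f := KK) (mem_range.2 hlt)
      have h2 : (KK b : ℝ) ≤ K1 := by exact_mod_cast h1
      push_cast
      have h3 : (0 : ℝ) ≤ 2 * (12 / c7 + 14) * Real.log b := by positivity
      have h4 : (0 : ℝ) ≤ (K1 : ℝ) + 2 := by positivity
      nlinarith
    · obtain ⟨N₀, hN₀⟩ := hKK b hb
      exact ⟨N₀, fun N hN => (hN₀ N hN).mono (by omega)⟩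
  · obtain ⟨n0, hn0⟩ := hdens b (by omega) (hb0 b (by omega))
    obtain ⟨β, hβ⟩ : ∃ β : ℕ, β = Nat.log 2 b := ⟨_, rfl⟩
    rw [← hβ] at hn0
    have hβ1 : 1 ≤ β := by
      rw [hβ]
      exact Nat.log_pos (by norm_num) (by omega)
    have hβr : (1 : ℝ) ≤ β := by exact_mod_cast hβ1
    have hβlog : (β : ℝ) ≤ 2 * Real.log b := by
      have h1 : 2 ^ β ≤ b := by rw [hβ]; exact Nat.pow_log_le_self 2 (by omega)
      have h2 : (2 : ℝ) ^ β ≤ b := by exact_mod_cast h1
      have h3 := Real.log_le_log (by positivity) h2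
      rw [Real.log_pow] at h3
      nlinarith
    obtain ⟨t, ht⟩ : ∃ t : ℕ, t = ⌈(β : ℝ) / c7⌉₊ := ⟨_, rfl⟩
    have ht1 : (β : ℝ) / c7 ≤ t := by rw [ht]; exact Nat.le_ceil _
    have ht2 : (t : ℝ) < β / c7 + 1 := by rw [ht]; exact Nat.ceil_lt_add_one (by positivity)
    obtain ⟨N₀, hN₀⟩ := order_le b hb (c7 / β) (by positivity) n0 hn0 t (by
      rw [div_le_iff₀ hc7] at ht1
      rw [div_mul_eq_mul_div, le_div_iff₀ (by linarith)]
      linarith)
    refine ⟨6 * t + 2 + 6 * t, by omega, ?_, N₀, hN₀⟩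
    push_cast
    have h1 : 12 * (t : ℝ) + 2 ≤ 12 / c7 * β + 14 * β := by
      have : 12 * (t : ℝ) < 12 * (β / c7 + 1) := by linarith
      have h2 : 12 * ((β : ℝ) / c7 + 1) = 12 / c7 * β + 12 := by ring
      nlinarith
    have h3 : 12 / c7 * β + 14 * β ≤ 2 * (12 / c7 + 14) * Real.log b := by
      have h4 := mul_le_mul_of_nonneg_left hβlog (show 0 ≤ 12 / c7 + 14 by positivity)
      linarith
    have h5 : 0 ≤ 2 * ((K1 : ℝ) + 2) * Real.log b := by positivity
    nlinarith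

end Pool.Agent.X35.RQ
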